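import Pool.Agent.Lib.MP_8a3537_gt.TW.Spec
import Pool.Agent.Lib.MP_8a3537_gt.SG.SCA
import Pool.Agent.Lib.MP_8a3537_gt.SG.SGN

/-!
# CSA: the sign of an invertible self-adjoint element of a C*-algebra, and the iteration
-/

set_option linter.unusedVariables false

namespace Pool.Agent.Lib.MP8a3537.TW

open Pool.Agent.Lib.MP8a3537.SG
open Filter Topology

namespace CSAM

variable {A : Type} [CStarAlgebra A]

lemma sign_cont {s : Set ℝ} (h0 : (0 : ℝ) ∉ s) : ContinuousOn (fun x : ℝ => x / |x|) s := by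
  intro x hx
  have hx0 : x ≠ 0 := fun h => h0 (h ▸ hx)
  exact (continuousAt_id.div (continuous_abs.continuousAt) (abs_ne_zero.mpr hx0)).continuousWithinAt

lemma exist (a : A) (ha : IsSelfAdjoint a) (hu : IsUnit a) :
    ∃ s : A, star s = s ∧ s * s = 1 ∧ s * a = a * s ∧ ∃ t, s * a = star t * t := by
  have h0 : (0 : ℝ) ∉ spectrum ℝ a := by
    rw [spectrum.zero_notMem_iff]
    exact hu
  have hc := sign_cont h0
  refine ⟨cfc (fun x : ℝ => x / |x|) a, ?_, ?_, ?_, cfc (fun x : ℝ => Real.sqrt |x|) a, ?_⟩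
  · exact (cfc_predicate (R := ℝ) (p := IsSelfAdjoint) (fun x : ℝ => x / |x|) a).star_eq
  · rw [← cfc_mul (fun x : ℝ => x / |x|) (fun x : ℝ => x / |x|) a hc hc]
    have : (spectrum ℝ a).EqOn (fun x : ℝ => x / |x| * (x / |x|)) (fun _ => (1 : ℝ)) := by
      intro x hx
      have hx0 : x ≠ 0 := fun h => h0 (h ▸ hx)
      have h1 : |x| ≠ 0 := abs_ne_zero.mpr hx0
      simp only
      rw [div_mul_div_comm, abs_mul_abs_self]
      exact div_self (mul_ne_zero hx0 hx0)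
    rw [cfc_congr this]
    exact cfc_const_one ℝ a
  · have h2 : Commute (cfc (fun x : ℝ => x / |x|) a) (cfc (fun x : ℝ => x) a) :=
      cfc_commute_cfc _ _ a
    rw [cfc_id' ℝ a] at h2
    exact h2
  · have hsq : ContinuousOn (fun x : ℝ => Real.sqrt |x|) (spectrum ℝ a) :=
      (Real.continuous_sqrt.comp continuous_abs).continuousOn
    have h3 : star (cfc (fun x : ℝ => Real.sqrt |x|) a) = cfc (fun x : ℝ => Real.sqrt |x|) a :=
      (cfc_predicate (R := ℝ) (p := IsSelfAdjoint) (fun x : ℝ => Real.sqrt |x|) a).star_eq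
    rw [h3, ← cfc_mul (fun x : ℝ => Real.sqrt |x|) (fun x : ℝ => Real.sqrt |x|) a hsq hsq]
    have h4 : cfc (fun x : ℝ => x / |x|) a * cfc (fun x : ℝ => x) a
          = cfc (fun x : ℝ => x / |x| * x) a :=
        (cfc_mul (fun x : ℝ => x / |x|) (fun x : ℝ => x) a hc continuousOn_id).symm
    rw [cfc_id' ℝ a] at h4
    rw [h4]
    apply cfc_congr
    intro x hx
    have hx0 : x ≠ 0 := fun h => h0 (h ▸ hx)
    have h1 : |x| ≠ 0 := abs_ne_zero.mpr hx0
    simp only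
    rw [Real.mul_self_sqrt (abs_nonneg x), div_mul_eq_mul_div, ← abs_mul_abs_self x, mul_div_assoc,
      div_self h1, mul_one]

lemma it_cfc (X : A) (hX : IsSelfAdjoint X) (j : ℕ) :
    it X j = cfc (fun x : ℝ => sj x j) X := by
  induction j with
  | zero =>
    show X = cfc (fun x : ℝ => x) X
    rw [cfc_id' ℝ X]
  | succ j ih =>
    show (3 / 2 : ℂ) • it X j - (1 / 2 : ℂ) • (it X j) ^ 3
      = cfc (fun x : ℝ => (3 * sj x j - (sj x j) ^ 3) / 2) X
    have hc : ContinuousOn (fun x : ℝ => sj x j) (spectrum ℝ X) := (SGNM.sj_cont j).continuousOn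
    have e1 : (fun x : ℝ => (3 * sj x j - (sj x j) ^ 3) / 2)
        = fun x : ℝ => (3 / 2 : ℝ) • sj x j - (1 / 2 : ℝ) • (sj x j) ^ 3 := by
      funext x
      simp only [smul_eq_mul]
      ring
    rw [e1, cfc_sub (fun x : ℝ => (3 / 2 : ℝ) • sj x j) (fun x : ℝ => (1 / 2 : ℝ) • (sj x j) ^ 3) X
      (hc.const_smul (3 / 2 : ℝ)) (by exact (hc.pow 3).const_smul (1 / 2 : ℝ)),
      cfc_smul (3 / 2 : ℝ) (fun x : ℝ => sj x j) X hc,
      cfc_smul (1 / 2 : ℝ) (fun x : ℝ => (sj x j) ^ 3) X (hc.pow 3),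
      cfc_pow (fun x : ℝ => sj x j) 3 X hc, ← ih]
    have k1 : ∀ (r : ℝ) (Y : A), ((r : ℝ) • Y) = ((r : ℂ) • Y) := fun r Y =>
      (Complex.coe_smul r Y).symm
    rw [k1, k1]
    norm_num

lemma norm_one_le : ‖(1 : A)‖ ≤ 1 := by
  have h1 : ‖(1 : A)‖ * ‖(1 : A)‖ = ‖(1 : A)‖ := by
    have := CStarRing.norm_star_mul_self (x := (1 : A))
    rwa [star_one, one_mul, eq_comm] at this
  by_contra h
  push Not at h
  nlinarith [norm_nonneg (1 : A)]

/-- the estimate -/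
theorem core (a s : A) (hs : star s = s ∧ s * s = 1 ∧ s * a = a * s ∧ ∃ t, s * a = star t * t)
    (ha : IsSelfAdjoint a) (hu : IsUnit a) (ha1 : ‖a‖ ≤ 1) :
    ∃ e : ℝ, 0 < e ∧ e ≤ 1 ∧ ∀ j, ‖it a j - s‖ ≤ del e j := by
  obtain ⟨hS1, hS2, hS3, t, ht⟩ := hs
  obtain ⟨X, hXdef⟩ : ∃ X : A, X = s * a := ⟨_, rfl⟩
  have hXt : X = star t * t := hXdef.trans ht
  have hXsa : IsSelfAdjoint X := by
    rw [hXt]
    exact IsSelfAdjoint.star_mul_self t
  have hcomm : Commute s X := by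
    show s * X = X * s
    rw [hXdef, mul_assoc s a s, ← hS3]
  have hAX : a = s * X := by
    rw [hXdef, ← mul_assoc, hS2, one_mul]
  have hSn : ‖s‖ ≤ 1 := by
    have h1 : ‖s * s‖ = ‖s‖ * ‖s‖ := by
      have := CStarRing.norm_star_mul_self (x := s)
      rwa [hS1] at this
    rw [hS2] at h1
    have h2 := norm_one_le (A := A)
    rw [h1] at h2
    nlinarith [norm_nonneg s]
  have hXn : ‖X‖ ≤ 1 := by
    rw [hXdef]
    calc ‖s * a‖ ≤ ‖s‖ * ‖a‖ := norm_mul_le _ _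
      _ ≤ 1 * 1 := mul_le_mul hSn ha1 (norm_nonneg _) zero_le_one
      _ = 1 := one_mul 1
  have hsu : IsUnit s := ⟨⟨s, s, hS2, hS2⟩, rfl⟩
  have hXu : IsUnit X := by
    rw [hXdef]
    exact hsu.mul hu
  obtain ⟨Y, hXY⟩ : ∃ Y : A, X * Y = 1 := by
    obtain ⟨u, hu'⟩ := hXu
    exact ⟨((u⁻¹ : Aˣ) : A), by rw [← hu', Units.mul_inv]⟩
  obtain ⟨e, hedef⟩ : ∃ e : ℝ, e = 1 / (‖Y‖ + 1) := ⟨_, rfl⟩
  have hY1 : 0 < ‖Y‖ + 1 := by positivity
  have he : 0 < e := by rw [hedef]; positivity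
  have he1 : e ≤ 1 := by
    rw [hedef, div_le_one hY1]
    linarith [norm_nonneg Y]
  refine ⟨e, he, he1, fun j => ?_⟩
  obtain ⟨sc1, sc2, -⟩ := specSCA e he he1
  have hspec : ∀ x ∈ spectrum ℝ X, e ≤ x ∧ x ≤ 1 := by
    intro x hx
    have h0 : 0 ≤ x := by
      rw [hXt] at hx
      exact spectrum_star_mul_self_nonneg x hx
    have h1 : |x| ≤ 1 := by
      have := spectrum.norm_le_norm_mul_of_mem hx
      rw [Real.norm_eq_abs] at this
      calc |x| ≤ ‖X‖ * ‖(1 : A)‖ := this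
        _ ≤ 1 * 1 := mul_le_mul hXn norm_one_le (norm_nonneg _) zero_le_one
        _ = 1 := one_mul 1
    refine ⟨?_, (le_abs_self x).trans h1⟩
    by_contra hlt
    push Not at hlt
    apply hx
    have hsmall : ‖(x : ℝ) • Y‖ < 1 := by
      rw [norm_smul, Real.norm_eq_abs, abs_of_nonneg h0]
      calc x * ‖Y‖ ≤ x * (‖Y‖ + 1) := mul_le_mul_of_nonneg_left (by linarith) h0
        _ < e * (‖Y‖ + 1) := mul_lt_mul_of_pos_right hlt hY1
        _ = 1 := by rw [hedef]; field_simp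
    have hu : IsUnit (1 - (x : ℝ) • Y) := isUnit_one_sub_of_norm_lt_one hsmall
    have e1 : algebraMap ℝ A x - X = -(X * (1 - (x : ℝ) • Y)) := by
      rw [mul_sub, mul_one, mul_smul_comm, hXY, Algebra.algebraMap_eq_smul_one]
      abel
    show IsUnit (algebraMap ℝ A x - X)
    rw [e1]
    exact (hXu.mul hu).neg
  have hit : it a j - s = s * cfc (fun x : ℝ => sj x j - 1) X := by
    rw [hAX, SGNM.it_mul s X hS2 hcomm j, it_cfc X hXsa j,
      cfc_sub (fun x : ℝ => sj x j) (fun _ : ℝ => (1 : ℝ)) X (SGNM.sj_cont j).continuousOn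
        continuousOn_const, cfc_const_one ℝ X, mul_sub, mul_one]
  rw [hit]
  have hb : ‖cfc (fun x : ℝ => sj x j - 1) X‖ ≤ del e j := by
    apply norm_cfc_le (sc2 j).1
    intro x hx
    obtain ⟨hx1, hx2⟩ := hspec x hx
    have hx0 : 0 < x := he.trans_le hx1
    have := sc1 x j (by rwa [abs_of_pos hx0]) (by rwa [abs_of_pos hx0])
    rw [sign_pos hx0] at this
    simpa using this
  calc ‖s * cfc (fun x : ℝ => sj x j - 1) X‖ ≤ ‖s‖ * ‖cfc (fun x : ℝ => sj x j - 1) X‖ :=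
        norm_mul_le _ _
    _ ≤ 1 * del e j := mul_le_mul hSn hb (norm_nonneg _) zero_le_one
    _ = del e j := one_mul _

lemma del_tendsto {e : ℝ} (he : 0 < e) (he1 : e ≤ 1) : Tendsto (fun j => del e j) atTop (𝓝 0) := by
  obtain ⟨-, sc2, j0, hj0⟩ := specSCA e he he1
  have h1 : Tendsto (fun i : ℕ => (1 / 2 : ℝ) ^ (2 ^ i)) atTop (𝓝 0) := by
    have h2 : Tendsto (fun i : ℕ => (2 : ℕ) ^ i) atTop atTop :=
      tendsto_pow_atTop_atTop_of_one_lt (by norm_num)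
    exact (tendsto_pow_atTop_nhds_zero_of_lt_one (by norm_num) (by norm_num)).comp h2
  have h3 : Tendsto (fun i : ℕ => del e (j0 + i)) atTop (𝓝 0) :=
    squeeze_zero (fun i => (sc2 _).1) hj0 h1
  have h4 : (fun i : ℕ => del e (j0 + i)) = fun i : ℕ => (fun j => del e j) (i + j0) := by
    funext i
    rw [Nat.add_comm]
  rw [h4] at h3
  exact (tendsto_add_atTop_iff_nat j0).mp h3

end CSAM

open CSAM in
theorem specCSA : SpecCSA := by
  intro A _ a ha hu
  refine ⟨exist a ha hu, 1 / (‖a‖ + 1), by positivity, fun b hb hb1 s hs => ?_⟩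
  obtain ⟨hS1, hS2, hS3, t, ht⟩ := hs
  have hb' : ((b : ℂ)) ≠ 0 := by exact_mod_cast hb.ne'
  have hsa : IsSelfAdjoint ((b : ℂ) • a) := by
    show star ((b : ℂ) • a) = (b : ℂ) • a
    rw [star_smul, ha.star_eq]
    congr 1
    exact Complex.conj_ofReal b
  have hub : IsUnit ((b : ℂ) • a) := by
    have := (Units.mk0 (b : ℂ) hb')
    have h2 : (b : ℂ) • a = algebraMap ℂ A (b : ℂ) * a := by
      rw [Algebra.algebraMap_eq_smul_one, smul_mul_assoc, one_mul]
    rw [h2]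
    exact ((Units.mk0 (b : ℂ) hb').isUnit.map (algebraMap ℂ A)).mul hu
  have hn : ‖(b : ℂ) • a‖ ≤ 1 := by
    rw [norm_smul, Complex.norm_real, Real.norm_eq_abs, abs_of_pos hb]
    have h1 : 0 < ‖a‖ + 1 := by positivity
    calc b * ‖a‖ ≤ 1 / (‖a‖ + 1) * (‖a‖ + 1) :=
          mul_le_mul hb1 (by linarith) (norm_nonneg _) (by positivity)
      _ = 1 := by field_simp
  have hs' : star s = s ∧ s * s = 1 ∧ s * ((b : ℂ) • a) = ((b : ℂ) • a) * s ∧
      ∃ t, s * ((b : ℂ) • a) = star t * t := by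
    refine ⟨hS1, hS2, ?_, ((Real.sqrt b : ℝ) : ℂ) • t, ?_⟩
    · rw [mul_smul_comm, smul_mul_assoc, hS3]
    · rw [mul_smul_comm, ht, star_smul, smul_mul_smul_comm]
      congr 1
      rw [show star ((Real.sqrt b : ℝ) : ℂ) = ((Real.sqrt b : ℝ) : ℂ) from Complex.conj_ofReal _,
        ← Complex.ofReal_mul, Real.mul_self_sqrt hb.le]
  obtain ⟨e, he, he1, hcore⟩ := core ((b : ℂ) • a) s hs' hsa hub hn
  rw [tendsto_iff_norm_sub_tendsto_zero]
  exact squeeze_zero (fun _ => norm_nonneg _) hcore (del_tendsto he he1)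

end Pool.Agent.Lib.MP8a3537.TW
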