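import Pool.Agent.Lib.MP_8a3537_gt.TW.Spec

/-!
# NIT: the iterates of a selfadjoint contraction are contractions
-/

set_option linter.unusedVariables false

namespace Pool.Agent.Lib.MP8a3537.TW

open Pool.Agent.Lib.MP8a3537.SG
open scoped BigOperators Pointwise ComplexOrder Matrix

theorem nit_step {A : Type} [CStarAlgebra A] (b : A) (hb : IsSelfAdjoint b) (hn : ‖b‖ ≤ 1) :
    IsSelfAdjoint ((3 / 2 : ℂ) • b - (1 / 2 : ℂ) • b ^ 3) ∧
      ‖(3 / 2 : ℂ) • b - (1 / 2 : ℂ) • b ^ 3‖ ≤ 1 := by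
  have hc : (3 / 2 : ℂ) • b - (1 / 2 : ℂ) • b ^ 3 = cfc (fun x : ℝ => (3 / 2) * x - (1 / 2) * x ^ 3) b := by
    rw [cfc_sub (fun x : ℝ => (3 / 2) * x) (fun x : ℝ => (1 / 2) * x ^ 3) b, cfc_const_mul (3 / 2) (fun x : ℝ => x) b,
      cfc_const_mul (1 / 2) (fun x : ℝ => x ^ 3) b, cfc_id' ℝ b, cfc_pow_id (R := ℝ) b 3]
    congr 1
    · rw [← Complex.coe_smul (3 / 2 : ℝ) b]
      norm_num
    · rw [← Complex.coe_smul (1 / 2 : ℝ) (b ^ 3)]
      norm_num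
  rw [hc]
  refine ⟨cfc_predicate _ b, norm_cfc_le zero_le_one ?_⟩
  intro x hx
  have h1 : ‖x‖ ≤ 1 := by
    have h2 := spectrum.norm_le_norm_mul_of_mem hx
    have h3 : ‖b‖ * ‖(1 : A)‖ ≤ 1 := by
      have h4 : ‖(1 : A)‖ ≤ 1 := by
        have h5 : ‖(1 : A)‖ * ‖(1 : A)‖ = ‖(1 : A)‖ := by
          have := CStarRing.norm_star_mul_self (x := (1 : A))
          rw [star_one, mul_one] at this
          exact this.symm
        nlinarith [norm_nonneg (1 : A)]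
      nlinarith [norm_nonneg (1 : A), norm_nonneg b]
    exact h2.trans h3
  rw [Real.norm_eq_abs, abs_le] at h1
  rw [Real.norm_eq_abs, abs_le]
  constructor
  · nlinarith [mul_nonneg (mul_nonneg (by linarith [h1.1] : (0 : ℝ) ≤ 1 + x) (by linarith [h1.1] : (0 : ℝ) ≤ 1 + x)) (by linarith [h1.2] : (0 : ℝ) ≤ 2 - x)]
  · nlinarith [mul_nonneg (mul_nonneg (by linarith [h1.2] : (0 : ℝ) ≤ 1 - x) (by linarith [h1.2] : (0 : ℝ) ≤ 1 - x)) (by linarith [h1.1] : (0 : ℝ) ≤ 2 + x)]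

theorem specNIT : SpecNIT := by
  intro A _ a ha hn j
  induction j with
  | zero => exact ⟨ha, hn⟩
  | succ j ih => exact nit_step (it a j) ih.1 ih.2

end Pool.Agent.Lib.MP8a3537.TW
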