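import Pool.Agent.Lib.MP_8a3537_gt.TW.Spec

/-! # MOM: the iterates of `t a` are determined by the moments -/

set_option linter.unusedVariables false

namespace Pool.Agent.Lib.MP8a3537.TW.MOMM

open Pool.Agent.Lib.MP8a3537.SG
open scoped BigOperators Pointwise ComplexOrder Matrix

lemma it_eq_aeval {A : Type} [Ring A] [Algebra ℂ A] (a : A) (j : ℕ) : it a j = Polynomial.aeval a (qj j) := by
  induction j with
  | zero => simp [it, qj]
  | succ j ih =>
    rw [it, qj, ih]
    simp only [map_sub, map_mul, map_pow, Polynomial.aeval_C, Algebra.smul_def]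

lemma natDegree_qj (j : ℕ) : (qj j).natDegree ≤ 3 ^ j := by
  induction j with
  | zero => simp [qj]
  | succ j ih =>
    rw [qj]
    refine (Polynomial.natDegree_sub_le _ _).trans (max_le ?_ ?_)
    · refine (Polynomial.natDegree_C_mul_le _ _).trans (ih.trans ?_)
      exact Nat.pow_le_pow_right (by norm_num) (Nat.le_succ j)
    · refine (Polynomial.natDegree_C_mul_le _ _).trans ((Polynomial.natDegree_pow_le).trans ?_)
      rw [pow_succ, mul_comm]
      exact Nat.mul_le_mul_right 3 ih

end Pool.Agent.Lib.MP8a3537.TW.MOMM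

namespace Pool.Agent.Lib.MP8a3537.TW

open Pool.Agent.Lib.MP8a3537.SG

theorem specMOM : SpecMOM := by
  intro A _ _ a t L j
  rw [MOMM.it_eq_aeval, momJ,
    Polynomial.aeval_eq_sum_range' (Nat.lt_succ_of_le (MOMM.natDegree_qj j)) (t • a), map_sum]
  refine Finset.sum_congr rfl fun l _ => ?_
  rw [smul_pow, smul_smul, map_smul, smul_eq_mul]

end Pool.Agent.Lib.MP8a3537.TW
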