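import Pool.Agent.Lib.MP_8a3537_gt.TW.Spec
import Pool.Agent.Lib.MP_8a3537_gt.SG.All

/-!
# MP_8a3537_gt, rows TW, module COR: the twisted trace of the sign is a rational polynomial
-/

set_option linter.unusedVariables false

namespace Pool.Agent.Lib.MP8a3537.TW

open Pool.Agent.Lib.MP8a3537.SG
open Filter Topology
open scoped BigOperators Pointwise ComplexOrder Matrix

namespace CORM

section

variable {Γ G : Type} [Group Γ] [Group G] {π : Γ →* G} {z : Γ}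

lemma z_inj (h : CExt Γ G π z) {k l : ℤ} (hkl : z ^ k = z ^ l) : k = l :=
  STPM.c_inj h hkl

lemma chiH_pow (h : CExt Γ G π z) (θ : ℝ) (k : ℤ) :
    chiH (⊥ : Subgroup Γ) z θ (z ^ k) = ex (θ * k) := by
  unfold chiH
  have hex : ∃ l : ℤ, z ^ k * (z ^ l)⁻¹ ∈ (⊥ : Subgroup Γ) := ⟨k, by simp⟩
  rw [dif_pos hex]
  have h1 := hex.choose_spec
  rw [Subgroup.mem_bot, mul_inv_eq_one] at h1
  rw [← z_inj h h1]

lemma chiH_not (θ : ℝ) (g : Γ) (hg : ¬ ∃ k : ℤ, g = z ^ k) :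
    chiH (⊥ : Subgroup Γ) z θ g = 0 := by
  unfold chiH
  rw [dif_neg]
  rintro ⟨k, hk⟩
  rw [Subgroup.mem_bot, mul_inv_eq_one] at hk
  exact hg ⟨k, hk⟩

lemma tauZ_eq (h : CExt Γ G π z) {ι : Type} [Fintype ι] (θ : ℝ) (K : ℕ) (x : Matrix ι ι (CG Γ))
    (hx : ∀ i (k : ℤ), (x i i).coeff (z ^ k) ≠ 0 → |k| ≤ K) :
    tauZ z θ x = ∑ k ∈ Finset.Icc (-(K : ℤ)) K, (∑ i, (x i i).coeff (z ^ k)) * ex (θ * k) := by
  classical
  have hinj : Set.InjOn (fun k : ℤ => z ^ k) (Finset.Icc (-(K : ℤ)) K : Finset ℤ) :=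
    fun a _ b _ hab => z_inj h hab
  have key : ∀ i, ∑ g ∈ (x i i).coeff.support, chiH ⊥ z θ g * (x i i).coeff g =
      ∑ k ∈ Finset.Icc (-(K : ℤ)) K, (x i i).coeff (z ^ k) * ex (θ * k) := by
    intro i
    have e1 : ∑ k ∈ Finset.Icc (-(K : ℤ)) K, (x i i).coeff (z ^ k) * ex (θ * k) =
        ∑ g ∈ (Finset.Icc (-(K : ℤ)) K).image (fun k : ℤ => z ^ k),
          chiH ⊥ z θ g * (x i i).coeff g := by
      rw [Finset.sum_image hinj]
      exact Finset.sum_congr rfl fun k _ => by rw [chiH_pow h, mul_comm]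
    rw [e1]
    have e2 : ∑ g ∈ (x i i).coeff.support, chiH ⊥ z θ g * (x i i).coeff g =
        ∑ g ∈ (x i i).coeff.support ∪ (Finset.Icc (-(K : ℤ)) K).image (fun k : ℤ => z ^ k),
          chiH ⊥ z θ g * (x i i).coeff g := by
      refine Finset.sum_subset Finset.subset_union_left fun g _ hg => ?_
      rw [Finsupp.notMem_support_iff.1 hg, mul_zero]
    rw [e2]
    symm
    refine Finset.sum_subset Finset.subset_union_right fun g _ hg => ?_
    by_cases hgc : ∃ k : ℤ, g = z ^ k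
    · obtain ⟨k, rfl⟩ := hgc
      by_cases hk : (x i i).coeff (z ^ k) = 0
      · rw [hk, mul_zero]
      · exfalso
        apply hg
        rw [Finset.mem_image]
        refine ⟨k, ?_, rfl⟩
        rw [Finset.mem_Icc]
        exact abs_le.1 (hx i k hk)
    · rw [chiH_not θ g hgc, zero_mul]
  unfold tauZ
  rw [Finset.sum_congr rfl fun i _ => key i, Finset.sum_comm]
  refine Finset.sum_congr rfl fun k _ => ?_
  rw [← Finset.sum_mul]

end

lemma del_tendsto (e : ℝ) (he : 0 < e) (he1 : e ≤ 1) : Tendsto (del e) atTop (𝓝 0) := by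
  obtain ⟨-, h2, j0, h3⟩ := specSCA e he he1
  have h4 : Tendsto (fun i => del e (i + j0)) atTop (𝓝 0) := by
    refine squeeze_zero (fun i => (h2 _).1) (fun i => ?_)
      (tendsto_pow_atTop_nhds_zero_of_lt_one (by norm_num : (0 : ℝ) ≤ 1 / 2) (by norm_num))
    have h5 := h3 i
    rw [add_comm]
    refine h5.trans ?_
    exact pow_le_pow_of_le_one (by norm_num) (by norm_num) Nat.lt_two_pow_self.le
  exact (tendsto_add_atTop_iff_nat j0).1 h4

lemma tendsto_of_le {u : ℕ → ℂ} {l : ℂ} {n e : ℝ} (he : 0 < e) (he1 : e ≤ 1)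
    (h : ∀ j, ‖u j - l‖ ≤ n * del e j) : Tendsto u atTop (𝓝 l) := by
  rw [tendsto_iff_norm_sub_tendsto_zero]
  refine squeeze_zero (fun _ => norm_nonneg _) h ?_
  have := (del_tendsto e he he1).const_mul n
  rwa [mul_zero] at this

lemma poly_eq {δ : ℝ} (hδ : 0 < δ) (P Q : Polynomial ℚ)
    (h : ∀ M : ℕ, 0 < M → ∀ p : ℤ, |(p : ℝ)| < δ * M →
      Polynomial.aeval ((p : ℝ) / M) P = Polynomial.aeval ((p : ℝ) / M) Q) : P = Q := by
  apply Polynomial.map_injective (algebraMap ℚ ℝ) (algebraMap ℚ ℝ).injective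
  apply Polynomial.eq_of_infinite_eval_eq
  obtain ⟨M0, hM0⟩ := exists_nat_gt (1 / δ)
  have hinf : Set.Infinite (Set.range fun M : ℕ => (1 : ℝ) / ((M + M0 + 1 : ℕ) : ℝ)) := by
    apply Set.infinite_range_of_injective
    intro a b hab
    have h1 : ((a + M0 + 1 : ℕ) : ℝ) = ((b + M0 + 1 : ℕ) : ℝ) := by
      simpa using hab
    have h2 : a + M0 + 1 = b + M0 + 1 := by exact_mod_cast h1
    omega
  refine hinf.mono ?_
  rintro _ ⟨M, rfl⟩
  have h1 := h (M + M0 + 1) (by omega) 1 (by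
    have h2 : (M0 : ℝ) ≤ ((M + M0 + 1 : ℕ) : ℝ) := by push_cast; linarith [(Nat.cast_nonneg M : (0 : ℝ) ≤ M)]
    rw [div_lt_iff₀ hδ] at hM0
    push_cast at h2 ⊢
    rw [abs_one]
    nlinarith)
  rw [Set.mem_ofPred_eq, Polynomial.eval_map_algebraMap, Polynomial.eval_map_algebraMap]
  simpa using h1

lemma sgn_trivial {Γ : Type} [Group Γ] {ι : Type} [Fintype ι] [DecidableEq ι]
    (a : Matrix ι ι (CG Γ)) : sgn (twist (1 : Γ →* Matrix.unitaryGroup Unit ℂ) a) = sgn (augM a) := by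
  have h := (specREI (ι × Unit) ι (Equiv.prodPUnit ι) (twist (1 : Γ →* Matrix.unitaryGroup Unit ℂ) a)).1
  rw [← h]
  congr 1
  ext i j
  rw [Matrix.reindex_apply, Matrix.submatrix_apply]
  exact AUGM.twist_one a i j

end CORM

open CORM in
/-- **COR**. -/
theorem specCOR (hCLQ : SpecCLQ) (hNQU : SpecNQU) (hCOE : SpecCOE) (hLGB : SpecLGB)
    (hEST : SpecEST) : SpecCOR := by
  classical
  intro Γ G _ _ π z hE hFG hΓ hG ι _ _ y y' x' hy hyy
  have hFGG : Group.FG G := Group.fg_of_surjective hE.surj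
  have hPG : P G := (all_PGR specDIF (specCEF specPWM)) G hFGG hG
  have hz1 : z ≠ 1 := by
    have := hE.inf 1 one_ne_zero
    rwa [zpow_one] at this
  obtain ⟨δ, b1, hδ, hb1, hgap⟩ := hLGB Γ z ι y y' x' hy hyy
  obtain ⟨b2, hb2, hcoe⟩ := hCOE Γ ι y hy
  obtain ⟨hD, C₂, R, I, hC₂, hI⟩ := hNQU Γ z hFG hΓ hE.central hz1
  -- the finite set
  let S : Finset Γ := insert 1 (Finset.univ.biUnion fun i : ι => Finset.univ.biUnion fun j : ι =>
    (y i j).coeff.support)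
  have hS1 : (1 : Γ) ∈ S := Finset.mem_insert_self _ _
  have hSs : ∀ (b : ℂ) (i j : ι), ((b • y) i j).coeff.support ⊆ S := by
    intro b i j g hg
    refine Finset.mem_insert_of_mem ?_
    rw [Finset.mem_biUnion]
    refine ⟨i, Finset.mem_univ _, ?_⟩
    rw [Finset.mem_biUnion]
    refine ⟨j, Finset.mem_univ _, ?_⟩
    rw [Finsupp.mem_support_iff] at hg ⊢
    intro h0
    apply hg
    change b • (y i j).coeff g = 0
    rw [h0, smul_zero]
  obtain ⟨C₁, r, hC₁, hdist⟩ := hD S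
  let C := max C₁ C₂
  have hC : 0 ≤ C := hC₁.trans (le_max_left _ _)
  let K : ℕ → ℕ := fun j => ⌊C * ((3 : ℝ) ^ j) ^ r⌋₊
  have hK : ∀ j, (K j : ℝ) ≤ C * ((3 : ℝ) ^ j) ^ r := fun j => Nat.floor_le (by positivity)
  have hsupp : ∀ (b : ℂ) j i (k : ℤ), ((it (b • y) j) i i).coeff (z ^ k) ≠ 0 → |k| ≤ K j := by
    intro b j i k hne
    have h1 : z ^ k ∈ S ^ (3 ^ j) := specSUP Γ ι (b • y) S hS1 (hSs b) j i i (Finsupp.mem_support_iff.2 hne)
    have h2 := hdist (3 ^ j) k (Nat.one_le_pow _ _ (by norm_num)) h1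
    push_cast at h2
    have h3 : |(k : ℝ)| ≤ C * ((3 : ℝ) ^ j) ^ r := h2.trans (by
      apply mul_le_mul_of_nonneg_right (le_max_left _ _); positivity)
    have h4 : k.natAbs ≤ K j := by
      apply Nat.le_floor
      rw [Nat.cast_natAbs, Int.cast_abs]
      exact h3
    rw [Int.abs_eq_natAbs]
    exact_mod_cast h4
  -- the representations of the grid
  have hex : ∀ (M : ℕ) (p : ℤ), ∃ ρ : Γ →* Matrix.unitaryGroup (Fin (I M)) ℂ, 0 < M →
      ((ρ z : Matrix.unitaryGroup (Fin (I M)) ℂ) : Matrix (Fin (I M)) (Fin (I M)) ℂ) = ex (p / M) • 1 := by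
    intro M p
    by_cases hM : 0 < M
    · obtain ⟨ρ, hρ⟩ := (hI M hM).2.2 p
      exact ⟨ρ, fun _ => hρ⟩
    · exact ⟨1, fun h => absurd h hM⟩
  choose ρ hρ using hex
  let v : ℕ → ℤ → ℝ := fun M p => ((sgn (twist (ρ M p) y) : ℤ) : ℝ) / I M
  have hmain : ∀ b : ℝ, 0 < b → b ≤ min b1 b2 → ∃ e : ℝ, 0 < e ∧ e ≤ 1 ∧
      (∀ θ : ℝ, |θ| < δ → LGap z θ ((b : ℂ) • y) e) ∧
      ∃ Q : Polynomial ℚ, (∀ M : ℕ, 0 < M → ∀ p : ℤ, |(p : ℝ)| < δ * M →
        v M p = Polynomial.aeval ((p : ℝ) / M) Q) ∧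
      ∀ j (θ : ℝ), |θ| < δ → ‖tauZ z θ (it ((b : ℂ) • y) j) - ((Polynomial.aeval θ Q : ℝ) : ℂ)‖ ≤
        Fintype.card ι * del e j := by
    intro b hb hbm
    obtain ⟨e, he, he1, hg⟩ := hgap b hb (hbm.trans (min_le_left _ _))
    have hc := hcoe b hb (hbm.trans (min_le_right _ _))
    refine ⟨e, he, he1, hg, ?_⟩
    let T : ℕ → ℤ → ℂ := fun j k => ∑ i, ((it ((b : ℂ) • y) j) i i).coeff (z ^ k)
    have hT : ∀ j k, ‖T j k‖ ≤ Fintype.card ι := by
      intro j k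
      refine (norm_sum_le _ _).trans ?_
      refine (Finset.sum_le_sum fun i _ => hc j i (z ^ k)).trans ?_
      simp
    have htau : ∀ j θ, tauZ z θ (it ((b : ℂ) • y) j) =
        ∑ k ∈ Finset.Icc (-(K j : ℤ)) (K j), T j k * ex (θ * k) :=
      fun j θ => tauZ_eq hE θ (K j) _ (hsupp b j)
    have key := hCLQ e (Fintype.card ι) C δ r R T K I v he he1 (Nat.cast_nonneg _) hC hδ hK hT ?_ ?_
    · obtain ⟨Q, hQ1, hQ2⟩ := key
      refine ⟨Q, hQ1, fun j θ hθ => ?_⟩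
      rw [htau]
      exact hQ2 j θ hθ
    · intro M hM
      refine ⟨(hI M hM).1, ?_⟩
      refine ((hI M hM).2.1).trans ?_
      apply mul_le_mul_of_nonneg_right (le_max_right _ _); positivity
    · intro M hM p hp
      have hIp : (0 : ℝ) < I M := by exact_mod_cast (hI M hM).1
      have hIC : ((I M : ℕ) : ℂ) ≠ 0 := by exact_mod_cast (hI M hM).1.ne'
      have hMR : (0 : ℝ) < M := by exact_mod_cast hM
      refine ⟨⟨sgn (twist (ρ M p) y), mul_div_cancel₀ _ hIp.ne'⟩, fun j => ?_⟩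
      have hθ : |(p : ℝ) / M| < δ := by
        rw [abs_div, abs_of_pos hMR, div_lt_iff₀ hMR]
        exact hp
      have h1 := hEST Γ G π z hE hPG ι (Fin (I M)) ((b : ℂ) • y) e (p / M) (ρ M p) he he1 (hρ M p hM)
        (hg _ hθ) j
      have h2 : sgn (twist (ρ M p) ((b : ℂ) • y)) = sgn (twist (ρ M p) y) := by
        rw [MNAM.twist_smul, specSGS _ _ b hb]
      rw [h2, Fintype.card_fin, htau] at h1
      have h3 : ∑ k ∈ Finset.Icc (-(K j : ℤ)) (K j), T j k * ex ((p : ℝ) / M * k) = F (T j) (K j) M p := by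
        unfold F
        refine Finset.sum_congr rfl fun k _ => ?_
        rw [div_mul_eq_mul_div]
      rw [h3] at h1
      have h4 : ((I M : ℕ) : ℂ) * F (T j) (K j) M p - ((sgn (twist (ρ M p) y) : ℤ) : ℂ) =
          ((I M : ℕ) : ℂ) * (F (T j) (K j) M p - (v M p : ℂ)) := by
        show _ = ((I M : ℕ) : ℂ) * (F (T j) (K j) M p - ((((sgn (twist (ρ M p) y) : ℤ) : ℝ) / I M : ℝ) : ℂ))
        push_cast
        rw [mul_sub, mul_div_cancel₀ _ hIC]
      rw [h4, norm_mul, Complex.norm_natCast] at h1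
      have h5 : (I M : ℝ) * ‖F (T j) (K j) M p - (v M p : ℂ)‖ ≤
          I M * (Fintype.card ι * del e j) := h1.trans (le_of_eq (by ring))
      exact le_of_mul_le_mul_left h5 hIp
  have hbm : 0 < min b1 b2 := lt_min hb1 hb2
  obtain ⟨e0, he0, he01, hg0, Q, hQ1, hQ2⟩ := hmain _ hbm le_rfl
  refine ⟨δ, min b1 b2, Q, hδ, hbm, ?_, ?_⟩
  · intro b hb hb' θ hθ
    obtain ⟨e, he, he1, -, Q', hQ'1, hQ'2⟩ := hmain b hb hb'
    have hQQ : Q' = Q := poly_eq hδ Q' Q fun M hM p hp => by rw [← hQ'1 M hM p hp, ← hQ1 M hM p hp]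
    rw [← hQQ]
    exact tendsto_of_le he he1 fun j => hQ'2 j θ hθ
  · have h0 : |(0 : ℝ)| < δ := by rw [abs_zero]; exact hδ
    have hex0 : (((1 : Γ →* Matrix.unitaryGroup Unit ℂ) z : Matrix.unitaryGroup Unit ℂ) :
        Matrix Unit Unit ℂ) = ex 0 • 1 := by
      rw [STPM.ex_zero, one_smul]
      rfl
    have h1 : Tendsto (fun j => (Fintype.card Unit : ℂ) * tauZ z 0 (it (((min b1 b2 : ℝ) : ℂ) • y) j)) atTop
        (𝓝 ((sgn (twist (1 : Γ →* Matrix.unitaryGroup Unit ℂ) (((min b1 b2 : ℝ) : ℂ) • y)) : ℤ) : ℂ)) :=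
      tendsto_of_le he0 he01 fun j =>
        hEST Γ G π z hE hPG ι Unit _ e0 0 1 he0 he01 hex0 (hg0 0 h0) j
    have h2 := tendsto_of_le he0 he01 fun j => hQ2 j 0 h0
    have h3 := tendsto_nhds_unique h1 (by simpa using h2)
    rw [sgn_trivial, MNAM.augM_smul, specSGS _ _ _ hbm] at h3
    have h4 : ((sgn (augM y) : ℤ) : ℝ) = Polynomial.aeval (0 : ℝ) Q := by exact_mod_cast h3
    have h5 : Polynomial.aeval (0 : ℝ) Q = ((Q.eval 0 : ℚ) : ℝ) := by
      have : (0 : ℝ) = algebraMap ℚ ℝ 0 := by simp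
      rw [this, Polynomial.aeval_algebraMap_apply]
      simp
    rw [h5] at h4
    exact_mod_cast h4.symm

end Pool.Agent.Lib.MP8a3537.TW
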