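import Pool.Agent.Lib.MP_8a3537_gt.TW.Spec
import Pool.Agent.Lib.MP_8a3537_gt.SG.GPH
import Pool.Agent.Lib.MP_8a3537_gt.SG.TEN
import Pool.Agent.Lib.MP_8a3537_gt.SG.PUS

/-! # EST: the estimate for the twisted trace -/

set_option linter.unusedVariables false

namespace Pool.Agent.Lib.MP8a3537.TW.ESTM

open Pool.Agent.Lib.MP8a3537.SG
open scoped BigOperators Pointwise ComplexOrder Matrix Kronecker

lemma ex_add (x y : ℝ) : ex (x + y) = ex x * ex y := by
  unfold ex
  rw [← Complex.exp_add]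
  congr 1
  push_cast
  ring

lemma ex_zero : ex 0 = 1 := by
  unfold ex
  simp

lemma ex_conj (x : ℝ) : (starRingEnd ℂ) (ex x) = ex (-x) := by
  unfold ex
  rw [← Complex.exp_conj]
  congr 1
  rw [map_mul, map_mul, map_mul, Complex.conj_I, Complex.conj_ofReal, Complex.conj_ofReal,
    map_ofNat (starRingEnd ℂ) 2]
  push_cast
  ring

variable {Γ : Type} [Group Γ] {κ : Type} [Fintype κ] [DecidableEq κ]

lemma scal_nat (σ : Γ →* Matrix.unitaryGroup κ ℂ) (z : Γ) (θ : ℝ)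
    (hz : ((σ z : Matrix.unitaryGroup κ ℂ) : Matrix κ κ ℂ) = ex θ • (1 : Matrix κ κ ℂ)) (n : ℕ) :
    ((σ (z ^ n) : Matrix.unitaryGroup κ ℂ) : Matrix κ κ ℂ) = ex (θ * n) • (1 : Matrix κ κ ℂ) := by
  induction n with
  | zero =>
    rw [pow_zero, map_one, Matrix.UnitaryGroup.one_val, Nat.cast_zero, mul_zero, ex_zero, one_smul]
  | succ n ih =>
    rw [pow_succ, map_mul, Matrix.UnitaryGroup.mul_val, ih, hz, smul_mul_smul_comm, one_mul, ← ex_add]
    congr 2
    push_cast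
    ring

lemma scal_int (σ : Γ →* Matrix.unitaryGroup κ ℂ) (z : Γ) (θ : ℝ)
    (hz : ((σ z : Matrix.unitaryGroup κ ℂ) : Matrix κ κ ℂ) = ex θ • (1 : Matrix κ κ ℂ)) (k : ℤ) :
    ((σ (z ^ k) : Matrix.unitaryGroup κ ℂ) : Matrix κ κ ℂ) = ex (θ * k) • (1 : Matrix κ κ ℂ) := by
  obtain ⟨n, rfl | rfl⟩ := k.eq_nat_or_neg
  · rw [zpow_natCast, scal_nat σ z θ hz n, Int.cast_natCast]
  · rw [zpow_neg, zpow_natCast, map_inv, Matrix.UnitaryGroup.inv_val, scal_nat σ z θ hz n, Int.cast_neg,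
      Int.cast_natCast, mul_neg, ← ex_conj, Matrix.star_eq_conjTranspose, Matrix.conjTranspose_smul,
      Matrix.conjTranspose_one]
    rfl

lemma sum_coeff {B : Type} [AddCommMonoid B] (Ψ : CG Γ →+ B) (x : CG Γ) :
    Ψ x = ∑ g ∈ x.coeff.support, Ψ (MonoidAlgebra.single g (x.coeff g)) := by
  classical
  rw [← map_sum]
  congr 1
  ext g
  simp only [MonoidAlgebra.coeff_sum, Finsupp.coe_finsetSum, Finset.sum_apply, MonoidAlgebra.coeff_single,
    Finsupp.single_apply, Finset.sum_ite_eq', Finsupp.mem_support_iff]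
  split_ifs with h
  · rfl
  · exact not_not.1 h

/-- the trace of an entry -/
lemma tr_single {G : Type} [Group G] (π : Γ →* G) (z : Γ) (hC : CExt Γ G π z) (σ : Γ →* Matrix.unitaryGroup κ ℂ)
    (θ : ℝ) (hz : ((σ z : Matrix.unitaryGroup κ ℂ) : Matrix κ κ ℂ) = ex θ • (1 : Matrix κ κ ℂ)) (g : Γ) (c : ℂ) :
    ∑ a, (mapA π (TENM.Th σ (MonoidAlgebra.single g c) a a)).coeff 1 =
      (Fintype.card κ : ℂ) * (chiH ⊥ z θ g * c) := by
  classical
  have h0 : ∀ a : κ, (mapA π (TENM.Th σ (MonoidAlgebra.single g c) a a)).coeff 1 =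
      if π g = 1 then c * ((σ g : Matrix.unitaryGroup κ ℂ) : Matrix κ κ ℂ) a a else 0 := by
    intro a
    rw [TENM.Th_single]
    unfold mapA
    rw [MonoidAlgebra.lift_single]
    by_cases h : π g = 1
    · simp [MonoidAlgebra.coeff_single, Finsupp.single_apply, h]
    · simp [MonoidAlgebra.coeff_single, Finsupp.single_apply, h]
  by_cases hg : π g = 1
  · obtain ⟨k, hk⟩ := (hC.ker g).1 hg
    have h1 : ∃ k : ℤ, g * (z ^ k)⁻¹ ∈ (⊥ : Subgroup Γ) := ⟨k, by
      rw [hk, mul_inv_cancel]; exact Subgroup.one_mem _⟩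
    have h2 : chiH ⊥ z θ g = ex (θ * k) := by
      unfold chiH
      rw [dif_pos h1]
      have h3 : g * (z ^ h1.choose)⁻¹ ∈ (⊥ : Subgroup Γ) := h1.choose_spec
      generalize h1.choose = k' at h3 ⊢
      rw [Subgroup.mem_bot, mul_inv_eq_one, hk] at h3
      have h4 : k' = k := by
        by_contra hne
        have h5 : z ^ (k' - k) = 1 := by
          rw [zpow_sub, ← h3, mul_inv_cancel]
        exact hC.inf _ (sub_ne_zero.2 hne) h5
      rw [h4]
    rw [h2, Finset.sum_congr rfl fun a _ => (h0 a).trans (if_pos hg), hk]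
    have h6 : ∀ a : κ, c * ((σ (z ^ k) : Matrix.unitaryGroup κ ℂ) : Matrix κ κ ℂ) a a = ex (θ * k) * c := by
      intro a
      rw [scal_int σ z θ hz k, Matrix.smul_apply, Matrix.one_apply_eq, smul_eq_mul, mul_one, mul_comm]
    rw [Finset.sum_congr rfl fun a _ => h6 a, Finset.sum_const, Finset.card_univ, nsmul_eq_mul]
  · have h1 : ¬ ∃ k : ℤ, g * (z ^ k)⁻¹ ∈ (⊥ : Subgroup Γ) := by
      rintro ⟨k, hk⟩
      rw [Subgroup.mem_bot, mul_inv_eq_one] at hk
      exact hg ((hC.ker g).2 ⟨k, hk⟩)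
    have h2 : chiH ⊥ z θ g = 0 := by
      unfold chiH
      rw [dif_neg h1]
    rw [h2, Finset.sum_congr rfl fun a _ => (h0 a).trans (if_neg hg)]
    simp

lemma tau_push {G : Type} [Group G] (π : Γ →* G) (z : Γ) (hC : CExt Γ G π z) (σ : Γ →* Matrix.unitaryGroup κ ℂ)
    (θ : ℝ) (hz : ((σ z : Matrix.unitaryGroup κ ℂ) : Matrix κ κ ℂ) = ex θ • (1 : Matrix κ κ ℂ))
    {ι : Type} [Fintype ι] (x : Matrix ι ι (CG Γ)) :
    tau (mapM π (push (TENM.Th σ) x)) = (Fintype.card κ : ℂ) * tauZ z θ x := by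
  unfold tau tauZ
  rw [Fintype.sum_prod_type, Finset.mul_sum]
  refine Finset.sum_congr rfl fun i _ => ?_
  let L : CG Γ →+ ℂ :=
    { toFun := fun w => ∑ a, (mapA π (TENM.Th σ w a a)).coeff 1
      map_zero' := by
        simp
      map_add' := fun u v => by
        simp only [map_add, Matrix.add_apply, MonoidAlgebra.coeff_add, Finsupp.add_apply]
        rw [Finset.sum_add_distrib] }
  have h1 := sum_coeff L (x i i)
  refine h1.trans ?_
  rw [Finset.mul_sum]
  exact Finset.sum_congr rfl fun g _ => tr_single π z hC σ θ hz g _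

end Pool.Agent.Lib.MP8a3537.TW.ESTM

namespace Pool.Agent.Lib.MP8a3537.TW

open Pool.Agent.Lib.MP8a3537.SG
open scoped Kronecker
open ESTM

theorem specEST : SpecEST := by
  intro Γ G _ _ π z hC hP ι κ _ _ _ _ y e θ σ he he1 hz hL j
  have hgap : Gap (mapM π (push (TENM.Th σ) y)) e := by
    intro l _ _ ρ
    have h1 : twist ρ (mapM π (push (TENM.Th σ) y)) = twist (ρ.comp π) (push (TENM.Th σ) y) := by
      ext p q
      change repA ρ (mapA π ((push (TENM.Th σ) y) p.1 q.1)) p.2 q.2 =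
        repA (ρ.comp π) ((push (TENM.Th σ) y) p.1 q.1) p.2 q.2
      rw [GPHM.twist_comp]
    rw [h1]
    have hkr : ((TENM.kr σ (ρ.comp π) z : Matrix.unitaryGroup (κ × l) ℂ) : Matrix (κ × l) (κ × l) ℂ) =
        ex θ • (1 : Matrix (κ × l) (κ × l) ℂ) := by
      have h2 : π z = 1 := (hC.ker z).2 ⟨1, (zpow_one z).symm⟩
      change ((σ z : Matrix.unitaryGroup κ ℂ) : Matrix κ κ ℂ) ⊗ₖ
        ((ρ (π z) : Matrix.unitaryGroup l ℂ) : Matrix l l ℂ) = _
      rw [h2, map_one, hz, Matrix.UnitaryGroup.one_val, Matrix.smul_kronecker, Matrix.one_kronecker_one]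
    refine GPHM.transport (Equiv.prodAssoc ι κ l) _ _ e ?_ (hL (κ × l) (TENM.kr σ (ρ.comp π)) hkr)
    rintro ⟨⟨i, k⟩, m⟩ ⟨⟨j, k'⟩, m'⟩
    change repA (ρ.comp π) (TENM.Th σ (y i j) k k') m m' = repA (TENM.kr σ (ρ.comp π)) (y i j) (k, m) (k', m')
    have h3 : ∀ x : CG Γ, repA (TENM.kr σ (ρ.comp π)) x = twist (ρ.comp π) (TENM.Th σ x) := by
      intro x
      induction x using MonoidAlgebra.induction_linear with
      | zero =>
        ext p q
        simp [twist, push]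
      | add x y hx hy =>
        rw [map_add, hx, hy]
        ext p q
        simp [twist, push]
      | single h b =>
        rw [TENM.repA_single]
        ext p q
        rw [twist, push, Matrix.of_apply, TENM.Th_single, TENM.repA_single]
        simp [TENM.kr, mul_assoc]
    rw [h3]
    rfl
  have h1 := hP (ι × κ) (mapM π (push (TENM.Th σ) y)) e he he1 hgap j
  have h2 : it (mapM π (push (TENM.Th σ) y)) j = mapM π (push (TENM.Th σ) (it y j)) := by
    rw [specPUS.1 Γ ι κ (CG Γ) (TENM.Th σ) y j, specPUS.2.1 Γ G (ι × κ) π _ j]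
  have h3 : augM (mapM π (push (TENM.Th σ) y)) = twist σ y := by
    rw [specGPH.2.2 Γ G (ι × κ) π (push (TENM.Th σ) y)]
    ext p q
    rw [augM, Matrix.of_apply, push, Matrix.of_apply, TENM.aug_Th]
    rfl
  rw [h2, h3, tau_push π z hC σ θ hz, Fintype.card_prod, Nat.cast_mul] at h1
  exact h1

end Pool.Agent.Lib.MP8a3537.TW
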