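import Pool.Agent.Lib.MP_8a3537_gt.TW.Spec

/-!
# HRX: hermitian matrices and traces under the map `Ξ`
-/

set_option linter.unusedVariables false

namespace Pool.Agent.Lib.MP8a3537.TW

open Pool.Agent.Lib.MP8a3537.SG
open scoped BigOperators Pointwise ComplexOrder Matrix

namespace HRXM

variable {R E G ι κ : Type} [Ring R] [Group E] [Group G]

lemma dec (x : MonoidAlgebra R E) :
    x = ∑ g ∈ x.coeff.support, MonoidAlgebra.single g (x.coeff g) := by
  apply MonoidAlgebra.coeff_injective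
  rw [MonoidAlgebra.coeff_sum]
  exact (Finsupp.sum_single x.coeff).symm

lemma star_key [StarRing R] (L L' : MonoidAlgebra R E →+ ℂ)
    (hL : ∀ g r, (starRingEnd ℂ) (L (MonoidAlgebra.single g r)) =
      L' (MonoidAlgebra.single g⁻¹ (star r)))
    (x y : MonoidAlgebra R E) (hxy : ∀ g, y.coeff g = star (x.coeff g⁻¹)) :
    L' y = (starRingEnd ℂ) (L x) := by
  conv_lhs => rw [dec y]
  conv_rhs => rw [dec x]
  rw [map_sum, map_sum, map_sum]
  symm
  refine Finset.sum_nbij' (fun g => g⁻¹) (fun g => g⁻¹) ?_ ?_ ?_ ?_ ?_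
  · intro g hg
    rw [Finsupp.mem_support_iff] at hg ⊢
    rw [hxy, inv_inv]
    exact fun h => hg (by rw [← star_star (x.coeff g), h, star_zero])
  · intro g hg
    rw [Finsupp.mem_support_iff] at hg ⊢
    intro h
    apply hg
    rw [hxy, h, star_zero]
  · intro g _; exact inv_inv g
  · intro g _; exact inv_inv g
  · intro g _
    rw [hL, hxy, inv_inv]

lemma conj_c {ε : ℤ} {c : ℂ} (h : Unit01 ε c) : (starRingEnd ℂ) c = c * (ε : ℂ) ∧ (ε : ℂ) * ε = 1 ∧ ε * ε = 1 := by
  rcases h with ⟨rfl, rfl⟩ | ⟨rfl, rfl⟩ <;> simp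

lemma eps_key [StarRing R] (L L' : MonoidAlgebra R E →+ ℂ)
    (hL : ∀ g r, (starRingEnd ℂ) (L (MonoidAlgebra.single g r)) =
      L' (MonoidAlgebra.single g⁻¹ (star r))) {ε : ℤ} {c : ℂ} (hc : Unit01 ε c)
    (x y : MonoidAlgebra R E) (hxy : ∀ g, y.coeff g = ε • star (x.coeff g⁻¹)) :
    c * L' y = (starRingEnd ℂ) (c * L x) := by
  obtain ⟨h1, h2, h3⟩ := conj_c hc
  have h4 : L' (ε • y) = (starRingEnd ℂ) (L x) := by
    refine star_key L L' hL x (ε • y) fun g => ?_
    have h5 : (ε • y).coeff g = ε • (y.coeff g) := rfl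
    rw [h5, hxy, smul_smul, h3, one_smul]
  rw [map_mul, ← h4, h1, map_zsmul, zsmul_eq_mul]
  linear_combination (-c * L' y) * h2

variable [Fintype κ] [DecidableEq κ]

/-- the entry of `Φ` -/
noncomputable def ent (Φ : MonoidAlgebra R E →+* Matrix κ κ ℂ) (a b : κ) : MonoidAlgebra R E →+ ℂ where
  toFun x := Φ x a b
  map_zero' := by rw [map_zero]; rfl
  map_add' x y := by rw [map_add]; rfl

/-- a coefficient of an entry of `Ξ` -/
noncomputable def entX (Ξ : MonoidAlgebra R E →+* Matrix κ κ (CG G)) (a b : κ) (s : G) :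
    MonoidAlgebra R E →+ ℂ where
  toFun x := (Ξ x a b).coeff s
  map_zero' := by rw [map_zero]; rfl
  map_add' x y := by rw [map_add]; rfl

open Classical in
lemma entX_single {Φ : MonoidAlgebra R E →+* Matrix κ κ ℂ} {π : E →* G}
    {Ξ : MonoidAlgebra R E →+* Matrix κ κ (CG G)} (hX : IsXi Φ π Ξ) (a b : κ) (s : G) (g : E) (r : R) :
    entX Ξ a b s (MonoidAlgebra.single g r) = if π g = s then Φ (MonoidAlgebra.single g r) a b else 0 := by
  change (Ξ (MonoidAlgebra.single g r) a b).coeff s = _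
  rw [hX, MonoidAlgebra.coeff_single, Finsupp.single_apply]

lemma star_ent [StarRing R] {Φ : MonoidAlgebra R E →+* Matrix κ κ ℂ} (hS : StarHom Φ) (a b : κ) (g : E) (r : R) :
    (starRingEnd ℂ) (Φ (MonoidAlgebra.single g r) a b) = Φ (MonoidAlgebra.single g⁻¹ (star r)) b a := by
  rw [← hS g r]
  rfl

lemma aug_ent {Φ : MonoidAlgebra R E →+* Matrix κ κ ℂ} {π : E →* G}
    {Ξ : MonoidAlgebra R E →+* Matrix κ κ (CG G)} (hX : IsXi Φ π Ξ) (a b : κ) (x : MonoidAlgebra R E) :
    aug (Ξ x a b) = Φ x a b := by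
  conv_lhs => rw [dec x]
  conv_rhs => rw [dec x]
  rw [map_sum, map_sum, Matrix.sum_apply, Matrix.sum_apply, map_sum]
  refine Finset.sum_congr rfl fun g _ => ?_
  rw [hX]
  unfold aug
  rw [MonoidAlgebra.lift_single]
  simp

lemma tau_ent {Φ : MonoidAlgebra R E →+* Matrix κ κ ℂ} {π : E →* G}
    {Ξ : MonoidAlgebra R E →+* Matrix κ κ (CG G)} (hX : IsXi Φ π Ξ) (x : MonoidAlgebra R E) :
    ∑ a, (Ξ x a a).coeff 1 =
      ∑ g ∈ x.coeff.support, ind π.ker g * (Φ (MonoidAlgebra.single g (x.coeff g))).trace := by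
  classical
  have h1 : ∀ a, (Ξ x a a).coeff 1 = ∑ g ∈ x.coeff.support,
      if π g = 1 then Φ (MonoidAlgebra.single g (x.coeff g)) a a else 0 := by
    intro a
    change entX Ξ a a 1 x = _
    conv_lhs => rw [dec x]
    rw [map_sum]
    exact Finset.sum_congr rfl fun g _ => entX_single hX a a 1 g _
  rw [Finset.sum_congr rfl fun a _ => h1 a, Finset.sum_comm]
  refine Finset.sum_congr rfl fun g _ => ?_
  unfold ind
  simp only [MonoidHom.mem_ker]
  by_cases hg : π g = 1
  · simp [hg, Matrix.trace]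
  · simp [hg]

end HRXM

theorem specHRX : SpecHRX := by
  intro R E G ι κ _ _ _ _ _ _ _ _ Φ π Ξ hX hS
  classical
  refine ⟨?_, ?_⟩
  · intro ε c h hc hh
    refine ⟨?_, ?_⟩
    · intro p q s
      obtain ⟨i, a⟩ := p
      obtain ⟨j, b⟩ := q
      refine HRXM.eps_key (HRXM.entX Ξ a b s⁻¹) (HRXM.entX Ξ b a s) ?_ hc (h i j) (h j i)
        (fun g => hh i j g)
      intro g r
      rw [HRXM.entX_single hX, HRXM.entX_single hX, map_inv]
      by_cases hg : π g = s⁻¹
      · rw [if_pos hg, if_pos (by rw [hg, inv_inv]), HRXM.star_ent hS]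
      · rw [if_neg hg, if_neg (fun h => hg (by rw [← h, inv_inv])), map_zero]
    · ext p q
      obtain ⟨i, a⟩ := p
      obtain ⟨j, b⟩ := q
      refine (HRXM.eps_key (HRXM.ent Φ b a) (HRXM.ent Φ a b) ?_ hc (h j i) (h i j)
        (fun g => hh j i g)).symm
      intro g r
      exact HRXM.star_ent hS b a g r
  · intro x
    refine ⟨?_, ?_⟩
    · ext p q
      exact HRXM.aug_ent hX p.2 q.2 (x p.1 q.1)
    · unfold tau trW
      rw [Fintype.sum_prod_type]
      exact Finset.sum_congr rfl fun i _ => HRXM.tau_ent hX (x i i)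

end Pool.Agent.Lib.MP8a3537.TW
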