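import Pool.Agent.Lib.MP_8a3537_gt.TW.Spec

/-!
# Module PSM of the rows TW (MP_8a3537_gt): `psh Ξ` is a ring homomorphism
-/

set_option linter.unusedVariables false

namespace Pool.Agent.Lib.MP8a3537.TW

open Pool.Agent.Lib.MP8a3537.SG
open Filter Topology
open scoped BigOperators Pointwise ComplexOrder Matrix

namespace PSMM

lemma xi_scalar {R E G κ : Type} [Ring R] [Group E] [Group G] [Fintype κ] [DecidableEq κ]
    (Φ : MonoidAlgebra R E →+* Matrix κ κ ℂ) (π : E →* G) (Ξ : MonoidAlgebra R E →+* Matrix κ κ (CG G)) (hΞ : IsXi Φ π Ξ)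
    (z : E) (t : ℂ) (hz : Φ (MonoidAlgebra.single z 1) = t • (1 : Matrix κ κ ℂ)) :
    Ξ (MonoidAlgebra.single z 1 - 1) = Matrix.scalar κ (MonoidAlgebra.single (π z) t - 1) := by
  rw [map_sub, map_one, map_sub, map_one]
  congr 1
  ext1 i j
  rw [hΞ, hz, Matrix.scalar_apply]
  by_cases hij : i = j
  · subst hij
    simp
  · simp [hij]

end PSMM

open PSMM in
theorem specPSM : SpecPSM := by
  intro R E G ι κ _ _ _ _ _ _ _ Φ π Ξ hΞ
  refine ⟨⟨(Matrix.compRingEquiv ι κ (CG G)).toRingHom.comp Ξ.mapMatrix, fun x => ?_⟩,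
    ⟨(Matrix.compRingEquiv ι κ ℂ).toRingHom.comp Φ.mapMatrix, fun x => ?_⟩, ?_⟩
  · rfl
  · rfl
  · intro z t x hz
    have h1 := xi_scalar Φ π Ξ hΞ z t hz
    ext1 p q
    have h2 : psh Ξ (Matrix.scalar ι (MonoidAlgebra.single z 1 - 1) * x) p q =
        (Ξ ((MonoidAlgebra.single z 1 - 1) * x p.1 q.1)) p.2 q.2 := by
      have h3 : (Matrix.scalar ι (MonoidAlgebra.single z 1 - 1 : MonoidAlgebra R E) * x : Matrix ι ι (MonoidAlgebra R E)) p.1 q.1 =
          (MonoidAlgebra.single z 1 - 1) * x p.1 q.1 := by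
        rw [Matrix.scalar_apply, Matrix.diagonal_mul]
      rw [← h3]
      rfl
    rw [h2, map_mul, h1, Matrix.scalar_apply, Matrix.scalar_apply, Matrix.diagonal_mul, Matrix.diagonal_mul]
    rfl

end Pool.Agent.Lib.MP8a3537.TW
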