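import Pool.Agent.Lib.MP_8a3537_gt.TW.Spec

set_option autoImplicit false

namespace Pool.Agent.Lib.MP8a3537.TW

open Pool.Agent.Lib.MP8a3537.SG
open scoped BigOperators Pointwise ComplexOrder Matrix

namespace XIX

theorem smap_mul {G κ : Type} [Group G] [Fintype κ] (A B : Matrix κ κ ℂ) (a b : G) :
    (A.map (MonoidAlgebra.single a : ℂ → CG G)) * (B.map (MonoidAlgebra.single b : ℂ → CG G)) =
      (A * B).map (MonoidAlgebra.single (a * b) : ℂ → CG G) := by
  ext1 i j
  rw [Matrix.mul_apply, Matrix.map_apply, Matrix.mul_apply]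
  simp only [Matrix.map_apply, MonoidAlgebra.single_mul_single]
  exact (map_sum (MonoidAlgebra.singleAddHom (R := ℂ) (a * b)) _ _).symm

theorem smap_one {G κ : Type} [Group G] [DecidableEq κ] :
    (1 : Matrix κ κ ℂ).map (MonoidAlgebra.single (1 : G) : ℂ → CG G) = 1 := by
  ext1 i j
  rw [Matrix.map_apply, Matrix.one_apply, Matrix.one_apply]
  split_ifs
  · rfl
  · exact MonoidAlgebra.single_zero _

end XIX

theorem specXIX : SpecXIX := by
  intro R E G κ _ _ _ _ _ Φ π
  let f : R →+* Matrix κ κ (CG G) :=
    { toFun := fun r => (Φ (MonoidAlgebra.single 1 r)).map (MonoidAlgebra.single (1 : G) : ℂ → CG G)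
      map_one' := by
        have h : Φ (MonoidAlgebra.single (1 : E) (1 : R)) = 1 := by
          rw [← MonoidAlgebra.one_def, map_one]
        rw [h, XIX.smap_one]
      map_mul' := fun r s => by
        have h : (MonoidAlgebra.single (1 : E) (r * s)) =
            MonoidAlgebra.single (1 : E) r * MonoidAlgebra.single (1 : E) s := by
          rw [MonoidAlgebra.single_mul_single, mul_one]
        rw [h, map_mul, XIX.smap_mul, mul_one]
      map_zero' := by
        rw [MonoidAlgebra.single_zero, map_zero]
        ext1 i j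
        exact MonoidAlgebra.single_zero _
      map_add' := fun r s => by
        rw [MonoidAlgebra.single_add, map_add]
        ext1 i j
        exact MonoidAlgebra.single_add _ _ _ }
  let g : E →* Matrix κ κ (CG G) :=
    { toFun := fun a => (Φ (MonoidAlgebra.single a 1)).map (MonoidAlgebra.single (π a) : ℂ → CG G)
      map_one' := by
        have h : Φ (MonoidAlgebra.single (1 : E) (1 : R)) = 1 := by
          rw [← MonoidAlgebra.one_def, map_one]
        rw [h, map_one, XIX.smap_one]
      map_mul' := fun a b => by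
        have h : (MonoidAlgebra.single (a * b) (1 : R)) =
            MonoidAlgebra.single a (1 : R) * MonoidAlgebra.single b (1 : R) := by
          rw [MonoidAlgebra.single_mul_single, mul_one]
        rw [h, map_mul, map_mul, XIX.smap_mul] }
  have hcomm : ∀ (r : R) (a : E), Commute (f r) (g a) := by
    intro r a
    change (Φ (MonoidAlgebra.single 1 r)).map (MonoidAlgebra.single (1 : G) : ℂ → CG G) *
        (Φ (MonoidAlgebra.single a 1)).map (MonoidAlgebra.single (π a) : ℂ → CG G) =
      (Φ (MonoidAlgebra.single a 1)).map (MonoidAlgebra.single (π a) : ℂ → CG G) *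
        (Φ (MonoidAlgebra.single 1 r)).map (MonoidAlgebra.single (1 : G) : ℂ → CG G)
    rw [XIX.smap_mul, XIX.smap_mul, ← map_mul, ← map_mul, MonoidAlgebra.single_mul_single,
      MonoidAlgebra.single_mul_single, one_mul, mul_one, one_mul, mul_one, one_mul, mul_one]
  refine ⟨MonoidAlgebra.liftNCRingHom f g hcomm, ?_⟩
  intro a r i j
  have h1 : MonoidAlgebra.liftNCRingHom f g hcomm (MonoidAlgebra.single a r) = f r * g a :=
    MonoidAlgebra.liftNC_single _ _ _ _
  rw [h1]
  change ((Φ (MonoidAlgebra.single 1 r)).map (MonoidAlgebra.single (1 : G) : ℂ → CG G) *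
        (Φ (MonoidAlgebra.single a 1)).map (MonoidAlgebra.single (π a) : ℂ → CG G)) i j = _
  rw [XIX.smap_mul, ← map_mul, MonoidAlgebra.single_mul_single, one_mul, mul_one, one_mul,
    Matrix.map_apply]

end Pool.Agent.Lib.MP8a3537.TW
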