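import Pool.Agent.Lib.MP_8a3537_gt.TW.Spec
import Pool.Agent.Lib.MP_8a3537_gt.SG.All

/-!
# MP_8a3537_gt, rows TW, module EXI: the representations of Theorem 2 (a) exist for all rational `θ`
-/

set_option linter.unusedVariables false

namespace Pool.Agent.Lib.MP8a3537.TW

open Pool.Agent.Lib.MP8a3537.SG
open Filter Topology
open scoped BigOperators Pointwise ComplexOrder Matrix

namespace EXIM

lemma twist_add {G : Type} [Group G] {ι κ : Type} [Fintype κ] [DecidableEq κ]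
    (ρ : G →* Matrix.unitaryGroup κ ℂ) (x y : Matrix ι ι (CG G)) :
    twist ρ (x + y) = twist ρ x + twist ρ y := by
  ext p q
  change (repA ρ (x p.1 q.1 + y p.1 q.1)) p.2 q.2 = (repA ρ (x p.1 q.1)) p.2 q.2 + (repA ρ (y p.1 q.1)) p.2 q.2
  rw [map_add, Matrix.add_apply]

/-- `twist ρ` as a ring homomorphism -/
noncomputable def twH {G : Type} [Group G] {ι κ : Type} [Fintype ι] [DecidableEq ι] [Fintype κ] [DecidableEq κ]
    (ρ : G →* Matrix.unitaryGroup κ ℂ) : Matrix ι ι (CG G) →+* Matrix (ι × κ) (ι × κ) ℂ where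
  toFun := twist ρ
  map_one' := HGAM.twist_one ρ
  map_mul' := HGAM.twist_mul ρ
  map_zero' := by
    have h := twist_add ρ (0 : Matrix ι ι (CG G)) 0
    rw [add_zero] at h
    exact left_eq_add.1 h
  map_add' := twist_add ρ

end EXIM

open EXIM in
theorem exists_rep (hXIX : SpecXIX) (hNQU : SpecNQU) (R E : Type) [Ring R] [StarRing R] [Group E]
    (H : Subgroup E) [H.Normal] (z : E) (hFG : Group.FG E) (hH : RTFN (E ⧸ H)) (hz : ∀ g, g * z = z * g)
    (hzH : z ∉ H) (κ0 : Type) [Fintype κ0] [DecidableEq κ0] (Φ0 : MonoidAlgebra R E →+* Matrix κ0 κ0 ℂ)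
    (hΦ0 : StarHom Φ0) (hΦ0z : Φ0 (MonoidAlgebra.single z 1) = 1) (M : ℕ) (hM : 0 < M) (p : ℤ) :
    ∃ (κ : Type) (_ : Fintype κ) (_ : DecidableEq κ) (Φ : MonoidAlgebra R E →+* Matrix κ κ ℂ) (k : ℕ),
      0 < k ∧ StarHom Φ ∧ Φ (MonoidAlgebra.single z 1) = ex (p / M) • (1 : Matrix κ κ ℂ) ∧
      ∀ g ∈ H, ∀ r : R, (Φ (MonoidAlgebra.single g r)).trace = k * (Φ0 (MonoidAlgebra.single g r)).trace := by
  have hz1 : (z : E ⧸ H) ≠ 1 := fun h => hzH ((QuotientGroup.eq_one_iff z).1 h)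
  have hzc : ∀ g : E ⧸ H, g * (z : E ⧸ H) = (z : E ⧸ H) * g := by
    intro g
    obtain ⟨e, rfl⟩ := QuotientGroup.mk_surjective g
    rw [← QuotientGroup.mk_mul, hz, QuotientGroup.mk_mul]
  have hFΓ : Group.FG (E ⧸ H) := Group.fg_of_surjective (QuotientGroup.mk'_surjective H)
  obtain ⟨-, C, r, I, -, hI⟩ := hNQU (E ⧸ H) (z : E ⧸ H) hFΓ hH hzc hz1
  obtain ⟨hI0, -, hρ⟩ := hI M hM
  obtain ⟨ρ, hρz⟩ := hρ p
  obtain ⟨Ξ, hΞ⟩ := hXIX R E (E ⧸ H) κ0 Φ0 (QuotientGroup.mk' H)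
  have hval : ∀ (g : E) (r : R) (a b : κ0 × Fin (I M)), ((twH ρ).comp Ξ) (MonoidAlgebra.single g r) a b =
      Φ0 (MonoidAlgebra.single g r) a.1 b.1 * (ρ (g : E ⧸ H) : Matrix (Fin (I M)) (Fin (I M)) ℂ) a.2 b.2 := by
    intro g r a b
    change (repA ρ (Ξ (MonoidAlgebra.single g r) a.1 b.1)) a.2 b.2 = _
    rw [hΞ]
    unfold repA
    rw [MonoidAlgebra.lift_single, Matrix.smul_apply]
    rfl
  refine ⟨κ0 × Fin (I M), inferInstance, inferInstance, (twH ρ).comp Ξ, I M, hI0, ?_, ?_, ?_⟩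
  · intro g r
    ext a b
    rw [Matrix.star_apply, hval, hval, star_mul']
    have h1 : star (Φ0 (MonoidAlgebra.single g r) b.1 a.1) =
        Φ0 (MonoidAlgebra.single g⁻¹ (star r)) a.1 b.1 := by
      rw [← hΦ0 g r, Matrix.star_apply]
    have h2 : star ((ρ (g : E ⧸ H) : Matrix (Fin (I M)) (Fin (I M)) ℂ) b.2 a.2) =
        (ρ ((g⁻¹ : E) : E ⧸ H) : Matrix (Fin (I M)) (Fin (I M)) ℂ) a.2 b.2 := by
      rw [QuotientGroup.mk_inv, map_inv]
      rfl
    rw [h1, h2]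
  · ext a b
    rw [hval, hΦ0z, hρz, Matrix.smul_apply, Matrix.smul_apply]
    obtain ⟨a1, a2⟩ := a
    obtain ⟨b1, b2⟩ := b
    simp only [Matrix.one_apply, Prod.mk.injEq]
    by_cases h1 : a1 = b1 <;> by_cases h2 : a2 = b2 <;> simp [h1, h2]
  · intro g hg r
    have h1 : ((g : E ⧸ H)) = 1 := (QuotientGroup.eq_one_iff g).2 hg
    rw [Matrix.trace, Fintype.sum_prod_type, Matrix.trace, Finset.mul_sum]
    refine Finset.sum_congr rfl fun a _ => ?_
    have h2 : ∀ s : Fin (I M), (((twH ρ).comp Ξ) (MonoidAlgebra.single g r)).diag (a, s) =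
        (Φ0 (MonoidAlgebra.single g r)).diag a := by
      intro s
      rw [Matrix.diag_apply, hval, h1, map_one, Matrix.diag_apply]
      simp
    rw [Finset.sum_congr rfl fun s _ => h2 s]
    simp

end Pool.Agent.Lib.MP8a3537.TW
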