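import Pool.Agent.Lib.MP_8a3537_gt.TW.REA

/-!
# Module REB: Theorem 1 (b)
-/

set_option linter.unusedVariables false

namespace Pool.Agent.Lib.MP8a3537.TW

open Pool.Agent.Lib.MP8a3537.SG
open Filter Topology
open scoped BigOperators Pointwise ComplexOrder Matrix

namespace REBM

/-- an additive function of an element of the group ring -/
theorem hom_sum {R E A : Type} [Ring R] [Group E] [AddCommMonoid A] (F : MonoidAlgebra R E →+ A) (x : MonoidAlgebra R E) :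
    F x = ∑ g ∈ x.coeff.support, F (MonoidAlgebra.single g (x.coeff g)) := by
  conv_lhs => rw [← MonoidAlgebra.sum_coeff_single x]
  unfold Finsupp.sum
  rw [map_sum]

/-- the same over a larger finite set -/
theorem hom_sum_of_subset {R E A : Type} [Ring R] [Group E] [AddCommMonoid A] (F : MonoidAlgebra R E →+ A) (x : MonoidAlgebra R E)
    (s : Finset E) (hs : x.coeff.support ⊆ s) :
    F x = ∑ g ∈ s, F (MonoidAlgebra.single g (x.coeff g)) := by
  rw [hom_sum F x]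
  refine Finset.sum_subset hs fun g _ hg => ?_
  rw [Finsupp.notMem_support_iff.1 hg, MonoidAlgebra.single_zero, map_zero]

/-- the star of the image -/
theorem star_psi {R E B : Type} [Ring R] [StarRing R] [Group E] [Ring B] [StarRing B] (ψ : MonoidAlgebra R E →+* B)
    (hψ : StarHom ψ) {ι : Type} (ε : ℤ) (h : Matrix ι ι (MonoidAlgebra R E)) (hε : EpsHerm ε h) (i j : ι) :
    star (ψ (h j i)) = ε • ψ (h i j) := by
  classical
  have hs1 : (h j i).coeff.support ⊆ (h j i).coeff.support ∪ ((h i j).coeff.support.image fun g => g⁻¹) := Finset.subset_union_left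
  have h1 := hom_sum_of_subset ψ.toAddMonoidHom (h j i) _ hs1
  have hs2 : (h i j).coeff.support ⊆ ((h j i).coeff.support ∪ ((h i j).coeff.support.image fun g => g⁻¹)).image fun g => g⁻¹ := by
    intro g hg
    refine Finset.mem_image.2 ⟨g⁻¹, Finset.mem_union_right _ (Finset.mem_image.2 ⟨g, hg, rfl⟩), inv_inv g⟩
  have h2 := hom_sum_of_subset ψ.toAddMonoidHom (h i j) _ hs2
  rw [Finset.sum_image (fun a _ b _ hab => inv_injective hab)] at h2
  have h1' : ψ (h j i) = ∑ g ∈ (h j i).coeff.support ∪ ((h i j).coeff.support.image fun g => g⁻¹), ψ (MonoidAlgebra.single g ((h j i).coeff g)) := h1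
  have h2' : ψ (h i j) = ∑ g ∈ (h j i).coeff.support ∪ ((h i j).coeff.support.image fun g => g⁻¹), ψ (MonoidAlgebra.single g⁻¹ ((h i j).coeff g⁻¹)) := h2
  rw [h1', h2', star_sum, Finset.smul_sum]
  refine Finset.sum_congr rfl fun g _ => ?_
  have h3 : ∀ r : R, ψ (MonoidAlgebra.single g⁻¹ (ε • r)) = ε • ψ (MonoidAlgebra.single g⁻¹ r) := by
    intro r
    rw [← MonoidAlgebra.smul_single]
    exact map_zsmul ψ ε _
  rw [hψ g, hε i j g, star_zsmul, star_star, h3]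

theorem conj_mul {ε : ℤ} {c : ℂ} (h : Unit01 ε c) : star c * (ε : ℂ) = c := by
  rcases h with ⟨rfl, rfl⟩ | ⟨rfl, rfl⟩
  · simp
  · simp

theorem herm {R E B : Type} [Ring R] [StarRing R] [Group E] [CStarAlgebra B] (ψ : MonoidAlgebra R E →+* B)
    (hψ : StarHom ψ) {ι : Type} (ε : ℤ) (c : ℂ) (h : Matrix ι ι (MonoidAlgebra R E)) (hc : Unit01 ε c) (hε : EpsHerm ε h) :
    (c • h.map ψ)ᴴ = c • h.map ψ := by
  funext i j
  show star (c • ψ (h j i)) = c • ψ (h i j)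
  rw [star_smul, star_psi ψ hψ ε h hε i j]
  conv_rhs => rw [← conj_mul hc]
  rw [mul_smul, Int.cast_smul_eq_zsmul]

/-- the linear functional `x ↦ sum_i ω(x_ii)` -/
noncomputable def omL {B ι : Type} [CStarAlgebra B] [Fintype ι] (ω : B →L[ℂ] ℂ) : Matrix ι ι B →ₗ[ℂ] ℂ where
  toFun x := ∑ i, ω (x i i)
  map_add' x y := by
    rw [← Finset.sum_add_distrib]
    refine Finset.sum_congr rfl fun i _ => ?_
    rw [Matrix.add_apply, map_add]
  map_smul' c x := by
    rw [RingHom.id_apply, smul_eq_mul, Finset.mul_sum]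
    refine Finset.sum_congr rfl fun i _ => ?_
    rw [Matrix.smul_apply, map_smul, smul_eq_mul]

theorem om_trW {R E B ι κ : Type} [Ring R] [Group E] [CStarAlgebra B] [Fintype ι] [Fintype κ] [DecidableEq κ] (H : Subgroup E)
    (Φ : MonoidAlgebra R E →+* Matrix κ κ ℂ) (ψ : MonoidAlgebra R E →+* B) (ω : B →L[ℂ] ℂ)
    (h1 : ∀ g ∈ H, ∀ r : R, ω (ψ (MonoidAlgebra.single g r)) = (Φ (MonoidAlgebra.single g r)).trace)
    (h2 : ∀ g ∉ H, ∀ r : R, ω (ψ (MonoidAlgebra.single g r)) = 0) (x : Matrix ι ι (MonoidAlgebra R E)) :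
    ∑ i, ω (ψ (x i i)) = trW Φ (ind H) x := by
  unfold trW
  refine Finset.sum_congr rfl fun i _ => ?_
  have h3 := hom_sum ((ω : B →ₗ[ℂ] ℂ).toAddMonoidHom.comp ψ.toAddMonoidHom) (x i i)
  refine Eq.trans h3 (Finset.sum_congr rfl fun g _ => ?_)
  show ω (ψ (MonoidAlgebra.single g ((x i i).coeff g))) = _
  unfold ind
  by_cases hg : g ∈ H
  · rw [if_pos hg, one_mul, h1 g hg]
  · rw [if_neg hg, zero_mul, h2 g hg]

end REBM

theorem specREB (hXIX : SpecXIX) (hPSM : SpecPSM) (hHRX : SpecHRX) (hMOM : SpecMOM) (hLIM : SpecLIM) (hCSM : SpecCSM) : SpecREB := by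
  intro R E _ _ _ H _ hRT ι _ _ h ε c hc hε hu κ _ _ Φ B _ ψ ω hΦ hψ hω1 hω2
  obtain ⟨Ξ, hΞ⟩ := hXIX R E (E ⧸ H) κ Φ (QuotientGroup.mk' H)
  obtain ⟨hh1, hu1, ha1⟩ := REAM.y_good hPSM hHRX Φ (QuotientGroup.mk' H) Ξ hΞ hΦ h ε c hc hε hu
  obtain ⟨b1, hb1, hl1⟩ := hLIM (E ⧸ H) hRT (ι × κ) (c • psh Ξ h) hh1 hu1
  have hmap : ∀ x : Matrix ι ι (MonoidAlgebra R E), ψ.mapMatrix x = x.map ψ := fun x => rfl
  have hXu : IsUnit (c • h.map ψ) := by
    refine REAM.isUnit_smul (REAM.unit01_ne hc) ?_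
    rw [← hmap]
    exact hu.map _
  obtain ⟨hex, b2, hb2, hl2⟩ := hCSM B ι (c • h.map ψ) (REBM.herm ψ hψ ε c h hc hε) hXu
  refine ⟨hex, fun S hS => ?_⟩
  have hb : 0 < min b1 b2 := lt_min hb1 hb2
  have l1 := hl1 (min b1 b2) hb (min_le_left _ _)
  have l2 := hl2 (min b1 b2) hb (min_le_right _ _) S hS ω
  have key : (fun j => ∑ i, ω ((it (((min b1 b2 : ℝ) : ℂ) • (c • h.map ψ)) j) i i)) =
      fun j => tau (it (((min b1 b2 : ℝ) : ℂ) • (c • psh Ξ h)) j) := by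
    funext j
    rw [REAM.tau_it hPSM hHRX hMOM Φ (QuotientGroup.mk' H) Ξ hΞ hΦ h _ c j, QuotientGroup.ker_mk', smul_smul]
    refine Eq.trans (hMOM (Matrix ι ι B) (h.map ψ) (((min b1 b2 : ℝ) : ℂ) * c) (REBM.omL ω) j) ?_
    congr 1
    funext l
    rw [← REBM.om_trW H Φ ψ ω hω1 hω2 (h ^ l)]
    show ∑ i, ω (((h.map ψ) ^ l) i i) = ∑ i, ω (ψ ((h ^ l) i i))
    rw [← hmap h, ← map_pow]
    rfl
  rw [key] at l2
  have := tendsto_nhds_unique l2 l1
  rw [ha1] at this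
  exact this

end Pool.Agent.Lib.MP8a3537.TW
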