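import Pool.Agent.Lib.MP_8a3537_gt.TW.Spec

/-! # CSM: signs of invertible selfadjoint matrices over a C*-algebra -/

set_option autoImplicit false

namespace Pool.Agent.Lib.MP8a3537.TW.CSMM

open Pool.Agent.Lib.MP8a3537.SG
open Filter Topology
open scoped BigOperators ComplexOrder Matrix

variable {B : Type} [CStarAlgebra B] {ι : Type} [Fintype ι] [DecidableEq ι]

theorem of_it (c : ℂ) (X : Matrix ι ι B) (j : ℕ) :
    CStarMatrix.ofMatrix (it (c • X) j) = it (c • (CStarMatrix.ofMatrix X : CStarMatrix ι ι B)) j := by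
  induction j with
  | zero => rfl
  | succ j ih =>
    change CStarMatrix.ofMatrix ((3 / 2 : ℂ) • it (c • X) j - (1 / 2 : ℂ) • (it (c • X) j) ^ 3) =
      (3 / 2 : ℂ) • it (c • (CStarMatrix.ofMatrix X : CStarMatrix ι ι B)) j -
        (1 / 2 : ℂ) • (it (c • (CStarMatrix.ofMatrix X : CStarMatrix ι ι B)) j) ^ 3
    rw [← ih, pow_three, pow_three]
    rfl

end Pool.Agent.Lib.MP8a3537.TW.CSMM

namespace Pool.Agent.Lib.MP8a3537.TW

open Pool.Agent.Lib.MP8a3537.SG
open Filter Topology CSMM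
open scoped Matrix

theorem specCSM (hCSA : SpecCSA) : SpecCSM := by
  intro B _ ι _ _ X hX hu
  let _ : PartialOrder B := CStarAlgebra.spectralOrder B
  have _ : StarOrderedRing B := CStarAlgebra.spectralOrderedRing B
  obtain ⟨h1, b0, hb0, h2⟩ := hCSA (CStarMatrix ι ι B) (CStarMatrix.ofMatrix X) (by
    change star (CStarMatrix.ofMatrix X) = CStarMatrix.ofMatrix X
    exact congrArg CStarMatrix.ofMatrix hX) (by
    obtain ⟨u, rfl⟩ := hu
    exact ⟨⟨CStarMatrix.ofMatrix (u : Matrix ι ι B), CStarMatrix.ofMatrix ((u⁻¹ : (Matrix ι ι B)ˣ) : Matrix ι ι B),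
      congrArg CStarMatrix.ofMatrix (Units.mul_inv u), congrArg CStarMatrix.ofMatrix (Units.inv_mul u)⟩, rfl⟩)
  refine ⟨?_, b0, hb0, ?_⟩
  · obtain ⟨s, hs1, hs2, hs3, t, ht⟩ := h1
    exact ⟨CStarMatrix.ofMatrix.symm s, ⟨hs1, hs2, hs3, ⟨CStarMatrix.ofMatrix.symm t, ht⟩⟩⟩
  · intro b hb hbb S hS ω
    obtain ⟨T, hT⟩ := hS.pos
    have h3 := h2 b hb hbb (CStarMatrix.ofMatrix S) ⟨hS.self, hS.sq, hS.comm, ⟨CStarMatrix.ofMatrix T, hT⟩⟩
    refine tendsto_finsetSum _ fun i _ => ?_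
    have h4 : Continuous (fun M : CStarMatrix ι ι B => ω (M i i)) :=
      ω.continuous.comp (continuous_apply_apply (ρ := fun _ _ => B) i i)
    have h5 := (h4.tendsto (CStarMatrix.ofMatrix S)).comp h3
    refine h5.congr fun j => ?_
    rw [Function.comp_apply, ← of_it]
    rfl

end Pool.Agent.Lib.MP8a3537.TW
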