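import Pool.Agent.Lib.MP_8a3537_gt.TW.Spec

/-! # BDX: a bound for the images of a matrix over a group ring, uniform in the representation -/

set_option linter.unusedVariables false

namespace Pool.Agent.Lib.MP8a3537.TW.BDXM

open Pool.Agent.Lib.MP8a3537.SG
open scoped BigOperators Pointwise ComplexOrder Matrix

lemma bd_zero {κ : Type} [Fintype κ] : Bd (0 : Matrix κ κ ℂ) 0 := by
  intro v
  simp

lemma bd_sum (hBDA : SpecBDA) {κ ι : Type} [Fintype κ] [DecidableEq κ] (s : Finset ι)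
    (A : ι → Matrix κ κ ℂ) (α : ι → ℝ) (h : ∀ i ∈ s, 0 ≤ α i ∧ Bd (A i) (α i)) :
    0 ≤ ∑ i ∈ s, α i ∧ Bd (∑ i ∈ s, A i) (∑ i ∈ s, α i) := by
  classical
  induction s using Finset.induction_on with
  | empty => exact ⟨by simp, by simpa using bd_zero⟩
  | insert a s ha ih =>
    have h1 := ih fun i hi => h i (Finset.mem_insert_of_mem hi)
    have h2 := h a (Finset.mem_insert_self a s)
    rw [Finset.sum_insert ha, Finset.sum_insert ha]
    exact ⟨add_nonneg h2.1 h1.1, (hBDA.2.1 κ (A a) (∑ i ∈ s, A i) (α a) (∑ i ∈ s, α i) h2.1 h1.1 h2.2 h1.2).1⟩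

/-- the matrix with the block `A ⊗ U` at the place `(i, j)` -/
noncomputable def blkm {ι κ l : Type} [DecidableEq ι] (i j : ι) (A : Matrix κ κ ℂ) (U : Matrix l l ℂ) :
    Matrix ((ι × κ) × l) ((ι × κ) × l) ℂ :=
  Matrix.of fun p q => if p.1.1 = i ∧ q.1.1 = j then A p.1.2 q.1.2 * U p.2 q.2 else 0

lemma bd_block (hBDA : SpecBDA) {ι κ l : Type} [Fintype ι] [DecidableEq ι] [Fintype κ] [DecidableEq κ] [Fintype l]
    [DecidableEq l] (i j : ι) (A : Matrix κ κ ℂ) (U : Matrix.unitaryGroup l ℂ) (α : ℝ) (hA : Bd A α) :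
    Bd (blkm i j A (U : Matrix l l ℂ)) α := by
  intro v
  have hK := hBDA.2.2.2.2.1 κ l A U α hA (fun x : κ × l => v ((j, x.1), x.2))
  set K := Matrix.kroneckerMap (fun a b => a * b) A (U : Matrix l l ℂ) with hKd
  have h1 : ∀ (i' : ι) (a : κ) (s : l), ((blkm i j A (U : Matrix l l ℂ)).mulVec v) ((i', a), s) =
      if i' = i then (K.mulVec (fun x : κ × l => v ((j, x.1), x.2))) (a, s) else 0 := by
    intro i' a s
    simp only [Matrix.mulVec, dotProduct, blkm, Matrix.of_apply, hKd, Matrix.kroneckerMap_apply]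
    rw [Fintype.sum_prod_type, Fintype.sum_prod_type]
    split_ifs with hi
    · rw [Fintype.sum_prod_type, Finset.sum_eq_single j]
      · refine Finset.sum_congr rfl fun b _ => Finset.sum_congr rfl fun t _ => ?_
        rw [if_pos ⟨hi, rfl⟩]
      · intro j' _ hj
        refine Finset.sum_eq_zero fun b _ => Finset.sum_eq_zero fun t _ => ?_
        rw [if_neg (fun h => hj h.2), zero_mul]
      · intro h
        exact absurd (Finset.mem_univ j) h
    · refine Finset.sum_eq_zero fun j' _ => Finset.sum_eq_zero fun b _ => Finset.sum_eq_zero fun t _ => ?_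
      rw [if_neg (fun h => hi h.1), zero_mul]
  have h2 : ∑ p, ‖((blkm i j A (U : Matrix l l ℂ)).mulVec v) p‖ ^ 2 =
      ∑ x : κ × l, ‖(K.mulVec (fun x : κ × l => v ((j, x.1), x.2))) x‖ ^ 2 := by
    rw [Fintype.sum_prod_type, Fintype.sum_prod_type, Fintype.sum_prod_type, Finset.sum_eq_single i]
    · refine Finset.sum_congr rfl fun a _ => Finset.sum_congr rfl fun s _ => ?_
      rw [h1, if_pos rfl]
    · intro i' _ hi
      refine Finset.sum_eq_zero fun a _ => Finset.sum_eq_zero fun s _ => ?_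
      rw [h1, if_neg hi]
      simp
    · intro h
      exact absurd (Finset.mem_univ i) h
  have h3 : ∑ x : κ × l, ‖v ((j, x.1), x.2)‖ ^ 2 ≤ ∑ q, ‖v q‖ ^ 2 := by
    rw [Fintype.sum_prod_type, Fintype.sum_prod_type, Fintype.sum_prod_type]
    exact Finset.single_le_sum (f := fun j' => ∑ b, ∑ t, ‖v ((j', b), t)‖ ^ 2)
      (fun j' _ => Finset.sum_nonneg fun b _ => Finset.sum_nonneg fun t _ => sq_nonneg _)
      (Finset.mem_univ j)
  rw [h2]
  exact hK.trans (mul_le_mul_of_nonneg_left h3 (sq_nonneg α))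

variable {R E G : Type} [Ring R] [StarRing R] [Group E] [Group G]

lemma bd_single (hBDA : SpecBDA) {κ : Type} [Fintype κ] [DecidableEq κ] (Φ : MonoidAlgebra R E →+* Matrix κ κ ℂ)
    (hΦ : StarHom Φ) (β : R → ℝ) (hβ : ∀ r, 0 ≤ β r ∧ Bd (Φ (MonoidAlgebra.single 1 r)) (β r)) (g : E) (r : R) :
    Bd (Φ (MonoidAlgebra.single g r)) (β r) := by
  have h1 : Φ (MonoidAlgebra.single g r) = Φ (MonoidAlgebra.single 1 r) * Φ (MonoidAlgebra.single g 1) := by
    rw [← map_mul, MonoidAlgebra.single_mul_single, one_mul, mul_one]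
  have h2 : star (Φ (MonoidAlgebra.single g 1)) * Φ (MonoidAlgebra.single g 1) = 1 := by
    rw [hΦ g 1, star_one, ← map_mul, MonoidAlgebra.single_mul_single, inv_mul_cancel, one_mul]
    exact map_one Φ
  let U : Matrix.unitaryGroup κ ℂ := ⟨Φ (MonoidAlgebra.single g 1), Matrix.mem_unitaryGroup_iff'.2 h2⟩
  have h3 := hBDA.2.2.1 κ U
  have h4 := (hBDA.2.1 κ (Φ (MonoidAlgebra.single 1 r)) (U : Matrix κ κ ℂ) (β r) 1 (hβ r).1 zero_le_one (hβ r).2 h3).2
  rw [mul_one] at h4
  rw [h1]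
  exact h4

lemma sum_coeff {B : Type} [AddCommMonoid B] (Ψ : MonoidAlgebra R E →+ B) (x : MonoidAlgebra R E) :
    Ψ x = ∑ g ∈ x.coeff.support, Ψ (MonoidAlgebra.single g (x.coeff g)) := by
  classical
  rw [← map_sum]
  congr 1
  ext g
  simp only [MonoidAlgebra.coeff_sum, Finsupp.coe_finsetSum, Finset.sum_apply, MonoidAlgebra.coeff_single,
    Finsupp.single_apply, Finset.sum_ite_eq', Finsupp.mem_support_iff]
  split_ifs with h
  · rfl
  · exact not_not.1 h

lemma twist_psh {ι κ l : Type} [Fintype ι] [DecidableEq ι] [Fintype κ] [DecidableEq κ] [Fintype l] [DecidableEq l]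
    (Φ : MonoidAlgebra R E →+* Matrix κ κ ℂ) (π : E →* G) (Ξ : MonoidAlgebra R E →+* Matrix κ κ (CG G))
    (hΞ : IsXi Φ π Ξ) (u : Matrix ι ι (MonoidAlgebra R E)) (ρ : G →* Matrix.unitaryGroup l ℂ) :
    twist ρ (psh Ξ u) = ∑ i, ∑ j, ∑ g ∈ (u i j).coeff.support,
      blkm i j (Φ (MonoidAlgebra.single g ((u i j).coeff g))) ((ρ (π g) : Matrix.unitaryGroup l ℂ) : Matrix l l ℂ) := by
  have key : ∀ (x : MonoidAlgebra R E) (a b : κ) (s t : l), (repA ρ (Ξ x a b)) s t =
      ∑ g ∈ x.coeff.support, Φ (MonoidAlgebra.single g (x.coeff g)) a b *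
        ((ρ (π g) : Matrix.unitaryGroup l ℂ) : Matrix l l ℂ) s t := by
    intro x a b s t
    let Ψ : MonoidAlgebra R E →+ ℂ :=
      { toFun := fun x => (repA ρ (Ξ x a b)) s t
        map_zero' := by
          rw [map_zero]
          simp
        map_add' := fun x y => by
          rw [map_add, Matrix.add_apply, map_add, Matrix.add_apply] }
    have h1 := sum_coeff Ψ x
    refine h1.trans (Finset.sum_congr rfl fun g _ => ?_)
    change (repA ρ (Ξ (MonoidAlgebra.single g (x.coeff g)) a b)) s t = _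
    rw [hΞ]
    unfold repA
    rw [MonoidAlgebra.lift_single, Matrix.smul_apply, smul_eq_mul]
    rfl
  ext ⟨⟨i', a⟩, s⟩ ⟨⟨j', b⟩, t⟩
  change (repA ρ (Ξ (u i' j') a b)) s t = _
  rw [key]
  simp only [Matrix.sum_apply, blkm, Matrix.of_apply]
  rw [Finset.sum_eq_single i']
  · rw [Finset.sum_eq_single j']
    · simp
    · intro j _ hj
      refine Finset.sum_eq_zero fun g _ => ?_
      rw [if_neg (fun h => hj h.2.symm)]
    · intro h
      exact absurd (Finset.mem_univ j') h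
  · intro i _ hi
    refine Finset.sum_eq_zero fun j _ => Finset.sum_eq_zero fun g _ => ?_
    rw [if_neg (fun h => hi h.1.symm)]
  · intro h
    exact absurd (Finset.mem_univ i') h

end Pool.Agent.Lib.MP8a3537.TW.BDXM

namespace Pool.Agent.Lib.MP8a3537.TW

open Pool.Agent.Lib.MP8a3537.SG
open BDXM

theorem specBDX (hBDA : SpecBDA) : SpecBDX := by
  intro R E G ι κ _ _ _ _ _ _ _ _ Φ π Ξ β hΞ hΦ hβ u l _ _ ρ
  rw [twist_psh Φ π Ξ hΞ u ρ]
  refine (bd_sum hBDA Finset.univ _ _ fun i _ => ?_).2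
  refine bd_sum hBDA Finset.univ _ _ fun j _ => ?_
  refine bd_sum hBDA _ _ _ fun g _ => ?_
  exact ⟨(hβ _).1, bd_block hBDA i j _ _ _ (bd_single hBDA Φ hΦ β hβ g _)⟩

end Pool.Agent.Lib.MP8a3537.TW
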