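import Pool.Agent.Lib.MP_8a3537_gt.TW.Spec

/-!
# Module REA: Theorem 1 (a)
-/

set_option linter.unusedVariables false

namespace Pool.Agent.Lib.MP8a3537.TW

open Pool.Agent.Lib.MP8a3537.SG
open Filter Topology
open scoped BigOperators Pointwise ComplexOrder Matrix

namespace REAM

theorem unit01_ne {ε : ℤ} {c : ℂ} (h : Unit01 ε c) : c ≠ 0 := by
  rcases h with ⟨_, h⟩ | ⟨_, h⟩
  · rw [h]; exact one_ne_zero
  · rw [h]; exact Complex.I_ne_zero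

theorem isUnit_smul {A : Type} [Ring A] [Algebra ℂ A] {c : ℂ} (hc : c ≠ 0) {a : A} (ha : IsUnit a) :
    IsUnit (c • a) := by
  obtain ⟨u, rfl⟩ := ha
  refine ⟨⟨c • (u : A), c⁻¹ • ((u⁻¹ : Aˣ) : A), ?_, ?_⟩, rfl⟩
  · rw [smul_mul_smul_comm, mul_inv_cancel₀ hc, Units.mul_inv, one_smul]
  · rw [smul_mul_smul_comm, inv_mul_cancel₀ hc, Units.inv_mul, one_smul]

/-- the trace as a linear map -/
noncomputable def tauL {G : Type} [Group G] {ι : Type} [Fintype ι] : Matrix ι ι (CG G) →ₗ[ℂ] ℂ where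
  toFun := tau
  map_add' x y := by
    unfold tau
    rw [← Finset.sum_add_distrib]
    refine Finset.sum_congr rfl fun i _ => ?_
    rfl
  map_smul' c x := by
    unfold tau
    rw [RingHom.id_apply, smul_eq_mul, Finset.mul_sum]
    refine Finset.sum_congr rfl fun i _ => ?_
    rfl

theorem augM_smul {G : Type} [Group G] {ι : Type} (c : ℂ) (x : Matrix ι ι (CG G)) :
    augM (c • x) = c • augM x := by
  funext i j
  simp [augM]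

theorem momJ_smul (k : ℂ) (m : ℕ → ℂ) (t : ℂ) (j : ℕ) :
    momJ (fun l => k * m l) t j = k * momJ m t j := by
  unfold momJ
  rw [Finset.mul_sum]
  refine Finset.sum_congr rfl fun l _ => ?_
  ring

/-- the sequence of traces as a sequence of moments -/
theorem tau_it (hPSM : SpecPSM) (hHRX : SpecHRX) (hMOM : SpecMOM) {R E G ι κ : Type} [Ring R] [StarRing R] [Group E] [Group G]
    [Fintype ι] [DecidableEq ι] [Fintype κ] [DecidableEq κ]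
    (Φ : MonoidAlgebra R E →+* Matrix κ κ ℂ) (π : E →* G) (Ξ : MonoidAlgebra R E →+* Matrix κ κ (CG G))
    (hΞ : IsXi Φ π Ξ) (hΦ : StarHom Φ) (h : Matrix ι ι (MonoidAlgebra R E)) (b c : ℂ) (j : ℕ) :
    tau (it (b • (c • psh Ξ h)) j) = momJ (fun l => trW Φ (ind π.ker) (h ^ l)) (b * c) j := by
  obtain ⟨⟨Ψ, hΨ⟩, -, -⟩ := hPSM R E G ι κ Φ π Ξ hΞ
  obtain ⟨-, hH2⟩ := hHRX R E G ι κ Φ π Ξ hΞ hΦ
  have h1 := hMOM (Matrix (ι × κ) (ι × κ) (CG G)) (psh Ξ h) (b * c) tauL j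
  rw [smul_smul]
  refine Eq.trans h1 ?_
  congr 1
  funext l
  show tau (psh Ξ h ^ l) = trW Φ (ind π.ker) (h ^ l)
  rw [← (hH2 (h ^ l)).2, ← hΨ h, ← map_pow, hΨ]

/-- hermitian and invertible -/
theorem y_good (hPSM : SpecPSM) (hHRX : SpecHRX) {R E G ι κ : Type} [Ring R] [StarRing R] [Group E] [Group G]
    [Fintype ι] [DecidableEq ι] [Fintype κ] [DecidableEq κ]
    (Φ : MonoidAlgebra R E →+* Matrix κ κ ℂ) (π : E →* G) (Ξ : MonoidAlgebra R E →+* Matrix κ κ (CG G))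
    (hΞ : IsXi Φ π Ξ) (hΦ : StarHom Φ) (h : Matrix ι ι (MonoidAlgebra R E)) (ε : ℤ) (c : ℂ)
    (hc : Unit01 ε c) (hε : EpsHerm ε h) (hu : IsUnit h) :
    IsHerm (c • psh Ξ h) ∧ IsUnit (c • psh Ξ h) ∧ augM (c • psh Ξ h) = c • blk Φ h := by
  obtain ⟨⟨Ψ, hΨ⟩, -, -⟩ := hPSM R E G ι κ Φ π Ξ hΞ
  obtain ⟨hH1, hH2⟩ := hHRX R E G ι κ Φ π Ξ hΞ hΦ
  refine ⟨(hH1 ε c h hc hε).1, ?_, ?_⟩
  · refine isUnit_smul (unit01_ne hc) ?_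
    rw [← hΨ h]
    exact hu.map Ψ
  · rw [augM_smul, (hH2 h).1]

theorem trW_eq {R E : Type} [Ring R] [Group E] {ι : Type} [Fintype ι] {κ₁ κ₂ : Type} [Fintype κ₁] [DecidableEq κ₁] [Fintype κ₂] [DecidableEq κ₂]
    (H : Subgroup E) (Φ₁ : MonoidAlgebra R E →+* Matrix κ₁ κ₁ ℂ)
    (Φ₂ : MonoidAlgebra R E →+* Matrix κ₂ κ₂ ℂ) (k₁ k₂ : ℕ)
    (hk : ∀ g ∈ H, ∀ r : R, k₁ * (Φ₁ (MonoidAlgebra.single g r)).trace = k₂ * (Φ₂ (MonoidAlgebra.single g r)).trace)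
    (x : Matrix ι ι (MonoidAlgebra R E)) :
    (k₁ : ℂ) * trW Φ₁ (ind H) x = (k₂ : ℂ) * trW Φ₂ (ind H) x := by
  unfold trW
  rw [Finset.mul_sum, Finset.mul_sum]
  refine Finset.sum_congr rfl fun i _ => ?_
  rw [Finset.mul_sum, Finset.mul_sum]
  refine Finset.sum_congr rfl fun g _ => ?_
  unfold ind
  by_cases hg : g ∈ H
  · rw [if_pos hg, one_mul, one_mul]
    exact hk g hg _
  · rw [if_neg hg, zero_mul, zero_mul, mul_zero, mul_zero]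

end REAM

theorem specREA (hXIX : SpecXIX) (hPSM : SpecPSM) (hHRX : SpecHRX) (hMOM : SpecMOM) (hLIM : SpecLIM) : SpecREA := by
  intro R E _ _ _ H _ hRT ι _ _ h ε c hc hε hu κ₁ κ₂ _ _ _ _ Φ₁ Φ₂ k₁ k₂ hΦ₁ hΦ₂ hk
  obtain ⟨Ξ₁, hΞ₁⟩ := hXIX R E (E ⧸ H) κ₁ Φ₁ (QuotientGroup.mk' H)
  obtain ⟨Ξ₂, hΞ₂⟩ := hXIX R E (E ⧸ H) κ₂ Φ₂ (QuotientGroup.mk' H)
  obtain ⟨hh1, hu1, ha1⟩ := REAM.y_good hPSM hHRX Φ₁ (QuotientGroup.mk' H) Ξ₁ hΞ₁ hΦ₁ h ε c hc hε hu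
  obtain ⟨hh2, hu2, ha2⟩ := REAM.y_good hPSM hHRX Φ₂ (QuotientGroup.mk' H) Ξ₂ hΞ₂ hΦ₂ h ε c hc hε hu
  obtain ⟨b1, hb1, hl1⟩ := hLIM (E ⧸ H) hRT (ι × κ₁) (c • psh Ξ₁ h) hh1 hu1
  obtain ⟨b2, hb2, hl2⟩ := hLIM (E ⧸ H) hRT (ι × κ₂) (c • psh Ξ₂ h) hh2 hu2
  have hb : 0 < min b1 b2 := lt_min hb1 hb2
  have l1 := hl1 (min b1 b2) hb (min_le_left _ _)
  have l2 := hl2 (min b1 b2) hb (min_le_right _ _)
  have l1' := l1.const_mul (k₁ : ℂ)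
  have l2' := l2.const_mul (k₂ : ℂ)
  have key : (fun j => (k₁ : ℂ) * tau (it (((min b1 b2 : ℝ) : ℂ) • (c • psh Ξ₁ h)) j)) =
      fun j => (k₂ : ℂ) * tau (it (((min b1 b2 : ℝ) : ℂ) • (c • psh Ξ₂ h)) j) := by
    funext j
    rw [REAM.tau_it hPSM hHRX hMOM Φ₁ (QuotientGroup.mk' H) Ξ₁ hΞ₁ hΦ₁ h _ c j,
      REAM.tau_it hPSM hHRX hMOM Φ₂ (QuotientGroup.mk' H) Ξ₂ hΞ₂ hΦ₂ h _ c j,
      ← REAM.momJ_smul, ← REAM.momJ_smul, QuotientGroup.ker_mk']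
    congr 1
    funext l
    exact REAM.trW_eq H Φ₁ Φ₂ k₁ k₂ hk (h ^ l)
  rw [key] at l1'
  have := tendsto_nhds_unique l1' l2'
  rw [ha1, ha2] at this
  exact_mod_cast this

end Pool.Agent.Lib.MP8a3537.TW
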