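import Pool.Agent.Lib.MP_8a3537_gt.TW.Spec
import Pool.Agent.Lib.MP_8a3537_gt.SG.All

/-!
# MP_8a3537_gt, rows TW, module TWI: Theorem 2 for finitely generated groups
-/

set_option linter.unusedVariables false

namespace Pool.Agent.Lib.MP8a3537.TW

open Pool.Agent.Lib.MP8a3537.SG
open Filter Topology
open scoped BigOperators Pointwise ComplexOrder Matrix

namespace TWIM

/-! ### groups -/

lemma torsfree {Q : Type} [Group Q] (hQ : RTFN Q) (x : Q) (hx : x ≠ 1) (k : ℤ) (hk : k ≠ 0) :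
    x ^ k ≠ 1 := by
  intro h
  obtain ⟨L, hL, hxL, -, htf⟩ := hQ x hx
  have h1 : ((x : Q ⧸ L)) ^ k = 1 := by
    rw [← QuotientGroup.mk_zpow, h, QuotientGroup.mk_one]
  have h2 : ((x : Q ⧸ L)) ^ k.natAbs = 1 := by
    rcases Int.natAbs_eq k with h3 | h3
    · rw [h3] at h1
      rw [zpow_natCast] at h1
      exact h1
    · rw [h3, zpow_neg, inv_eq_one, zpow_natCast] at h1
      exact h1
  have h3 := htf (x : Q ⧸ L) k.natAbs (Int.natAbs_pos.2 hk) h2
  exact hxL ((QuotientGroup.eq_one_iff x).1 h3)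

lemma mem_sup_iff {E : Type} [Group E] (H : Subgroup E) [H.Normal] (z : E) (hz : ∀ g, g * z = z * g) (g : E) :
    g ∈ H ⊔ Subgroup.zpowers z ↔ ∃ k : ℤ, g * (z ^ k)⁻¹ ∈ H := by
  rw [sup_comm, Subgroup.mem_sup_of_normal_right]
  constructor
  · rintro ⟨y, hy, w, hw, rfl⟩
    obtain ⟨k, rfl⟩ := Subgroup.mem_zpowers_iff.1 hy
    refine ⟨k, ?_⟩
    exact Subgroup.Normal.conj_mem inferInstance w hw (z ^ k)
  · rintro ⟨k, hk⟩
    refine ⟨z ^ k, Subgroup.mem_zpowers_iff.2 ⟨k, rfl⟩, (z ^ k)⁻¹ * g, ?_, by group⟩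
    have h1 : (z ^ k)⁻¹ * g = (z ^ k)⁻¹ * (g * (z ^ k)⁻¹) * ((z ^ k)⁻¹)⁻¹ := by group
    rw [h1]
    exact Subgroup.Normal.conj_mem inferInstance _ hk _

section
variable {E : Type} [Group E] (H K : Subgroup E) [H.Normal] [K.Normal] (z : E)

lemma cext (hH : RTFN (E ⧸ H)) (hz : ∀ g, g * z = z * g) (hK : K = H ⊔ Subgroup.zpowers z)
    (hzH : z ∉ H) (hHK : H ≤ K.comap (MonoidHom.id E)) :
    CExt (E ⧸ H) (E ⧸ K) (QuotientGroup.map H K (MonoidHom.id E) hHK) (z : E ⧸ H) := by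
  have hz1 : (z : E ⧸ H) ≠ 1 := fun h => hzH ((QuotientGroup.eq_one_iff z).1 h)
  refine ⟨?_, ?_, ?_, fun k hk => torsfree hH _ hz1 k hk⟩
  · intro x
    obtain ⟨e, rfl⟩ := QuotientGroup.mk_surjective x
    exact ⟨(e : E ⧸ H), rfl⟩
  · intro g
    obtain ⟨e, rfl⟩ := QuotientGroup.mk_surjective g
    rw [QuotientGroup.map_mk, MonoidHom.id_apply, QuotientGroup.eq_one_iff, hK, mem_sup_iff H z hz]
    refine exists_congr fun k => ?_
    rw [← QuotientGroup.mk_zpow, ← mul_inv_eq_one, ← QuotientGroup.mk_inv, ← QuotientGroup.mk_mul,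
      QuotientGroup.eq_one_iff]
  · intro g
    obtain ⟨e, rfl⟩ := QuotientGroup.mk_surjective g
    rw [← QuotientGroup.mk_mul, hz, QuotientGroup.mk_mul]

lemma pow_notMem (hH : RTFN (E ⧸ H)) (hzH : z ∉ H) (k : ℤ) (hk : z ^ k ∈ H) : k = 0 := by
  by_contra h0
  have hz1 : (z : E ⧸ H) ≠ 1 := fun h => hzH ((QuotientGroup.eq_one_iff z).1 h)
  apply torsfree hH _ hz1 k h0
  rw [← QuotientGroup.mk_zpow]
  exact (QuotientGroup.eq_one_iff _).2 hk

end

/-! ### linear functionals -/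

noncomputable def tauL {G ι : Type} [Group G] [Fintype ι] : Matrix ι ι (CG G) →ₗ[ℂ] ℂ where
  toFun := tau
  map_add' x y := by
    unfold tau
    rw [← Finset.sum_add_distrib]
    rfl
  map_smul' c x := by
    unfold tau
    rw [RingHom.id_apply, Finset.smul_sum]
    rfl

lemma tauZ_sum {Γ ι : Type} [Group Γ] [Fintype ι] (z : Γ) (θ : ℝ) (x : Matrix ι ι (CG Γ)) :
    tauZ z θ x = ∑ i, (x i i).coeff.sum fun g a => chiH ⊥ z θ g * a := rfl

noncomputable def tauZL {Γ ι : Type} [Group Γ] [Fintype ι] (z : Γ) (θ : ℝ) :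
    Matrix ι ι (CG Γ) →ₗ[ℂ] ℂ where
  toFun := tauZ z θ
  map_add' x y := by
    rw [tauZ_sum, tauZ_sum, tauZ_sum, ← Finset.sum_add_distrib]
    refine Finset.sum_congr rfl fun i _ => ?_
    rw [Matrix.add_apply, MonoidAlgebra.coeff_add]
    exact Finsupp.sum_add_index' (fun _ => mul_zero _) (fun _ _ _ => mul_add _ _ _)
  map_smul' c x := by
    rw [tauZ_sum, tauZ_sum, RingHom.id_apply, Finset.smul_sum]
    refine Finset.sum_congr rfl fun i _ => ?_
    rw [Matrix.smul_apply, MonoidAlgebra.coeff_smul, Finsupp.sum_smul_index' (fun _ => mul_zero _),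
      Finsupp.smul_sum]
    refine Finset.sum_congr rfl fun g _ => ?_
    simp only [smul_eq_mul]
    ring

/-! ### the involution -/

section
variable {R E A : Type} [Ring R] [StarRing R] [Group E] [Ring A] [StarRing A]

lemma star_hom (ψ : MonoidAlgebra R E →+* A) (hψ : StarHom ψ) (ε : ℤ) (hε : ε * ε = 1)
    (u v : MonoidAlgebra R E) (huv : ∀ g, v.coeff g = ε • star (u.coeff g⁻¹)) :
    star (ψ u) = ε • ψ v := by
  classical
  have hu : u = ∑ g ∈ u.coeff.support, MonoidAlgebra.single g (u.coeff g) :=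
    (MonoidAlgebra.sum_coeff_single u).symm
  have hv : v = ∑ g ∈ u.coeff.support, MonoidAlgebra.single g⁻¹ (ε • star (u.coeff g)) := by
    have h1 : v = ∑ g ∈ v.coeff.support, MonoidAlgebra.single g (v.coeff g) :=
      (MonoidAlgebra.sum_coeff_single v).symm
    rw [h1]
    symm
    refine Finset.sum_nbij' (fun g => g⁻¹) (fun g => g⁻¹) ?_ ?_ ?_ ?_ ?_
    · intro g hg
      rw [Finsupp.mem_support_iff] at hg ⊢
      rw [huv, inv_inv]
      intro h0
      apply hg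
      have h2 : ε • (ε • star (u.coeff g)) = 0 := by rw [h0, smul_zero]
      rw [smul_smul, hε, one_smul] at h2
      exact star_eq_zero.1 h2
    · intro g hg
      rw [Finsupp.mem_support_iff] at hg ⊢
      intro h0
      apply hg
      rw [huv, h0, star_zero, smul_zero]
    · intro g _; exact inv_inv g
    · intro g _; exact inv_inv g
    · intro g _
      rw [huv, inv_inv]
  rw [hv]
  conv_lhs => rw [hu]
  rw [map_sum, map_sum, star_sum, Finset.smul_sum]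
  refine Finset.sum_congr rfl fun g _ => ?_
  have h3 : (MonoidAlgebra.single g⁻¹ (ε • star (u.coeff g)) : MonoidAlgebra R E) =
      ε • MonoidAlgebra.single g⁻¹ (star (u.coeff g)) := by
    rw [MonoidAlgebra.smul_single]
  rw [hψ, h3, map_zsmul, smul_smul, hε, one_smul]

lemma unit01_norm {ε : ℤ} {c : ℂ} (h : Unit01 ε c) :
    ‖c‖ = 1 ∧ c ≠ 0 ∧ ε * ε = 1 ∧ (starRingEnd ℂ) c * ε = c := by
  rcases h with ⟨rfl, rfl⟩ | ⟨rfl, rfl⟩
  · simp
  · refine ⟨Complex.norm_I, Complex.I_ne_zero, by norm_num, ?_⟩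
    rw [Complex.conj_I]
    push_cast
    ring

lemma map_herm {B ι : Type} [CStarAlgebra B] (ψ : MonoidAlgebra R E →+* B) (hψ : StarHom ψ)
    (ε : ℤ) (c : ℂ) (hc : Unit01 ε c) (h : Matrix ι ι (MonoidAlgebra R E)) (hh : EpsHerm ε h) :
    (c • h.map ψ)ᴴ = c • h.map ψ := by
  obtain ⟨-, -, h2, h3⟩ := unit01_norm hc
  ext i j
  rw [Matrix.conjTranspose_apply, Matrix.smul_apply, Matrix.smul_apply, Matrix.map_apply,
    Matrix.map_apply, star_smul, star_hom ψ hψ ε h2 (h j i) (h i j) (fun g => hh j i g),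
    ← Int.cast_smul_eq_zsmul ℂ, smul_smul]
  congr 1

end

lemma bd_smul {κ : Type} [Fintype κ] (A : Matrix κ κ ℂ) (β : ℝ) (c : ℂ) (hc : ‖c‖ = 1)
    (hA : Bd A β) : Bd (c • A) β := by
  intro v
  refine le_trans (le_of_eq ?_) (hA v)
  refine Finset.sum_congr rfl fun i _ => ?_
  rw [Matrix.smul_mulVec, Pi.smul_apply, norm_smul, hc, one_mul]

end TWIM

open TWIM in
/-- **TWI**. -/
theorem specTWI (hXIX : SpecXIX) (hPSM : SpecPSM) (hHRX : SpecHRX) (hTRZ : SpecTRZ) (hTRK : SpecTRK)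
    (hMOM : SpecMOM) (hBDX : SpecBDX) (hBDA : SpecBDA) (hNRT : SpecNRT) (hMGP : SpecMGP)
    (hCSM : SpecCSM) (hCOR : SpecCOR) : SpecTWI := by
  classical
  intro R E _ _ _ H K _ _ z hFG hH hKr hz hK hzH ι _ _ h h' x x' ε c hc hh hinv κ0 _ _ Φ0 hΦ0 hΦ0z
  obtain ⟨hc1, hc0, hε, hcε⟩ := unit01_norm hc
  have hHK : H ≤ K.comap (MonoidHom.id E) := by
    rw [Subgroup.comap_id, hK]; exact le_sup_left
  have hE := cext H K z hH hz hK hzH hHK
  have hzK : z ∈ K := by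
    rw [hK]; exact (le_sup_right : Subgroup.zpowers z ≤ _) (Subgroup.mem_zpowers z)
  have hFΓ : Group.FG (E ⧸ H) := Group.fg_of_surjective (QuotientGroup.mk'_surjective H)
  have hFGG : Group.FG (E ⧸ K) := Group.fg_of_surjective (QuotientGroup.mk'_surjective K)
  have hPG : P (E ⧸ K) := (all_PGR specDIF (specCEF specPWM)) (E ⧸ K) hFGG hKr
  have hpow : ∀ k : ℤ, z ^ k ∈ H → k = 0 := fun k hk => pow_notMem H z hH hzH k hk
  -- the matrix over the group ring of `Γ = E ⧸ H`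
  obtain ⟨Ξ0, hΞ0⟩ := hXIX R E (E ⧸ H) κ0 Φ0 (QuotientGroup.mk' H)
  obtain ⟨⟨Ψ0, hΨ0⟩, -, hZ0⟩ := hPSM R E (E ⧸ H) ι κ0 Φ0 (QuotientGroup.mk' H) Ξ0 hΞ0
  obtain ⟨hherm0, haug0⟩ := hHRX R E (E ⧸ H) ι κ0 Φ0 (QuotientGroup.mk' H) Ξ0 hΞ0 hΦ0
  set y0 : Matrix (ι × κ0) (ι × κ0) (CG (E ⧸ H)) := c • psh Ξ0 h with hy0
  have hy0h : IsHerm y0 := (hherm0 ε c h hc hh).1
  have hΦ0z' : Φ0 (MonoidAlgebra.single z 1) = (1 : ℂ) • (1 : Matrix κ0 κ0 ℂ) := by
    rw [one_smul, hΦ0z]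
  have hy0i : (c⁻¹ • psh Ξ0 h') * y0 = 1 + Matrix.scalar (ι × κ0) (MonoidAlgebra.single (z : E ⧸ H) 1 - 1) *
      psh Ξ0 x' := by
    rw [hy0, Matrix.smul_mul, Matrix.mul_smul, smul_smul, inv_mul_cancel₀ hc0, one_smul, ← hΨ0, ← hΨ0,
      ← map_mul, hinv.left, map_add, map_one, hΨ0, hZ0 z 1 x' hΦ0z']
    rfl
  obtain ⟨δ1, b1, Q, hδ1, hb1, hlim, hQ0⟩ := hCOR (E ⧸ H) (E ⧸ K)
    (QuotientGroup.map H K (MonoidHom.id E) hHK) (z : E ⧸ H) hE hFΓ hH hKr (ι × κ0) y0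
    (c⁻¹ • psh Ξ0 h') (psh Ξ0 x') hy0h hy0i
  have hQ0' : Q.eval 0 = ((sgn (c • blk Φ0 h) : ℤ) : ℚ) := by
    rw [hQ0, hy0, MNAM.augM_smul, (haug0 h).1]
  -- the moments
  have hmom0 : ∀ (b : ℝ) (θ : ℝ) (j : ℕ), tauZ (z : E ⧸ H) θ (it ((b : ℂ) • y0) j) =
      momJ (fun l => trW Φ0 (chiH H z θ) (h ^ l)) (b * c) j := by
    intro b θ j
    have h1 := hMOM (Matrix (ι × κ0) (ι × κ0) (CG (E ⧸ H))) (psh Ξ0 h) (b * c) (tauZL (z : E ⧸ H) θ) j
    have h2 : (b : ℂ) • y0 = ((b : ℂ) * c) • psh Ξ0 h := by rw [hy0, smul_smul]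
    rw [h2]
    refine Eq.trans h1 ?_
    congr 1
    funext l
    have h3 : (psh Ξ0 h) ^ l = psh Ξ0 (h ^ l) := by rw [← hΨ0, ← hΨ0, map_pow]
    rw [h3]
    have h4 := hTRZ R E (E ⧸ H) ι κ0 Φ0 (QuotientGroup.mk' H) Ξ0 z hΞ0
      (by rw [QuotientGroup.ker_mk']; exact hpow) θ (h ^ l)
    rw [QuotientGroup.ker_mk'] at h4
    exact h4
  -- the bounds
  have hβex : ∀ r : R, ∃ β : ℝ, 1 ≤ β ∧ Bd (Φ0 (MonoidAlgebra.single 1 r)) β := fun r => hBDA.1 κ0 _
  choose β hβ1 hβ2 using hβex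
  let Bn : Matrix ι ι (MonoidAlgebra R E) → ℝ := fun u =>
    ∑ i, ∑ j, ∑ g ∈ (u i j).coeff.support, β ((u i j).coeff g)
  have hBn0 : ∀ u, 0 ≤ Bn u := fun u => Finset.sum_nonneg fun _ _ => Finset.sum_nonneg fun _ _ =>
    Finset.sum_nonneg fun _ _ => zero_le_one.trans (hβ1 _)
  have hpi : 0 < Real.pi := Real.pi_pos
  set δ : ℝ := min δ1 (1 / (4 * Real.pi * (Bn x' + 1))) with hδdef
  have hx'0 : 0 < Bn x' + 1 := by linarith [hBn0 x']
  have hδ : 0 < δ := lt_min hδ1 (by positivity)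
  refine ⟨δ, Q, hδ, hQ0', ?_, ?_⟩
  · -- finite dimensional representations
    intro κ _ _ Φ k θ hΦ hθ hΦz htr
    have hθ1 : |θ| < δ1 := lt_of_lt_of_le hθ (min_le_left _ _)
    have hθ2 : |θ| < 1 / (4 * Real.pi * (Bn x' + 1)) := lt_of_lt_of_le hθ (min_le_right _ _)
    obtain ⟨Ξ, hΞ⟩ := hXIX R E (E ⧸ K) κ Φ (QuotientGroup.mk' K)
    obtain ⟨⟨Ψ, hΨ⟩, -, hZ⟩ := hPSM R E (E ⧸ K) ι κ Φ (QuotientGroup.mk' K) Ξ hΞ
    obtain ⟨hherm, haug⟩ := hHRX R E (E ⧸ K) ι κ Φ (QuotientGroup.mk' K) Ξ hΞ hΦ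
    set y : Matrix (ι × κ) (ι × κ) (CG (E ⧸ K)) := c • psh Ξ h with hy
    have hyh : IsHerm y := (hherm ε c h hc hh).1
    have hzK1 : (QuotientGroup.mk' K) z = 1 := (QuotientGroup.eq_one_iff z).2 hzK
    have hyi : psh Ξ h' * psh Ξ h = 1 + (ex θ - 1) • psh Ξ x' := by
      rw [← hΨ, ← hΨ, ← map_mul, hinv.left, map_add, map_one, hΨ, hZ z (ex θ) x' hΦz, hzK1]
      congr 1
      have e1 : (MonoidAlgebra.single (1 : E ⧸ K) (ex θ) - 1 : CG (E ⧸ K)) = (ex θ - 1) • 1 := by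
        rw [sub_smul, one_smul, MonoidAlgebra.one_def, MonoidAlgebra.smul_single, smul_eq_mul, mul_one]
      rw [e1]
      ext1 p q
      rw [Matrix.scalar_apply, Matrix.diagonal_mul, Matrix.smul_apply, Algebra.smul_mul_assoc, one_mul]
    -- bounds for `Φ`
    have hβΦ : ∀ r, 0 ≤ β r ∧ Bd (Φ (MonoidAlgebra.single 1 r)) (β r) := by
      intro r
      refine ⟨zero_le_one.trans (hβ1 r), ?_⟩
      refine hNRT κ κ0 (Φ (MonoidAlgebra.single 1 r)) (Φ0 (MonoidAlgebra.single 1 r)) k (β r)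
        (zero_le_one.trans (hβ1 r)) ?_ (hβ2 r)
      intro l
      have e1 : ∀ (κ' : Type) [Fintype κ'] [DecidableEq κ'] (Φ' : MonoidAlgebra R E →+* Matrix κ' κ' ℂ),
          StarHom Φ' → ((Φ' (MonoidAlgebra.single 1 r))ᴴ * Φ' (MonoidAlgebra.single 1 r)) ^ l =
            Φ' (MonoidAlgebra.single 1 ((star r * r) ^ l)) := by
        intro κ' _ _ Φ' hΦ'
        have h2 := hΦ' 1 r
        rw [inv_one] at h2
        have h3 : (Φ' (MonoidAlgebra.single 1 r))ᴴ = Φ' (MonoidAlgebra.single 1 (star r)) := h2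
        rw [h3, ← map_mul, ← map_pow, MonoidAlgebra.single_mul_single, one_mul,
          MonoidAlgebra.single_pow, one_pow]
      rw [e1 κ Φ hΦ, e1 κ0 Φ0 hΦ0]
      exact htr 1 H.one_mem _
    have hbdx := hBDX R E (E ⧸ K) ι κ Φ (QuotientGroup.mk' K) Ξ β hΞ hΦ hβΦ
    -- the constants
    set b : ℝ := min b1 (min (1 / (Bn h + 1)) 1) with hb
    have hh0 : 0 < Bn h + 1 := by linarith [hBn0 h]
    have hb0 : 0 < b := lt_min hb1 (lt_min (by positivity) one_pos)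
    have hbb1 : b ≤ b1 := min_le_left _ _
    have hbh : b * Bn h ≤ 1 := by
      have h1 : b ≤ 1 / (Bn h + 1) := (min_le_right _ _).trans (min_le_left _ _)
      have h2 : b * (Bn h + 1) ≤ 1 := by rwa [le_div_iff₀ hh0] at h1
      nlinarith
    have hb11 : b ≤ 1 := (min_le_right _ _).trans (min_le_right _ _)
    set β' : ℝ := Bn h' + 1 with hβ'
    have hβ'1 : 1 ≤ β' := by linarith [hBn0 h']
    set e : ℝ := b / (2 * β') with he
    have he0 : 0 < e := by positivity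
    have he1 : e ≤ 1 := by
      rw [he, div_le_one (by positivity)]
      linarith
    have ht : ‖ex θ - 1‖ * Bn x' ≤ 1 / 2 := by
      have h1 := TRIM.ex_sub_one θ
      have h2 : 2 * Real.pi * |θ| * (Bn x' + 1) ≤ 1 / 2 := by
        have h3 : |θ| * (4 * Real.pi * (Bn x' + 1)) < 1 := by
          rwa [lt_div_iff₀ (by positivity)] at hθ2
        nlinarith
      calc ‖ex θ - 1‖ * Bn x' ≤ (2 * Real.pi * |θ|) * Bn x' :=
            mul_le_mul_of_nonneg_right h1 (hBn0 x')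
        _ ≤ 2 * Real.pi * |θ| * (Bn x' + 1) := by
            apply mul_le_mul_of_nonneg_left (by linarith) (by positivity)
        _ ≤ 1 / 2 := h2
    have hgap : Gap ((b : ℂ) • y) e := by
      intro l _ _ ρ
      have h1 := hMGP.1 ((ι × κ) × l) (twist ρ y) (c⁻¹ • twist ρ (psh Ξ h')) (twist ρ (psh Ξ x'))
        (ex θ - 1) b (Bn h) β' (Bn x') (HGAM.twist_herm ρ y hyh) ?_ ?_ ?_ ?_ (hBn0 h)
        (by positivity) (hBn0 x') ht hb0 hbh
      · rw [MNAM.twist_smul]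
        exact h1
      · rw [hy, MNAM.twist_smul, Matrix.smul_mul, Matrix.mul_smul, smul_smul, inv_mul_cancel₀ hc0,
          one_smul, ← HGAM.twist_mul, hyi]
        ext p q
        change repA ρ (((1 : Matrix (ι × κ) (ι × κ) (CG (E ⧸ K))) + (ex θ - 1) • psh Ξ x') p.1 q.1) p.2 q.2 = _
        rw [Matrix.add_apply, map_add, Matrix.smul_apply, map_smul, Matrix.add_apply, Matrix.add_apply,
          Matrix.smul_apply, ← HGAM.twist_one (ι := ι × κ) ρ]
        rfl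
      · rw [hy, MNAM.twist_smul]
        exact bd_smul _ _ _ hc1 (hbdx h l ρ)
      · refine bd_smul _ _ _ (by rw [norm_inv, hc1, inv_one]) ?_
        exact hBDA.2.2.2.1 _ _ (Bn h') β' (hBn0 h') (by linarith) (hbdx h' l ρ)
      · exact hbdx x' l ρ
    -- the limit
    have hlim1 : Tendsto (fun j => tau (it ((b : ℂ) • y) j)) atTop
        (𝓝 (((sgn (augM ((b : ℂ) • y)) : ℤ) : ℂ))) := by
      have h1 := fun j => hPG (ι × κ) ((b : ℂ) • y) e he0 he1 hgap j
      rw [tendsto_iff_norm_sub_tendsto_zero]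
      refine squeeze_zero (fun _ => norm_nonneg _) h1 ?_
      have h2 : Tendsto (del e) atTop (𝓝 0) := by
        obtain ⟨-, h2, j0, h3⟩ := specSCA e he0 he1
        have h4 : Tendsto (fun i => del e (i + j0)) atTop (𝓝 0) := by
          refine squeeze_zero (fun i => (h2 _).1) (fun i => ?_)
            (tendsto_pow_atTop_nhds_zero_of_lt_one (by norm_num : (0 : ℝ) ≤ 1 / 2) (by norm_num))
          have h5 := h3 i
          rw [add_comm]
          refine h5.trans ?_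
          exact pow_le_pow_of_le_one (by norm_num) (by norm_num) Nat.lt_two_pow_self.le
        exact (tendsto_add_atTop_iff_nat j0).1 h4
      have := h2.const_mul (Fintype.card (ι × κ) : ℝ)
      rwa [mul_zero] at this
    have hmom : ∀ j, tau (it ((b : ℂ) • y) j) = k * tauZ (z : E ⧸ H) θ (it ((b : ℂ) • y0) j) := by
      intro j
      have h1 := hMOM (Matrix (ι × κ) (ι × κ) (CG (E ⧸ K))) (psh Ξ h) (b * c) tauL j
      have h2 : (b : ℂ) • y = ((b : ℂ) * c) • psh Ξ h := by rw [hy, smul_smul]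
      rw [h2, hmom0]
      refine Eq.trans h1 ?_
      unfold momJ
      rw [Finset.mul_sum]
      refine Finset.sum_congr rfl fun l _ => ?_
      have h3 : (psh Ξ h) ^ l = psh Ξ (h ^ l) := by rw [← hΨ, ← hΨ, map_pow]
      have h4 : tauL ((psh Ξ h) ^ l) = k * trW Φ0 (chiH H z θ) (h ^ l) := by
        rw [h3]
        refine Eq.trans (haug (h ^ l)).2 ?_
        rw [QuotientGroup.ker_mk']
        exact (hTRK R E ι κ0 H K z Φ0 θ inferInstance hz hK hpow hΦ0z).1 κ Φ k hΦz htr (h ^ l)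
      beta_reduce
      rw [h4]
      ring
    have hlim2 : Tendsto (fun j => (k : ℂ) * tauZ (z : E ⧸ H) θ (it ((b : ℂ) • y0) j)) atTop
        (𝓝 (k * ((Polynomial.aeval θ Q : ℝ) : ℂ))) := (hlim b hb0 hbb1 θ hθ1).const_mul _
    have heq : (((sgn (augM ((b : ℂ) • y)) : ℤ) : ℂ)) = k * ((Polynomial.aeval θ Q : ℝ) : ℂ) := by
      refine tendsto_nhds_unique hlim1 ?_
      have : (fun j => tau (it ((b : ℂ) • y) j)) =
          fun j => (k : ℂ) * tauZ (z : E ⧸ H) θ (it ((b : ℂ) • y0) j) := funext hmom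
      rw [this]
      exact hlim2
    have haugy : augM ((b : ℂ) • y) = (b : ℂ) • (c • blk Φ h) := by
      rw [MNAM.augM_smul, hy, MNAM.augM_smul, (haug h).1]
    constructor
    · obtain ⟨g1, g2⟩ := specAUG (E ⧸ K) (ι × κ) ((b : ℂ) • y) e hgap
      have h1 := hMGP.2 (ι × κ) (augM ((b : ℂ) • y)) e he0 g1 g2
      rw [haugy, smul_smul] at h1
      have hbc : (b : ℂ) * c ≠ 0 := mul_ne_zero (by exact_mod_cast hb0.ne') hc0
      rw [Matrix.isUnit_iff_isUnit_det] at h1 ⊢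
      rw [Matrix.det_smul, IsUnit.mul_iff] at h1
      exact h1.2
    · rw [haugy, specSGS _ _ b hb0] at heq
      exact_mod_cast heq
  · -- C*-algebras
    intro B _ ψ ω θ hψ hθ hψz hω1 hω2 hunit
    have hθ1 : |θ| < δ1 := lt_of_lt_of_le hθ (min_le_left _ _)
    have hX : (c • h.map ψ)ᴴ = c • h.map ψ := map_herm ψ hψ ε c hc h hh
    have hXu : IsUnit (c • h.map ψ) := by
      obtain ⟨u, hu⟩ := hunit
      have : c • h.map ψ = ((Units.mk0 c hc0) • u : (Matrix ι ι B)ˣ) := by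
        rw [Units.val_smul, hu]
        rfl
      rw [this]
      exact Units.isUnit _
    obtain ⟨hS, b3, hb3, hlim3⟩ := hCSM B ι (c • h.map ψ) hX hXu
    refine ⟨hS, fun S hSS => ?_⟩
    set b : ℝ := min b1 b3 with hb
    have hb0 : 0 < b := lt_min hb1 hb3
    have h1 := hlim3 b hb0 (min_le_right _ _) S hSS ω
    have h2 := hlim b hb0 (min_le_left _ _) θ hθ1
    refine tendsto_nhds_unique h1 ?_
    have h3 : (fun j => ∑ i, ω ((it ((b : ℂ) • (c • h.map ψ)) j) i i)) =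
        fun j => tauZ (z : E ⧸ H) θ (it ((b : ℂ) • y0) j) := by
      funext j
      rw [hmom0]
      let L : Matrix ι ι B →ₗ[ℂ] ℂ :=
        { toFun := fun X => ∑ i, ω (X i i)
          map_add' := fun X Y => by
            rw [← Finset.sum_add_distrib]
            exact Finset.sum_congr rfl fun i _ => map_add ω _ _
          map_smul' := fun t X => by
            rw [RingHom.id_apply, Finset.smul_sum]
            exact Finset.sum_congr rfl fun i _ => map_smul ω _ _ }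
      have h4 := hMOM (Matrix ι ι B) (h.map ψ) (b * c) L j
      have h5 : (b : ℂ) • (c • h.map ψ) = ((b : ℂ) * c) • h.map ψ := by rw [smul_smul]
      rw [h5]
      refine Eq.trans h4 ?_
      congr 1
      funext l
      have h6 : (h.map ψ) ^ l = (h ^ l).map ψ := by
        have : h.map ψ = (ψ.mapMatrix) h := rfl
        rw [this, ← map_pow]
        rfl
      rw [h6]
      exact (hTRK R E ι κ0 H K z Φ0 θ inferInstance hz hK hpow hΦ0z).2 B ψ ω.toLinearMap hψz hω1 hω2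
        (h ^ l)
    rw [h3]
    exact h2

end Pool.Agent.Lib.MP8a3537.TW
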