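import Pool.Agent.Lib.MP_8a3537_gt.TW.Spec
import Pool.Agent.Lib.MP_8a3537_gt.SG.MNA

/-! # LIM: the canonical traces of the iterates converge to the signature -/

set_option autoImplicit false

namespace Pool.Agent.Lib.MP8a3537.TW.LIMM

open Pool.Agent.Lib.MP8a3537.SG
open Filter Topology
open scoped BigOperators ComplexOrder

theorem mapM_smul {G H : Type} [Group G] [Group H] {ι : Type} (π : G →* H) (c : ℂ)
    (x : Matrix ι ι (CG G)) : mapM π (c • x) = c • mapM π x := by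
  ext1 p q
  change mapA π (c • x p q) = c • mapA π (x p q)
  rw [map_smul]

theorem del_tendsto (hSCA : SpecSCA) (e : ℝ) (he : 0 < e) (he1 : e ≤ 1) :
    Tendsto (fun j => del e j) atTop (𝓝 0) := by
  obtain ⟨-, h2, j0, hj0⟩ := hSCA e he he1
  rw [← tendsto_add_atTop_iff_nat j0]
  refine squeeze_zero (fun i => (h2 (i + j0)).1) (fun i => ?_)
    (tendsto_pow_atTop_nhds_zero_of_lt_one (r := (1 / 2 : ℝ)) (by norm_num) (by norm_num))
  rw [add_comm i j0]
  refine (hj0 i).trans ?_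
  exact pow_le_pow_of_le_one (by norm_num) (by norm_num) Nat.lt_two_pow_self.le

theorem gap_scale {G : Type} [Group G] {ι : Type} [Fintype ι] [DecidableEq ι] (y : Matrix ι ι (CG G))
    (b1 e1 b : ℝ) (hb1 : 0 < b1) (hb : 0 < b) (hbb : b ≤ b1) (h : Gap ((b1 : ℂ) • y) e1) :
    Gap ((b : ℂ) • y) (e1 * b / b1) := by
  intro κ _ _ ρ
  obtain ⟨h1, h2⟩ := h κ ρ
  have hr : 0 < b / b1 := by positivity
  have hr1 : b / b1 ≤ 1 := by rw [div_le_one hb1]; exact hbb
  have e : twist ρ ((b : ℂ) • y) = ((b / b1 : ℝ) : ℂ) • twist ρ ((b1 : ℂ) • y) := by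
    rw [MNAM.twist_smul, MNAM.twist_smul, smul_smul]
    congr 1
    have : (b1 : ℂ) ≠ 0 := by exact_mod_cast hb1.ne'
    push_cast
    field_simp
  refine ⟨?_, ?_⟩
  · rw [e]
    unfold Matrix.IsHermitian at h1 ⊢
    rw [Matrix.conjTranspose_smul, h1]
    congr 1
    exact Complex.conj_ofReal _
  · intro μ v hv hμ
    have h3 : (twist ρ ((b1 : ℂ) • y)).mulVec v = ((μ / (b / b1) : ℝ) : ℂ) • v := by
      rw [e, Matrix.smul_mulVec] at hμ
      have hne : ((b / b1 : ℝ) : ℂ) ≠ 0 := by exact_mod_cast hr.ne'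
      have h4 : ((b / b1 : ℝ) : ℂ) • (twist ρ ((b1 : ℂ) • y)).mulVec v
          = ((b / b1 : ℝ) : ℂ) • (((μ / (b / b1) : ℝ) : ℂ) • v) := by
        rw [hμ, smul_smul]
        congr 1
        rw [← Complex.ofReal_mul, mul_div_cancel₀ _ hr.ne']
      exact smul_right_injective _ hne h4
    obtain ⟨h4, h5⟩ := h2 _ v hv h3
    rw [abs_div, abs_of_pos hr] at h4 h5
    constructor
    · rw [le_div_iff₀ hr] at h4
      calc e1 * b / b1 = e1 * (b / b1) := by ring
        _ ≤ |μ| := h4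
    · rw [div_le_one hr] at h5
      exact h5.trans hr1

end Pool.Agent.Lib.MP8a3537.TW.LIMM

namespace Pool.Agent.Lib.MP8a3537.TW

open Pool.Agent.Lib.MP8a3537.SG
open Filter Topology LIMM

theorem specLIM (hPGR : SpecPGR) (hHGA : SpecHGA) (hRFG : SpecRFG) (hSGS : SpecSGS)
    (hPUS : SpecPUS) (hGPH : SpecGPH) (hSCA : SpecSCA) : SpecLIM := by
  intro G _ hG ι _ _ y hy hu
  obtain ⟨u, rfl⟩ := hu
  obtain ⟨G0, h0, h0', hfg, hG0, hh0, h01, h02, hmap, htau⟩ :=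
    hRFG G ι (u : Matrix ι ι (CG G)) ((u⁻¹ : (Matrix ι ι (CG G))ˣ) : Matrix ι ι (CG G)) hG hy
      (Units.mul_inv u) (Units.inv_mul u)
  obtain ⟨b1, e1, hb1, he1, he11, hgap⟩ := hHGA G0 ι h0 h0' hh0 h01 h02
  refine ⟨b1, hb1, fun b hb hbb => ?_⟩
  have hgap' := gap_scale h0 b1 e1 b hb1 hb hbb hgap
  have hr : 0 < b / b1 := by positivity
  have hr1 : b / b1 ≤ 1 := by rw [div_le_one hb1]; exact hbb
  have he0 : 0 < e1 * b / b1 := by positivity
  have he2 : e1 * b / b1 ≤ 1 := by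
    rw [mul_div_assoc]
    nlinarith
  have hP : P G0 := hPGR G0 hfg hG0
  have h1 := hP ι ((b : ℂ) • h0) (e1 * b / b1) he0 he2 hgap'
  have h2 : ∀ j, tau (it ((b : ℂ) • (u : Matrix ι ι (CG G))) j) = tau (it ((b : ℂ) • h0) j) := by
    intro j
    rw [← hmap, ← mapM_smul, ← hPUS.2.1 G0 G ι G0.subtype _ j, htau]
  have h3 : sgn (augM ((b : ℂ) • h0)) = sgn (augM (u : Matrix ι ι (CG G))) := by
    rw [MNAM.augM_smul, hSGS ι _ b hb, ← hmap, hGPH.2.2]
  rw [tendsto_iff_norm_sub_tendsto_zero]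
  have h4 : Tendsto (fun j => (Fintype.card ι : ℝ) * del (e1 * b / b1) j) atTop (𝓝 0) := by
    have := (del_tendsto hSCA _ he0 he2).const_mul (Fintype.card ι : ℝ)
    rwa [mul_zero] at this
  refine squeeze_zero (fun _ => norm_nonneg _) (fun j => ?_) h4
  rw [h2 j, ← h3]
  exact h1 j

end Pool.Agent.Lib.MP8a3537.TW
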