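import Pool.Agent.Lib.MP_8a3537_gt.TW.Spec

/-!
# KER: lifting inverses modulo `z - 1`
-/

set_option linter.unusedVariables false

namespace Pool.Agent.Lib.MP8a3537.TW

open Pool.Agent.Lib.MP8a3537.SG
open Filter Topology
open scoped BigOperators Pointwise ComplexOrder Matrix

namespace KERM

section
variable {R E : Type} [Ring R] [Group E]

/-- `z - 1` -/
noncomputable def zm (R : Type) {E : Type} [Ring R] [Group E] (z : E) : MonoidAlgebra R E :=
  MonoidAlgebra.single z 1 - 1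

theorem pow_mem (z : E) (k : ℤ) :
    ∃ v : MonoidAlgebra R E, MonoidAlgebra.single (z ^ k) 1 - 1 = zm R z * v := by
  have hs : ∀ k : ℤ, MonoidAlgebra.single (z ^ (k + 1)) (1 : R) - 1
      = zm R z * MonoidAlgebra.single (z ^ k) 1 + (MonoidAlgebra.single (z ^ k) 1 - 1) := by
    intro k
    unfold zm
    rw [sub_mul, MonoidAlgebra.single_mul_single, one_mul, one_mul, ← zpow_one_add, add_comm 1 k]
    abel
  induction k using Int.induction_on with
  | zero =>
    refine ⟨0, ?_⟩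
    rw [zpow_zero, mul_zero]
    exact sub_self _
  | succ n ih =>
    obtain ⟨v, hv⟩ := ih
    refine ⟨MonoidAlgebra.single (z ^ (n : ℤ)) 1 + v, ?_⟩
    rw [hs, hv, mul_add]
  | pred n ih =>
    obtain ⟨v, hv⟩ := ih
    refine ⟨v - MonoidAlgebra.single (z ^ (-(n : ℤ) - 1)) 1, ?_⟩
    have h := hs (-(n : ℤ) - 1)
    rw [sub_add_cancel, hv] at h
    rw [mul_sub, h]
    abel

theorem diff (Z : Subgroup E) [Z.Normal] (z : E) (hZ : Z = Subgroup.zpowers z)
    (hz : ∀ g, g * z = z * g) (x : MonoidAlgebra R E) :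
    ∃ v : MonoidAlgebra R E, x - MonoidAlgebra.mapDomain (fun q : E ⧸ Z => q.out)
      (MonoidAlgebra.mapDomainRingHom R (QuotientGroup.mk' Z) x) = zm R z * v := by
  induction x using MonoidAlgebra.induction_linear with
  | zero =>
    refine ⟨0, ?_⟩
    rw [map_zero, MonoidAlgebra.mapDomain_zero, sub_zero, mul_zero]
  | add x y hx hy =>
    obtain ⟨v, hv⟩ := hx
    obtain ⟨w, hw⟩ := hy
    refine ⟨v + w, ?_⟩
    rw [map_add, MonoidAlgebra.mapDomain_add, mul_add, ← hv, ← hw]
    abel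
  | single g r =>
    have h1 : MonoidAlgebra.mapDomainRingHom R (QuotientGroup.mk' Z) (MonoidAlgebra.single g r)
        = MonoidAlgebra.single (QuotientGroup.mk' Z g) r := MonoidAlgebra.mapDomain_single
    rw [h1, MonoidAlgebra.mapDomain_single]
    obtain ⟨k, hk⟩ : ∃ k : ℤ, g = z ^ k * (QuotientGroup.mk' Z g).out := by
      have h2 : ((QuotientGroup.mk' Z g).out : E ⧸ Z) = (g : E ⧸ Z) := by
        rw [QuotientGroup.out_eq']
        rfl
      have h3 : (QuotientGroup.mk' Z g).out⁻¹ * g ∈ Z := (QuotientGroup.eq).1 h2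
      have h4 : (QuotientGroup.mk' Z g).out⁻¹ * g ∈ Subgroup.zpowers z :=
        (SetLike.ext_iff.1 hZ _).1 h3
      rw [Subgroup.mem_zpowers_iff] at h4
      obtain ⟨k, hk⟩ := h4
      refine ⟨k, ?_⟩
      have hc : Commute (z ^ k) (QuotientGroup.mk' Z g).out := by
        have : Commute z (QuotientGroup.mk' Z g).out := (hz _).symm
        exact this.zpow_left k
      rw [hc.eq, hk, mul_inv_cancel_left]
    obtain ⟨v, hv⟩ := pow_mem (R := R) z k
    refine ⟨v * MonoidAlgebra.single (QuotientGroup.mk' Z g).out r, ?_⟩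
    rw [← mul_assoc, ← hv, sub_mul, MonoidAlgebra.single_mul_single, one_mul, one_mul, ← hk]

theorem ker (Z : Subgroup E) [Z.Normal] (z : E) (hZ : Z = Subgroup.zpowers z)
    (hz : ∀ g, g * z = z * g) (x : MonoidAlgebra R E)
    (hx : MonoidAlgebra.mapDomainRingHom R (QuotientGroup.mk' Z) x = 0) :
    ∃ v : MonoidAlgebra R E, x = zm R z * v := by
  obtain ⟨v, hv⟩ := diff Z z hZ hz x
  rw [hx, MonoidAlgebra.mapDomain_zero, sub_zero] at hv
  exact ⟨v, hv⟩

theorem kerM (Z : Subgroup E) [Z.Normal] (z : E) (hZ : Z = Subgroup.zpowers z)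
    (hz : ∀ g, g * z = z * g) (ι : Type) [Fintype ι] [DecidableEq ι]
    (x : Matrix ι ι (MonoidAlgebra R E))
    (hx : x.map (MonoidAlgebra.mapDomainRingHom R (QuotientGroup.mk' Z)) = 1) :
    ∃ v : Matrix ι ι (MonoidAlgebra R E),
      x = 1 + Matrix.scalar ι (MonoidAlgebra.single z 1 - 1) * v := by
  have h1 : ∀ i j, ∃ v : MonoidAlgebra R E, x i j - (1 : Matrix ι ι (MonoidAlgebra R E)) i j
      = zm R z * v := by
    intro i j
    apply ker Z z hZ hz
    rw [map_sub]
    have h2 : MonoidAlgebra.mapDomainRingHom R (QuotientGroup.mk' Z) (x i j)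
        = (1 : Matrix ι ι (MonoidAlgebra R (E ⧸ Z))) i j := by
      rw [← hx]
      rfl
    rw [h2, Matrix.one_apply, Matrix.one_apply]
    split_ifs
    · rw [map_one, sub_self]
    · rw [map_zero, sub_self]
  choose v hv using h1
  refine ⟨Matrix.of v, ?_⟩
  ext1 i j
  rw [Matrix.add_apply, Matrix.scalar_apply, Matrix.diagonal_mul]
  have h3 := hv i j
  unfold zm at h3
  rw [Matrix.of_apply, ← h3]
  abel

theorem surj (Z : Subgroup E) [Z.Normal] (ι : Type) (N : Matrix ι ι (MonoidAlgebra R (E ⧸ Z))) :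
    ∃ N' : Matrix ι ι (MonoidAlgebra R E),
      N'.map (MonoidAlgebra.mapDomainRingHom R (QuotientGroup.mk' Z)) = N := by
  have h1 : ∀ i j, ∃ v : MonoidAlgebra R E,
      MonoidAlgebra.mapDomainRingHom R (QuotientGroup.mk' Z) v = N i j := by
    intro i j
    generalize N i j = y
    induction y using MonoidAlgebra.induction_linear with
    | zero => exact ⟨0, map_zero _⟩
    | add x y hx hy =>
      obtain ⟨v, hv⟩ := hx
      obtain ⟨w, hw⟩ := hy
      exact ⟨v + w, by rw [map_add, hv, hw]⟩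
    | single g r =>
      obtain ⟨u, rfl⟩ := QuotientGroup.mk'_surjective Z g
      exact ⟨MonoidAlgebra.single u r, MonoidAlgebra.mapDomain_single⟩
  choose v hv using h1
  exact ⟨Matrix.of v, by ext1 i j; exact hv i j⟩

end

end KERM

open KERM in
theorem specKER : SpecKER := by
  intro R E _ _ z Z _ hZ hz ι _ _ h hu
  obtain ⟨u, hu⟩ := hu
  obtain ⟨h', hh'⟩ := surj Z ι (↑u⁻¹ : Matrix ι ι (MonoidAlgebra R (E ⧸ Z)))
  have h1 : (h * h').map (MonoidAlgebra.mapDomainRingHom R (QuotientGroup.mk' Z)) = 1 := by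
    rw [Matrix.map_mul, hh', ← hu]
    exact u.mul_inv
  have h2 : (h' * h).map (MonoidAlgebra.mapDomainRingHom R (QuotientGroup.mk' Z)) = 1 := by
    rw [Matrix.map_mul, hh', ← hu]
    exact u.inv_mul
  obtain ⟨x, hx⟩ := kerM Z z hZ hz ι _ h1
  obtain ⟨x', hx'⟩ := kerM Z z hZ hz ι _ h2
  exact ⟨h', x, x', hx, hx'⟩

end Pool.Agent.Lib.MP8a3537.TW
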