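import Pool.Agent.Lib.MP_8a3537_gt.TW.Spec

/-!
# RED: reduction to finitely generated groups, coefficients in a ring
-/

set_option linter.unusedVariables false

namespace Pool.Agent.Lib.MP8a3537.TW

open Pool.Agent.Lib.MP8a3537.SG
open Filter Topology
open scoped BigOperators Pointwise ComplexOrder Matrix

namespace REDM

theorem nil_inj {A B : Type} [Group A] [Group B] (f : A →* B) (hf : Function.Injective f)
    (hB : Group.IsNilpotent B) : Group.IsNilpotent A := by
  have := hB
  exact Group.nilpotent_of_mulEquiv (MonoidHom.ofInjective hf).symm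

theorem rtfn_inj {G G' : Type} [Group G] [Group G'] (f : G →* G') (hf : Function.Injective f)
    (hG : RTFN G') : RTFN G := by
  intro g hg
  have hg1 : f g ≠ 1 := fun h => hg (hf (by rw [h, map_one]))
  obtain ⟨K, nK, hgK, iK, tK⟩ := hG (f g) hg1
  have := nK
  have nK' : (K.comap f).Normal := Subgroup.Normal.comap nK f
  let φ : G →* G' ⧸ K := (QuotientGroup.mk' K).comp f
  have hker : φ.ker = K.comap f := by
    ext u
    rw [MonoidHom.mem_ker, Subgroup.mem_comap]
    show (QuotientGroup.mk' K) (f u) = 1 ↔ _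
    rw [QuotientGroup.mk'_apply, QuotientGroup.eq_one_iff]
  refine ⟨K.comap f, nK', ?_, ?_, ?_⟩
  · rw [Subgroup.mem_comap]
    exact hgK
  · have h1 : Group.IsNilpotent (G ⧸ φ.ker) :=
      nil_inj (QuotientGroup.kerLift φ) (QuotientGroup.kerLift_injective φ) iK
    have := h1
    exact Group.nilpotent_of_mulEquiv (QuotientGroup.quotientMulEquivOfEq hker)
  · intro x n hn hx
    obtain ⟨u, rfl⟩ := QuotientGroup.mk_surjective x
    rw [← QuotientGroup.mk_pow, QuotientGroup.eq_one_iff, Subgroup.mem_comap] at hx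
    rw [QuotientGroup.eq_one_iff, Subgroup.mem_comap]
    have h2 : ((f u : G') : G' ⧸ K) ^ n = 1 := by
      rw [← QuotientGroup.mk_pow, QuotientGroup.eq_one_iff, ← map_pow]
      exact hx
    exact (QuotientGroup.eq_one_iff _).1 (tK _ n hn h2)

theorem exists_lift {R E : Type} [Ring R] [Group E] (E0 : Subgroup E) (x : MonoidAlgebra R E)
    (hx : ∀ g, x.coeff g ≠ 0 → g ∈ E0) :
    ∃ x0 : MonoidAlgebra R E0, MonoidAlgebra.mapDomainRingHom R E0.subtype x0 = x := by
  refine ⟨MonoidAlgebra.comapDomain E0.subtype (Subgroup.subtype_injective E0) x, ?_⟩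
  show MonoidAlgebra.mapDomain E0.subtype _ = x
  apply MonoidAlgebra.mapDomain_comapDomain
  intro g hg
  exact ⟨⟨g, hx g (Finsupp.mem_support_iff.1 hg)⟩, rfl⟩

theorem inj {R E : Type} [Ring R] [Group E] (E0 : Subgroup E) :
    Function.Injective (MonoidAlgebra.mapDomainRingHom R E0.subtype) := by
  intro x y hxy
  exact MonoidAlgebra.mapDomain_injective (Subgroup.subtype_injective E0) hxy

end REDM

open REDM in
theorem specRED : SpecRED := by
  refine ⟨?_, fun R E _ _ E0 => inj E0, fun G G' _ _ f hf hG => rtfn_inj f hf hG⟩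
  intro R E _ _ z ι _ n hs
  classical
  let T : Finset E := insert z ((Finset.univ : Finset (Fin n × ι × ι)).biUnion fun p =>
    (hs p.1 p.2.1 p.2.2).coeff.support)
  let E0 : Subgroup E := Subgroup.closure (T : Set E)
  have hz : z ∈ E0 := Subgroup.subset_closure (Finset.mem_coe.2 (Finset.mem_insert_self _ _))
  have hT : ∀ k i j g, (hs k i j).coeff g ≠ 0 → g ∈ E0 := by
    intro k i j g hg
    apply Subgroup.subset_closure
    rw [Finset.mem_coe]
    refine Finset.mem_insert_of_mem ?_
    rw [Finset.mem_biUnion]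
    exact ⟨(k, i, j), Finset.mem_univ _, Finsupp.mem_support_iff.2 hg⟩
  have e1 : ∀ k i j, ∃ x0 : MonoidAlgebra R E0,
      MonoidAlgebra.mapDomainRingHom R E0.subtype x0 = hs k i j := fun k i j =>
    exists_lift E0 _ fun g hg => hT k i j g hg
  choose a ha using e1
  refine ⟨E0, ?_, hz, fun k => Matrix.of (a k), ?_⟩
  · rw [Group.fg_iff_subgroup_fg]
    exact ⟨T, rfl⟩
  · intro k
    ext1 i j
    exact ha k i j

end Pool.Agent.Lib.MP8a3537.TW
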