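import Pool.Agent.Lib.MP_8a3537_gt.TW.Spec

/-!
# TWG: Theorem 2 (twisted signatures) for arbitrary groups `E`
-/

set_option linter.unusedVariables false

namespace Pool.Agent.Lib.MP8a3537.TW

open Pool.Agent.Lib.MP8a3537.SG
open Filter Topology
open scoped BigOperators Pointwise ComplexOrder Matrix

namespace TWGM

section

variable {R E : Type} [Ring R] [Group E]

/-- the inclusion `R[E0] → R[E]` -/
noncomputable abbrev inc (R : Type) [Ring R] {E : Type} [Group E] (E0 : Subgroup E) :
    MonoidAlgebra R E0 →+* MonoidAlgebra R E :=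
  MonoidAlgebra.mapDomainRingHom R E0.subtype

theorem inc_single (E0 : Subgroup E) (g : E0) (r : R) :
    inc R E0 (MonoidAlgebra.single g r) = MonoidAlgebra.single (g : E) r :=
  MonoidAlgebra.mapDomain_single

theorem inc_coeff (E0 : Subgroup E) (x : MonoidAlgebra R E0) (g : E0) :
    (inc R E0 x).coeff (g : E) = x.coeff g := by
  induction x using MonoidAlgebra.induction_linear with
  | zero => rw [map_zero]; rfl
  | add x y hx hy =>
    rw [map_add, MonoidAlgebra.coeff_add, MonoidAlgebra.coeff_add, Finsupp.add_apply,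
      Finsupp.add_apply, hx, hy]
  | single a r =>
    rw [inc_single, MonoidAlgebra.coeff_single, MonoidAlgebra.coeff_single]
    by_cases h : a = g
    · rw [h, Finsupp.single_eq_same, Finsupp.single_eq_same]
    · rw [Finsupp.single_eq_of_ne (fun h' => h h'.symm), Finsupp.single_eq_of_ne]
      exact fun h' => h (Subtype.ext h'.symm)

theorem quot_inj (E0 H : Subgroup E) [H.Normal] [(H.subgroupOf E0).Normal] :
    Function.Injective (QuotientGroup.map (H.subgroupOf E0) H E0.subtype le_rfl) := by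
  rw [injective_iff_map_eq_one]
  intro x hx
  obtain ⟨u, rfl⟩ := QuotientGroup.mk_surjective x
  rw [QuotientGroup.map_mk, QuotientGroup.eq_one_iff] at hx
  rw [QuotientGroup.eq_one_iff, Subgroup.mem_subgroupOf]
  exact hx

end

end TWGM

open TWGM in
/-- **TWG**. -/
theorem specTWG (hTWI : SpecTWI) (hKER : SpecKER) (hRED : SpecRED) : SpecTWG := by
  intro R E _ _ _ H K Z _ _ _ z hH hK hcen hKH hZ hzH ι _ _ h ε c hu hh hinv κ0 _ _ Φ0 hΦ0 hΦz
  obtain ⟨h', x, x', hX⟩ := hKER R E z Z hZ hcen ι h hinv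
  obtain ⟨E0, hFG, hzE, hs0, hhs⟩ := hRED.1 R E z ι 4 ![h, h', x, x']
  have e0 : (hs0 0).map (inc R E0) = h := hhs 0
  have e1 : (hs0 1).map (inc R E0) = h' := hhs 1
  have e2 : (hs0 2).map (inc R E0) = x := hhs 2
  have e3 : (hs0 3).map (inc R E0) = x' := hhs 3
  generalize hs0 0 = a at e0
  generalize hs0 1 = a' at e1
  generalize hs0 2 = y at e2
  generalize hs0 3 = y' at e3
  have hinj : Function.Injective (inc R E0) := hRED.2.1 R E E0
  have hmi : Function.Injective (fun A : Matrix ι ι (MonoidAlgebra R E0) => A.map (inc R E0)) :=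
    Matrix.map_injective hinj
  let z0 : E0 := ⟨z, hzE⟩
  have hsc : ∀ (A B : Matrix ι ι (MonoidAlgebra R E0)) (x0 : Matrix ι ι (MonoidAlgebra R E0)),
      A.map (inc R E0) * B.map (inc R E0) = 1 + Matrix.scalar ι (MonoidAlgebra.single z 1 - 1) *
        x0.map (inc R E0) →
      A * B = 1 + Matrix.scalar ι (MonoidAlgebra.single z0 1 - 1) * x0 := by
    intro A B x0 hAB
    apply hmi
    have h1 : (Matrix.scalar ι (MonoidAlgebra.single z0 (1 : R) - 1)).map (inc R E0) =
        Matrix.scalar ι (MonoidAlgebra.single z (1 : R) - 1) := by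
      rw [Matrix.scalar_apply, Matrix.scalar_apply, Matrix.diagonal_map (map_zero _)]
      congr 1
      funext _
      rw [map_sub, map_one, inc_single]
    show (A * B).map (inc R E0) = (1 + Matrix.scalar ι (MonoidAlgebra.single z0 (1 : R) - 1) * x0).map
      (inc R E0)
    rw [Matrix.map_mul, Matrix.map_add _ (map_add _), Matrix.map_mul, h1,
      Matrix.map_one _ (map_zero _) (map_one _)]
    exact hAB
  have hX0 : InvZ z0 a a' y y' := by
    constructor
    · apply hsc
      rw [e0, e1, e2]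
      exact hX.right
    · apply hsc
      rw [e0, e1, e3]
      exact hX.left
  have hh0 : EpsHerm ε a := by
    intro i j g
    have h1 := hh i j (g : E)
    rw [← e0, Matrix.map_apply, Matrix.map_apply, inc_coeff] at h1
    rw [h1]
    have h2 := inc_coeff (R := R) E0 (a i j) g⁻¹
    rw [← h2]
    rfl
  have nH : (H.subgroupOf E0).Normal := inferInstance
  have nK : (K.subgroupOf E0).Normal := inferInstance
  have hK0 : K.subgroupOf E0 = H.subgroupOf E0 ⊔ Subgroup.zpowers z0 := by
    ext g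
    rw [Subgroup.mem_subgroupOf, hKH, Subgroup.mem_sup_of_normal_left, Subgroup.mem_sup_of_normal_left]
    constructor
    · rintro ⟨u, hu, v, hv, huv⟩
      obtain ⟨k, rfl⟩ := Subgroup.mem_zpowers_iff.1 hv
      have hzk : z ^ k ∈ E0 := E0.zpow_mem hzE k
      have huE : u ∈ E0 := by
        have : u = (g : E) * (z ^ k)⁻¹ := by rw [← huv, mul_inv_cancel_right]
        rw [this]
        exact E0.mul_mem g.2 (E0.inv_mem hzk)
      refine ⟨⟨u, huE⟩, ?_, z0 ^ k, Subgroup.mem_zpowers_iff.2 ⟨k, rfl⟩, ?_⟩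
      · rw [Subgroup.mem_subgroupOf]
        exact hu
      · apply Subtype.ext
        rw [Subgroup.coe_mul, Subgroup.coe_zpow]
        exact huv
    · rintro ⟨u, hu, v, hv, huv⟩
      obtain ⟨k, rfl⟩ := Subgroup.mem_zpowers_iff.1 hv
      rw [Subgroup.mem_subgroupOf] at hu
      refine ⟨u, hu, z ^ k, Subgroup.mem_zpowers_iff.2 ⟨k, rfl⟩, ?_⟩
      rw [← huv, Subgroup.coe_mul, Subgroup.coe_zpow]
  have hstar : ∀ {A : Type} [Ring A] [StarRing A] (Φ : MonoidAlgebra R E →+* A), StarHom Φ →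
      StarHom (Φ.comp (inc R E0)) := by
    intro A _ _ Φ hΦ g r
    rw [RingHom.comp_apply, RingHom.comp_apply, inc_single, inc_single, hΦ]
    rfl
  have hblk : ∀ {κ : Type} [Fintype κ] [DecidableEq κ] (Φ : MonoidAlgebra R E →+* Matrix κ κ ℂ),
      blk (Φ.comp (inc R E0)) a = blk Φ h := by
    intro κ _ _ Φ
    rw [← e0]
    rfl
  obtain ⟨δ, Q, hδ, hQ, hC1, hC2⟩ := hTWI R E0 (H.subgroupOf E0) (K.subgroupOf E0) z0 hFG
    (hRED.2.2 _ _ _ (quot_inj E0 H) hH) (hRED.2.2 _ _ _ (quot_inj E0 K) hK)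
    (fun g => Subtype.ext (hcen g)) hK0 (fun h1 => hzH (Subgroup.mem_subgroupOf.1 h1)) ι a a' y y' ε c
    hu hh0 hX0 κ0 (Φ0.comp (inc R E0)) (hstar Φ0 hΦ0)
    (by rw [RingHom.comp_apply, inc_single]; exact hΦz)
  rw [hblk] at hQ
  refine ⟨δ, Q, hδ, hQ, ?_, ?_⟩
  · intro κ _ _ Φ k θ hΦ hθ hΦθ htr
    have h1 := hC1 κ (Φ.comp (inc R E0)) k θ (hstar Φ hΦ) hθ
      (by rw [RingHom.comp_apply, inc_single]; exact hΦθ)
      (fun g hg r => by
        rw [RingHom.comp_apply, RingHom.comp_apply, inc_single]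
        exact htr g (Subgroup.mem_subgroupOf.1 hg) r)
    rw [hblk] at h1
    exact h1
  · intro B _ ψ ω θ hψ hθ hψθ h1 h2 h3
    have e4 : a.map (ψ.comp (inc R E0)) = h.map ψ := by
      rw [← e0]
      rfl
    have h4 := hC2 B (ψ.comp (inc R E0)) ω θ (hstar ψ hψ) hθ
      (by rw [RingHom.comp_apply, inc_single]; exact hψθ)
      (fun g hg r => by
        rw [RingHom.comp_apply, RingHom.comp_apply, inc_single]
        exact h1 g (Subgroup.mem_subgroupOf.1 hg) r)
      (fun g hg r => by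
        rw [RingHom.comp_apply, inc_single]
        exact h2 g (fun h5 => hg (Subgroup.mem_subgroupOf.2 h5)) r)
      (by rw [e4]; exact h3)
    rw [e4] at h4
    exact h4

end Pool.Agent.Lib.MP8a3537.TW
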