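import Pool.Agent.Lib.MP_8a3537_gt.TW.Spec

/-! # BDA: rules for bounds of the operator norm -/

set_option linter.unusedVariables false

namespace Pool.Agent.Lib.MP8a3537.TW.BDAM

open Pool.Agent.Lib.MP8a3537.SG
open scoped BigOperators Pointwise ComplexOrder Matrix

variable {κ l : Type} [Fintype κ] [Fintype l]

/-- the `ℓ²` norm -/
noncomputable def nv (v : κ → ℂ) : ℝ := ‖WithLp.toLp 2 v‖

lemma nv_sq (v : κ → ℂ) : nv v ^ 2 = ∑ i, ‖v i‖ ^ 2 := by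
  rw [nv, EuclideanSpace.norm_sq_eq]

lemma nv_nonneg (v : κ → ℂ) : 0 ≤ nv v := norm_nonneg _

lemma nv_add (v w : κ → ℂ) : nv (v + w) ≤ nv v + nv w := by
  rw [nv, nv, nv, WithLp.toLp_add]
  exact norm_add_le _ _

lemma nv_smul (c : ℂ) (v : κ → ℂ) : nv (c • v) = ‖c‖ * nv v := by
  rw [nv, nv, WithLp.toLp_smul]
  exact norm_smul _ _

lemma bd_iff (A : Matrix κ κ ℂ) (β : ℝ) (hβ : 0 ≤ β) : Bd A β ↔ ∀ v, nv (A.mulVec v) ≤ β * nv v := by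
  constructor
  · intro h v
    have h1 := h v
    rw [← nv_sq, ← nv_sq, ← mul_pow] at h1
    exact (pow_le_pow_iff_left₀ (nv_nonneg _) (mul_nonneg hβ (nv_nonneg _)) two_ne_zero).1 h1
  · intro h v
    rw [← nv_sq, ← nv_sq, ← mul_pow]
    exact pow_le_pow_left₀ (nv_nonneg _) (h v) 2

lemma exists_bd (A : Matrix κ κ ℂ) : ∃ β : ℝ, 1 ≤ β ∧ Bd A β := by
  refine ⟨1 + Real.sqrt (∑ i, ∑ j, ‖A i j‖ ^ 2), le_add_of_nonneg_right (Real.sqrt_nonneg _), ?_⟩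
  intro v
  have hS : 0 ≤ ∑ i, ∑ j, ‖A i j‖ ^ 2 := Finset.sum_nonneg fun i _ => Finset.sum_nonneg fun j _ => sq_nonneg _
  have h1 : ∑ i, ‖(A.mulVec v) i‖ ^ 2 ≤ (∑ i, ∑ j, ‖A i j‖ ^ 2) * ∑ i, ‖v i‖ ^ 2 := by
    rw [Finset.sum_mul]
    refine Finset.sum_le_sum fun i _ => ?_
    have h2 : ‖(A.mulVec v) i‖ ≤ ∑ j, ‖A i j‖ * ‖v j‖ := by
      rw [Matrix.mulVec, dotProduct]
      refine (norm_sum_le _ _).trans (le_of_eq ?_)
      exact Finset.sum_congr rfl fun j _ => norm_mul _ _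
    calc ‖(A.mulVec v) i‖ ^ 2 ≤ (∑ j, ‖A i j‖ * ‖v j‖) ^ 2 := pow_le_pow_left₀ (norm_nonneg _) h2 2
      _ ≤ _ := Finset.sum_mul_sq_le_sq_mul_sq _ _ _
  refine h1.trans (mul_le_mul_of_nonneg_right ?_ (Finset.sum_nonneg fun i _ => sq_nonneg _))
  have h3 : (∑ i, ∑ j, ‖A i j‖ ^ 2) = Real.sqrt (∑ i, ∑ j, ‖A i j‖ ^ 2) ^ 2 := (Real.sq_sqrt hS).symm
  have h4 := Real.sqrt_nonneg (∑ i, ∑ j, ‖A i j‖ ^ 2)
  nlinarith

lemma bd_add (A B : Matrix κ κ ℂ) (α β : ℝ) (hα : 0 ≤ α) (hβ : 0 ≤ β) (hA : Bd A α) (hB : Bd B β) :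
    Bd (A + B) (α + β) := by
  rw [bd_iff _ _ hα] at hA
  rw [bd_iff _ _ hβ] at hB
  rw [bd_iff _ _ (add_nonneg hα hβ)]
  intro v
  rw [Matrix.add_mulVec, add_mul]
  exact (nv_add _ _).trans (add_le_add (hA v) (hB v))

lemma bd_mul (A B : Matrix κ κ ℂ) (α β : ℝ) (hA : Bd A α) (hB : Bd B β) : Bd (A * B) (α * β) := by
  intro v
  rw [← Matrix.mulVec_mulVec, mul_pow, mul_assoc]
  exact (hA _).trans (mul_le_mul_of_nonneg_left (hB v) (sq_nonneg α))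

lemma norm_unitary [DecidableEq κ] (U : Matrix.unitaryGroup κ ℂ) (v : κ → ℂ) :
    ∑ i, ‖((U : Matrix κ κ ℂ).mulVec v) i‖ ^ 2 = ∑ i, ‖v i‖ ^ 2 := by
  have h0 : ∀ w : κ → ℂ, ((∑ i, ‖w i‖ ^ 2 : ℝ) : ℂ) = star w ⬝ᵥ w := by
    intro w
    rw [dotProduct, Complex.ofReal_sum]
    refine Finset.sum_congr rfl fun i _ => ?_
    rw [Pi.star_apply, Complex.star_def, Complex.conj_mul']
    push_cast
    ring
  have h1 : (U : Matrix κ κ ℂ)ᴴ * (U : Matrix κ κ ℂ) = 1 := by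
    rw [← Matrix.star_eq_conjTranspose]
    exact (Matrix.mem_unitaryGroup_iff').1 U.2
  have h2 : ((∑ i, ‖((U : Matrix κ κ ℂ).mulVec v) i‖ ^ 2 : ℝ) : ℂ) = ((∑ i, ‖v i‖ ^ 2 : ℝ) : ℂ) := by
    rw [h0, h0, Matrix.star_mulVec, Matrix.dotProduct_mulVec, Matrix.vecMul_vecMul, h1, Matrix.vecMul_one]
  exact_mod_cast h2

lemma bd_unitary [DecidableEq κ] (U : Matrix.unitaryGroup κ ℂ) : Bd (U : Matrix κ κ ℂ) 1 := by
  intro v
  rw [norm_unitary, one_pow, one_mul]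

lemma bd_mono (A : Matrix κ κ ℂ) (α β : ℝ) (hα : 0 ≤ α) (h : α ≤ β) (hA : Bd A α) : Bd A β := by
  intro v
  exact (hA v).trans (mul_le_mul_of_nonneg_right (pow_le_pow_left₀ hα h 2)
    (Finset.sum_nonneg fun i _ => sq_nonneg _))

lemma bd_kron [DecidableEq l] (A : Matrix κ κ ℂ) (U : Matrix.unitaryGroup l ℂ) (α : ℝ) (hA : Bd A α) :
    Bd (Matrix.kroneckerMap (fun a b => a * b) A (U : Matrix l l ℂ)) α := by
  intro v
  -- `w (b, s) = sum_t U s t v (b, t)`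
  set w : κ → l → ℂ := fun b => (U : Matrix l l ℂ).mulVec (fun t => v (b, t)) with hw
  have h1 : ∀ (a : κ) (s : l), ((Matrix.kroneckerMap (fun a b => a * b) A (U : Matrix l l ℂ)).mulVec v) (a, s) =
      (A.mulVec (fun b => w b s)) a := by
    intro a s
    simp only [Matrix.mulVec, dotProduct, Matrix.kroneckerMap_apply, hw]
    rw [Fintype.sum_prod_type]
    refine Finset.sum_congr rfl fun b _ => ?_
    rw [Finset.mul_sum]
    exact Finset.sum_congr rfl fun t _ => by ring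
  rw [Fintype.sum_prod_type, Fintype.sum_prod_type, Finset.sum_comm]
  calc ∑ s, ∑ a, ‖((Matrix.kroneckerMap (fun a b => a * b) A (U : Matrix l l ℂ)).mulVec v) (a, s)‖ ^ 2
      = ∑ s, ∑ a, ‖(A.mulVec (fun b => w b s)) a‖ ^ 2 :=
        Finset.sum_congr rfl fun s _ => Finset.sum_congr rfl fun a _ => by rw [h1]
    _ ≤ ∑ s, α ^ 2 * ∑ b, ‖w b s‖ ^ 2 := Finset.sum_le_sum fun s _ => hA _
    _ = α ^ 2 * ∑ b, ∑ s, ‖w b s‖ ^ 2 := by rw [← Finset.mul_sum, Finset.sum_comm]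
    _ = α ^ 2 * ∑ b, ∑ t, ‖v (b, t)‖ ^ 2 := by
        congr 1
        exact Finset.sum_congr rfl fun b _ => norm_unitary U _

lemma bd_reindex (f : κ ≃ l) (A : Matrix κ κ ℂ) (α : ℝ) (hA : Bd A α) : Bd (Matrix.reindex f f A) α := by
  intro v
  have h1 : ∀ i : κ, ((Matrix.reindex f f A).mulVec v) (f i) = (A.mulVec (fun b => v (f b))) i := by
    intro i
    simp only [Matrix.mulVec, dotProduct, Matrix.reindex_apply, Matrix.submatrix_apply, Equiv.symm_apply_apply]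
    rw [← f.sum_comp]
    exact Finset.sum_congr rfl fun b _ => by rw [Equiv.symm_apply_apply]
  rw [← f.sum_comp, ← f.sum_comp (fun i => ‖v i‖ ^ 2)]
  calc ∑ i, ‖((Matrix.reindex f f A).mulVec v) (f i)‖ ^ 2 = ∑ i, ‖(A.mulVec (fun b => v (f b))) i‖ ^ 2 :=
        Finset.sum_congr rfl fun i _ => by rw [h1]
    _ ≤ _ := hA _

end Pool.Agent.Lib.MP8a3537.TW.BDAM

namespace Pool.Agent.Lib.MP8a3537.TW

open Pool.Agent.Lib.MP8a3537.SG
open scoped BigOperators Pointwise ComplexOrder Matrix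

theorem specBDA : SpecBDA := by
  refine ⟨fun κ _ _ A => BDAM.exists_bd A,
    fun κ _ _ A B α β hα hβ hA hB => ⟨BDAM.bd_add A B α β hα hβ hA hB, BDAM.bd_mul A B α β hA hB⟩,
    fun κ _ _ U => BDAM.bd_unitary U, fun κ _ _ A α β hα h hA => BDAM.bd_mono A α β hα h hA, ?_, ?_⟩
  · intro κ l _ _ _ _ A U α hA
    exact BDAM.bd_kron A U α hA
  · intro κ l _ _ _ _ f A α hA
    exact BDAM.bd_reindex f A α hA

end Pool.Agent.Lib.MP8a3537.TW
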