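import Pool.Agent.Lib.MP_8a3537_gt.TW.WIN
import Pool.Agent.Lib.MP_8a3537_gt.SG.CLM
import Pool.Agent.Lib.MP_8a3537_gt.SG.SCA
import Pool.Agent.Lib.MP_8a3537_gt.SG.CHO
import Pool.Agent.Lib.MP_8a3537_gt.SG.TRI

/-!
# CLQ: the scalar part of the theorem on relative signatures (section 2 of the paper without groups)
-/

set_option linter.unusedVariables false

namespace Pool.Agent.Lib.MP8a3537.TW

open Pool.Agent.Lib.MP8a3537.SG
open Pool.Agent.Lib.MP8a3537.SG.CLMM
open Polynomial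

/-- difference of order `m`, bound in a window -/
lemma clq_fwdDiff_window (g : ℤ → ℂ) (B : ℝ) (m : ℕ) :
    ∀ p : ℤ, (∀ q : ℤ, p ≤ q → q ≤ p + m → ‖g q‖ ≤ B) → ‖(fwdDiff (1 : ℤ))^[m] g p‖ ≤ 2 ^ m * B := by
  induction m with
  | zero => intro p hg; simpa using hg p le_rfl (by simp)
  | succ m ih =>
    intro p hg
    rw [Function.iterate_succ_apply']
    have h1 : ‖(fwdDiff (1 : ℤ))^[m] g (p + 1)‖ ≤ 2 ^ m * B := by
      refine ih (p + 1) fun q hq1 hq2 => hg q (by omega) (by push_cast; omega)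
    have h2 : ‖(fwdDiff (1 : ℤ))^[m] g p‖ ≤ 2 ^ m * B := by
      refine ih p fun q hq1 hq2 => hg q (by omega) (by push_cast; omega)
    calc ‖fwdDiff (1 : ℤ) ((fwdDiff (1 : ℤ))^[m] g) p‖
        = ‖(fwdDiff (1 : ℤ))^[m] g (p + 1) - (fwdDiff (1 : ℤ))^[m] g p‖ := rfl
      _ ≤ ‖(fwdDiff (1 : ℤ))^[m] g (p + 1)‖ + ‖(fwdDiff (1 : ℤ))^[m] g p‖ := norm_sub_le _ _
      _ ≤ 2 ^ m * B + 2 ^ m * B := add_le_add h1 h2
      _ = 2 ^ (m + 1) * B := by ring

/-- the value at `p/M` does not depend on the fraction -/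
lemma clq_F_scale (T : ℤ → ℂ) (K M t : ℕ) (ht : 0 < t) (p : ℤ) :
    F T K (M * t) (p * t) = F T K M p := by
  unfold F
  refine Finset.sum_congr rfl fun k _ => ?_
  congr 2
  have htr : (t : ℝ) ≠ 0 := by exact_mod_cast ht.ne'
  push_cast
  rcases Nat.eq_zero_or_pos M with rfl | hM
  · simp
  · have hMr : (M : ℝ) ≠ 0 := by exact_mod_cast hM.ne'
    field_simp

theorem specCLQ : SpecCLQ := by
  intro e n C δ r R T K I v he he1 hn hC hδ hK hT hI hv
  have hSCA := specSCA
  have hdel := (hSCA e he he1).2.1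
  obtain ⟨M0, hM0, hch⟩ := specCHO specSCA e n C r R he he1 hn hC
  -- (1)
  have hpoly : ∀ M : ℕ, M0 ≤ M → ∃ q : Polynomial ℚ, q.natDegree ≤ R ∧
      ∀ p : ℤ, |(p : ℝ)| < δ * M → v M p = ((q.eval (p : ℚ) : ℚ) : ℝ) := by
    intro M hMM
    have hMpos : 0 < M := lt_of_lt_of_le hM0 hMM
    have hMr : (0 : ℝ) < M := by exact_mod_cast hMpos
    obtain ⟨j, -, hj⟩ := hch M hMM
    refine specWIN R (I M) (δ * M) (v M) (by positivity) (hI M hMpos).1
      (fun p hp => (hv M hMpos p hp).1) (fun p hp1 hp2 => ?_)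
    have hKr : (0 : ℝ) ≤ (K j : ℝ) := Nat.cast_nonneg _
    have hp : 0 < Real.pi := Real.pi_pos
    have hd0 : 0 ≤ del e j := (hdel j).1
    have hb : |(fwdDiff (1 : ℤ))^[R + 1] (v M) p| ≤ 2 ^ (R + 1) * (n * del e j)
        + (2 * (C * ((3 : ℝ) ^ j) ^ r) + 1) * (2 * n) *
          (2 * Real.pi * (C * ((3 : ℝ) ^ j) ^ r) / M) ^ (R + 1) := by
      have e1 : (fun p => (v M p : ℂ))
          = (fun p => (v M p : ℂ) - F (T j) (K j) M p) + F (T j) (K j) M := by
        funext q; simp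
      have e2 : ‖(fwdDiff (1 : ℤ))^[R + 1] (fun p => (v M p : ℂ) - F (T j) (K j) M p) p‖
          ≤ 2 ^ (R + 1) * (n * del e j) := by
        refine clq_fwdDiff_window _ _ _ _ (fun q hq1 hq2 => ?_)
        show ‖(v M q : ℂ) - F (T j) (K j) M q‖ ≤ n * del e j
        rw [norm_sub_rev]
        refine (hv M hMpos q ?_).2 j
        have a1 : (p : ℝ) ≤ q := by exact_mod_cast hq1
        have a2 : (q : ℝ) ≤ p + (R + 1) := by exact_mod_cast hq2
        rw [abs_lt] at hp1 hp2 ⊢
        constructor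
        · linarith [hp1.1]
        · linarith [hp2.2]
      have e3 : ‖(fwdDiff (1 : ℤ))^[R + 1] (F (T j) (K j) M) p‖
          ≤ (2 * K j + 1) * (2 * n) * (2 * Real.pi * K j / M) ^ (R + 1) :=
        (specTRI (T j) (K j) M (R + 1) (2 * n) hMpos (by linarith)).1
          (fun k _ => (hT j k).trans (by linarith)) p
      have e4 : (2 * (K j : ℝ) + 1) * (2 * n) * (2 * Real.pi * K j / M) ^ (R + 1)
          ≤ (2 * (C * ((3 : ℝ) ^ j) ^ r) + 1) * (2 * n) *
          (2 * Real.pi * (C * ((3 : ℝ) ^ j) ^ r) / M) ^ (R + 1) := by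
        have := hK j
        gcongr
      calc |(fwdDiff (1 : ℤ))^[R + 1] (v M) p| = ‖(((fwdDiff (1 : ℤ))^[R + 1] (v M) p : ℝ) : ℂ)‖ := by
            rw [Complex.norm_real]; rfl
        _ = ‖(fwdDiff (1 : ℤ))^[R + 1] (fun p => (v M p : ℂ)) p‖ := by rw [fwdDiff_ofReal]
        _ = ‖(fwdDiff (1 : ℤ))^[R + 1] (fun p => (v M p : ℂ) - F (T j) (K j) M p) p
              + (fwdDiff (1 : ℤ))^[R + 1] (F (T j) (K j) M) p‖ := by
            rw [e1, fwdDiff_iter_add]; rfl
        _ ≤ _ := (norm_add_le _ _).trans (add_le_add e2 (e3.trans e4))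
    calc (I M : ℝ) * |(fwdDiff (1 : ℤ))^[R + 1] (v M) p|
        ≤ C * (M : ℝ) ^ R * (2 ^ (R + 1) * (n * del e j)
        + (2 * (C * ((3 : ℝ) ^ j) ^ r) + 1) * (2 * n) *
          (2 * Real.pi * (C * ((3 : ℝ) ^ j) ^ r) / M) ^ (R + 1)) :=
          mul_le_mul (hI M hMpos).2 hb (abs_nonneg _) (by positivity)
      _ < 1 := hj
  -- (2)
  have hscale : ∀ (M t : ℕ), 0 < M → 0 < t → ∀ p : ℤ, |(p : ℝ)| < δ * M →
      v (M * t) (p * t) = v M p := by
    intro M t hM ht p hp
    by_contra hne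
    have hpos : 0 < |v (M * t) (p * t) - v M p| := abs_pos.2 (sub_ne_zero.2 hne)
    obtain ⟨j, hj⟩ := exists_small hSCA e n (|v (M * t) (p * t) - v M p| / 2) he he1 hn (by linarith)
    have htr : (0 : ℝ) < t := by exact_mod_cast ht
    have hMt : 0 < M * t := Nat.mul_pos hM ht
    have hw : |((p * t : ℤ) : ℝ)| < δ * ((M * t : ℕ) : ℝ) := by
      push_cast
      rw [abs_mul, abs_of_pos htr, ← mul_assoc]
      exact mul_lt_mul_of_pos_right hp htr
    have h1 := (hv (M * t) hMt (p * t) hw).2 j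
    have h2 := (hv M hM p hp).2 j
    rw [clq_F_scale _ _ _ _ ht] at h1
    have h3 : ((v (M * t) (p * t) - v M p : ℝ) : ℂ)
        = (F (T j) (K j) M p - (v M p : ℂ)) - (F (T j) (K j) M p - (v (M * t) (p * t) : ℂ)) := by
      push_cast; ring
    have h4 : |v (M * t) (p * t) - v M p| ≤ n * del e j + n * del e j := by
      rw [← Real.norm_eq_abs, ← Complex.norm_real, h3]
      exact (norm_sub_le _ _).trans (add_le_add h2 h1)
    linarith
  -- (3)
  obtain ⟨m1, hm1⟩ := exists_nat_gt (((R : ℝ) + 1) / δ)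
  set Ms : ℕ := max M0 m1 with hMsdef
  have hMs0 : M0 ≤ Ms := le_max_left _ _
  have hMspos : 0 < Ms := lt_of_lt_of_le hM0 hMs0
  have hMsr : (0 : ℝ) < Ms := by exact_mod_cast hMspos
  have hMsR : (R : ℝ) + 1 < δ * Ms := by
    rw [div_lt_iff₀ hδ] at hm1
    have : (m1 : ℝ) ≤ Ms := by exact_mod_cast le_max_right M0 m1
    nlinarith
  obtain ⟨q, hqd, hq⟩ := hpoly Ms hMs0
  -- `Q(X) = q(Ms X)`
  set Q : Polynomial ℚ := q.comp (Polynomial.C (Ms : ℚ) * Polynomial.X) with hQdef
  have hQmul : ∀ t : ℕ, 0 < t → ∀ p : ℤ, |(p : ℝ)| < δ * ((Ms * t : ℕ) : ℝ) →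
      v (Ms * t) p = ((Q.eval ((p : ℚ) / ((Ms * t : ℕ) : ℚ)) : ℚ) : ℝ) := by
    intro t ht
    have htq : (t : ℚ) ≠ 0 := by exact_mod_cast ht.ne'
    have hMq : (Ms : ℚ) ≠ 0 := by exact_mod_cast hMspos.ne'
    obtain ⟨q', hqd', hq'⟩ := hpoly (Ms * t) (hMs0.trans (Nat.le_mul_of_pos_right _ ht))
    -- the polynomials `q'(t X)` and `q(X)` agree at `0, ..., R`
    have heq : q'.comp (Polynomial.C (t : ℚ) * Polynomial.X) = q := by
      have hd1 : (q'.comp (Polynomial.C (t : ℚ) * Polynomial.X)).natDegree ≤ R := by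
        refine (Polynomial.natDegree_comp_le).trans ?_
        have : (Polynomial.C (t : ℚ) * Polynomial.X).natDegree ≤ 1 :=
          (Polynomial.natDegree_C_mul_le _ _).trans Polynomial.natDegree_X_le
        calc q'.natDegree * (Polynomial.C (t : ℚ) * Polynomial.X).natDegree
            ≤ R * 1 := Nat.mul_le_mul hqd' this
          _ = R := mul_one R
      rw [← sub_eq_zero]
      by_contra hne
      have hcard := Polynomial.card_roots' (q'.comp (Polynomial.C (t : ℚ) * Polynomial.X) - q)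
      have hdeg : (q'.comp (Polynomial.C (t : ℚ) * Polynomial.X) - q).natDegree ≤ R :=
        (Polynomial.natDegree_sub_le _ _).trans (max_le hd1 hqd)
      have hsub : ((Finset.range (R + 1)).image (fun i : ℕ => (i : ℚ))).val ⊆
          (q'.comp (Polynomial.C (t : ℚ) * Polynomial.X) - q).roots := by
        intro x hx
        have hx' : x ∈ (Finset.range (R + 1)).image (fun i : ℕ => (i : ℚ)) := hx
        obtain ⟨i, hi, rfl⟩ := Finset.mem_image.mp hx'
        have hiR : (i : ℝ) ≤ R := by exact_mod_cast Nat.lt_succ_iff.mp (Finset.mem_range.mp hi)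
        rw [Polynomial.mem_roots hne, Polynomial.IsRoot.def, Polynomial.eval_sub, sub_eq_zero,
          Polynomial.eval_comp]
        simp only [Polynomial.eval_mul, Polynomial.eval_C, Polynomial.eval_X]
        have hw1 : |((i : ℤ) : ℝ)| < δ * Ms := by
          push_cast
          rw [abs_of_nonneg (Nat.cast_nonneg _)]
          linarith
        have hw2 : |(((i : ℤ) * t : ℤ) : ℝ)| < δ * ((Ms * t : ℕ) : ℝ) := by
          have htr : (0 : ℝ) < t := by exact_mod_cast ht
          push_cast at hw1 ⊢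
          rw [abs_mul, abs_of_pos htr, ← mul_assoc]
          exact mul_lt_mul_of_pos_right hw1 htr
        have a1 := hq (i : ℤ) hw1
        have a2 := hq' ((i : ℤ) * t) hw2
        rw [hscale Ms t hMspos ht (i : ℤ) hw1, a1] at a2
        have a3 : q.eval ((i : ℤ) : ℚ) = q'.eval (((i : ℤ) * t : ℤ) : ℚ) := by exact_mod_cast a2
        rw [Int.cast_natCast] at a3
        rw [a3]
        congr 1
        push_cast
        ring
      have hle : ((Finset.range (R + 1)).image (fun i : ℕ => (i : ℚ))).card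
          ≤ Multiset.card (q'.comp (Polynomial.C (t : ℚ) * Polynomial.X) - q).roots :=
        Multiset.card_le_card ((Multiset.le_iff_subset
          ((Finset.range (R + 1)).image (fun i : ℕ => (i : ℚ))).nodup).2 hsub)
      rw [Finset.card_image_of_injective _ Nat.cast_injective, Finset.card_range] at hle
      omega
    intro p hp
    rw [hq' p hp]
    congr 1
    rw [hQdef, Polynomial.eval_comp, ← heq, Polynomial.eval_comp]
    simp only [Polynomial.eval_mul, Polynomial.eval_C, Polynomial.eval_X]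
    congr 1
    push_cast
    field_simp
  have hQall : ∀ M : ℕ, 0 < M → ∀ p : ℤ, |(p : ℝ)| < δ * M →
      v M p = ((Q.eval ((p : ℚ) / (M : ℚ)) : ℚ) : ℝ) := by
    intro M hM p hp
    have hMq : (M : ℚ) ≠ 0 := by exact_mod_cast hM.ne'
    have hMsq : (Ms : ℚ) ≠ 0 := by exact_mod_cast hMspos.ne'
    have h1 := hscale M Ms hM hMspos p hp
    have hw : |((p * Ms : ℤ) : ℝ)| < δ * ((Ms * M : ℕ) : ℝ) := by
      push_cast
      rw [abs_mul, abs_of_pos hMsr, mul_comm (Ms : ℝ) (M : ℝ), ← mul_assoc]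
      exact mul_lt_mul_of_pos_right hp hMsr
    have h2 := hQmul M hM (p * Ms) hw
    rw [mul_comm Ms M, h1] at h2
    rw [h2]
    congr 2
    push_cast
    field_simp
  have haev : ∀ x : ℚ, Polynomial.aeval (x : ℝ) Q = ((Q.eval x : ℚ) : ℝ) := by
    intro x
    have := Polynomial.aeval_algebraMap_apply ℝ x Q
    simpa using this
  refine ⟨Q, fun M hM p hp => ?_, fun j θ hθ => ?_⟩
  · rw [hQall M hM p hp]
    have := haev ((p : ℚ) / (M : ℚ))
    push_cast at this
    rw [this]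
  · -- (4)
    by_contra hcon
    push Not at hcon
    set g : ℝ → ℝ := fun θ => ‖(∑ k ∈ Finset.Icc (-(K j : ℤ)) (K j), T j k * ex (θ * k))
      - ((Polynomial.aeval θ Q : ℝ) : ℂ)‖ with hg
    have hgc : Continuous g := by
      refine Continuous.norm (Continuous.sub ?_ ?_)
      · refine continuous_finsetSum _ fun k _ => ?_
        refine Continuous.mul continuous_const ?_
        unfold ex
        fun_prop
      · exact Complex.continuous_ofReal.comp (Polynomial.continuous_aeval Q)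
    have hopen : IsOpen ({x : ℝ | n * del e j < g x} ∩ {x : ℝ | |x| < δ}) :=
      (isOpen_lt continuous_const hgc).inter (isOpen_lt continuous_abs continuous_const)
    obtain ⟨x, hx1, hx2⟩ := (Rat.denseRange_cast (𝕜 := ℝ)).exists_mem_open hopen ⟨θ, hcon, hθ⟩
    have hxd : (0 : ℝ) < (x.den : ℝ) := by exact_mod_cast x.den_pos
    have hxq : ((x.num : ℝ)) / (x.den : ℝ) = (x : ℝ) := by
      rw [Rat.cast_def]
    have hw : |((x.num : ℤ) : ℝ)| < δ * (x.den : ℝ) := by
      have : |(x : ℝ)| < δ := hx2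
      rw [← hxq, abs_div, abs_of_pos hxd, div_lt_iff₀ hxd] at this
      exact this
    have h1 := (hv x.den x.den_pos x.num hw).2 j
    rw [hQall x.den x.den_pos x.num hw, Rat.num_div_den, ← haev] at h1
    have h2 : F (T j) (K j) x.den x.num
        = ∑ k ∈ Finset.Icc (-(K j : ℤ)) (K j), T j k * ex ((x : ℝ) * k) := by
      unfold F
      refine Finset.sum_congr rfl fun k _ => ?_
      congr 2
      rw [← hxq]
      ring
    rw [h2] at h1
    exact absurd h1 (not_le.2 hx1)

end Pool.Agent.Lib.MP8a3537.TW
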