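import Pool.Agent.Lib.MP_8a3537_gt.TW.Spec
import Pool.Agent.Lib.MP_8a3537_gt.SG.MNB

/-! # COE: the diagonal coefficients of the iterates are bounded by 1 -/

set_option autoImplicit false

namespace Pool.Agent.Lib.MP8a3537.TW

open Pool.Agent.Lib.MP8a3537.SG
open scoped BigOperators ComplexOrder

open MNBM in
theorem specCOE (hNIT : SpecNIT) (hOPX : SpecOPX) : SpecCOE := by
  intro Γ _ ι _ _ y hy
  obtain ⟨Op, hOp1, -, hOp3⟩ := hOPX Γ ι
  have hSA : IsSelfAdjoint (Op y) := hOp3 y hy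
  have hpos : 0 < ‖Op y‖ + 1 := by positivity
  refine ⟨1 / (‖Op y‖ + 1), by positivity, fun b hb hbb j i g => ?_⟩
  rw [le_div_iff₀ hpos] at hbb
  have h1 : Op ((b : ℂ) • y) = (b : ℂ) • Op y := map_smul _ _ _
  have h2 : IsSelfAdjoint ((b : ℂ) • Op y) := by
    rw [isSelfAdjoint_iff, star_smul, hSA.star_eq]
    congr 1
    exact Complex.conj_ofReal b
  have h3 : ‖(b : ℂ) • Op y‖ ≤ 1 := by
    rw [norm_smul, Complex.norm_real, Real.norm_eq_abs, abs_of_pos hb]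
    nlinarith [norm_nonneg (Op y)]
  have h4 := (hNIT (L2 ι Γ →L[ℂ] L2 ι Γ) ((b : ℂ) • Op y) h2 h3 j).2
  have h5 : Op (it ((b : ℂ) • y) j) = it ((b : ℂ) • Op y) j := by
    rw [map_it, h1]
  rw [← h5] at h4
  have h6 := hOp1 (it ((b : ℂ) • y) j) i i g 1
  rw [inv_one, mul_one] at h6
  rw [← h6]
  refine (lp.norm_apply_le_norm (by norm_num) _ _).trans ?_
  refine (ContinuousLinearMap.le_opNorm _ _).trans ?_
  rw [norm_bv, mul_one]
  exact h4

end Pool.Agent.Lib.MP8a3537.TW
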