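import Pool.Agent.Lib.MP_8a3537_gt.TW.Spec
import Pool.Agent.Lib.MP_8a3537_gt.TW.EXI

/-!
# MP_8a3537_gt, rows TW: the final statement
-/

set_option linter.unusedVariables false

namespace Pool.Agent.Lib.MP8a3537.TW

open Pool.Agent.Lib.MP8a3537.SG
open scoped BigOperators Matrix

theorem final (hREA : SpecREA) (hREB : SpecREB) (hTWG : SpecTWG) (hXIX : SpecXIX) (hNQU : SpecNQU)
    (R E : Type) [Ring R] [StarRing R] [Group E] (H : Subgroup E) [H.Normal] (hH : RTFN (E ⧸ H))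
    (ι : Type) [Fintype ι] [DecidableEq ι] (h : Matrix ι ι (MonoidAlgebra R E)) (ε : ℤ) (c : ℂ)
    (hc : (ε = 1 ∧ c = 1) ∨ (ε = -1 ∧ c = Complex.I)) (hh : EpsHerm ε h) :
    (IsUnit h →
      (∀ (κ₁ κ₂ : Type) [Fintype κ₁] [DecidableEq κ₁] [Fintype κ₂] [DecidableEq κ₂]
        (Φ₁ : MonoidAlgebra R E →+* Matrix κ₁ κ₁ ℂ) (Φ₂ : MonoidAlgebra R E →+* Matrix κ₂ κ₂ ℂ) (k₁ k₂ : ℕ),
        StarHom Φ₁ → StarHom Φ₂ →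
        (∀ g ∈ H, ∀ r : R, k₁ * (Φ₁ (MonoidAlgebra.single g r)).trace = k₂ * (Φ₂ (MonoidAlgebra.single g r)).trace) →
        k₁ * sgn (c • blk Φ₁ h) = k₂ * sgn (c • blk Φ₂ h)) ∧
      (∀ (κ : Type) [Fintype κ] [DecidableEq κ] (Φ : MonoidAlgebra R E →+* Matrix κ κ ℂ)
        (B : Type) [CStarAlgebra B] (ψ : MonoidAlgebra R E →+* B) (ω : B →L[ℂ] ℂ), StarHom Φ → StarHom ψ →
        (∀ g ∈ H, ∀ r : R, ω (ψ (MonoidAlgebra.single g r)) = (Φ (MonoidAlgebra.single g r)).trace) →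
        (∀ g ∉ H, ∀ r : R, ω (ψ (MonoidAlgebra.single g r)) = 0) →
        (∃ S, IsSgn (c • h.map ψ) S) ∧
          ∀ S, IsSgn (c • h.map ψ) S → ∑ i, ω (S i i) = ((sgn (c • blk Φ h) : ℤ) : ℂ))) ∧
    (∀ (z : E) (K Z : Subgroup E) [K.Normal] [Z.Normal], (∀ g, g * z = z * g) → z ∉ H →
      K = H ⊔ Subgroup.zpowers z → Z = Subgroup.zpowers z → RTFN (E ⧸ K) →
      IsUnit (h.map (MonoidAlgebra.mapDomainRingHom R (QuotientGroup.mk' Z))) →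
      ∀ (κ₀ : Type) [Fintype κ₀] [DecidableEq κ₀] (Φ₀ : MonoidAlgebra R E →+* Matrix κ₀ κ₀ ℂ),
        StarHom Φ₀ → Φ₀ (MonoidAlgebra.single z 1) = 1 →
      ∃ (δ : ℝ) (Q : Polynomial ℚ), 0 < δ ∧ Q.eval 0 = (sgn (c • blk Φ₀ h) : ℤ) ∧
        (∀ (κ : Type) [Fintype κ] [DecidableEq κ] (Φ : MonoidAlgebra R E →+* Matrix κ κ ℂ) (k : ℕ) (θ : ℝ),
          StarHom Φ → |θ| < δ → Φ (MonoidAlgebra.single z 1) = ex θ • (1 : Matrix κ κ ℂ) →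
          (∀ g ∈ H, ∀ r : R, (Φ (MonoidAlgebra.single g r)).trace = k * (Φ₀ (MonoidAlgebra.single g r)).trace) →
          IsUnit (blk Φ h) ∧ ((sgn (c • blk Φ h) : ℤ) : ℝ) = k * Polynomial.aeval θ Q) ∧
        (∀ (B : Type) [CStarAlgebra B] (ψ : MonoidAlgebra R E →+* B) (ω : B →L[ℂ] ℂ) (θ : ℝ),
          StarHom ψ → |θ| < δ → ψ (MonoidAlgebra.single z 1) = ex θ • (1 : B) →
          (∀ g ∈ H, ∀ r : R, ω (ψ (MonoidAlgebra.single g r)) = (Φ₀ (MonoidAlgebra.single g r)).trace) →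
          (∀ g ∉ K, ∀ r : R, ω (ψ (MonoidAlgebra.single g r)) = 0) → IsUnit (h.map ψ) →
          (∃ S, IsSgn (c • h.map ψ) S) ∧
            ∀ S, IsSgn (c • h.map ψ) S → ∑ i, ω (S i i) = ((Polynomial.aeval θ Q : ℝ) : ℂ)) ∧
        (Group.FG E → ∀ (M : ℕ) (p : ℤ), 0 < M →
          ∃ (κ : Type) (_ : Fintype κ) (_ : DecidableEq κ) (Φ : MonoidAlgebra R E →+* Matrix κ κ ℂ) (k : ℕ),
            0 < k ∧ StarHom Φ ∧ Φ (MonoidAlgebra.single z 1) = ex (p / M) • (1 : Matrix κ κ ℂ) ∧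
            ∀ g ∈ H, ∀ r : R,
              (Φ (MonoidAlgebra.single g r)).trace = k * (Φ₀ (MonoidAlgebra.single g r)).trace)) := by
  refine ⟨fun hu => ⟨?_, ?_⟩, ?_⟩
  · intro κ₁ κ₂ _ _ _ _ Φ₁ Φ₂ k₁ k₂ h1 h2 h3
    exact hREA R E H hH ι h ε c hc hh hu κ₁ κ₂ Φ₁ Φ₂ k₁ k₂ h1 h2 h3
  · intro κ _ _ Φ B _ ψ ω h1 h2 h3 h4
    exact hREB R E H hH ι h ε c hc hh hu κ Φ B ψ ω h1 h2 h3 h4
  · intro z K Z _ _ hz hzH hK hZ hKr hu κ₀ _ _ Φ₀ h1 h2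
    obtain ⟨δ, Q, hδ, hQ, hA, hB⟩ := hTWG R E H K Z z hH hKr hz hK hZ hzH ι h ε c hc hh hu κ₀ Φ₀ h1 h2
    refine ⟨δ, Q, hδ, hQ, ?_, ?_, ?_⟩
    · intro κ _ _ Φ k θ a1 a2 a3 a4
      exact hA κ Φ k θ a1 a2 a3 a4
    · intro B _ ψ ω θ a1 a2 a3 a4 a5 a6
      exact hB B ψ ω θ a1 a2 a3 a4 a5 a6
    · intro hFG M p hM
      exact exists_rep hXIX hNQU R E H z hFG hH hz hzH κ₀ Φ₀ h1 h2 M hM p

end Pool.Agent.Lib.MP8a3537.TW
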