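import Pool.Agent.Lib.MP_8a3537_gt.TW.Spec
import Pool.Agent.Lib.MP_8a3537_gt.SG.THE

/-!
# GRD: finite dimensional unitary representations with a prescribed central value
-/

set_option linter.unusedVariables false

namespace Pool.Agent.Lib.MP8a3537.TW

open Pool.Agent.Lib.MP8a3537.SG
open Pool.Agent.Lib.MP8a3537.SG.THEM
open scoped ComplexConjugate

open Classical in
theorem specGRD : SpecGRD := by
  intro N _ c Γ M hc hN hfin hM hΓ
  let H : Subgroup N :=
    { carrier := {y | ∃ k : ℤ, y * c ^ (-k) ∈ Γ}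
      one_mem' := ⟨0, by simp [Γ.one_mem]⟩
      mul_mem' := by
        rintro y z ⟨k, hk⟩ ⟨l, hl⟩
        refine ⟨k + l, ?_⟩
        have := Γ.mul_mem hk hl
        have h2 : y * c ^ (-k) * (z * c ^ (-l)) = y * z * c ^ (-(k + l)) := by
          rw [neg_add, zpow_add, mul_assoc y, ← mul_assoc (c ^ (-k)), ← comm_zpow hc z (-k)]
          simp only [mul_assoc]
        rw [h2] at this
        exact this
      inv_mem' := by
        rintro y ⟨k, hk⟩
        refine ⟨-k, ?_⟩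
        have := Γ.inv_mem hk
        rw [mul_inv_rev, ← zpow_neg, ← comm_zpow hc] at this
        exact this }
  have hmem : ∀ y : N, y ∈ H ↔ ∃ k : ℤ, y * c ^ (-k) ∈ Γ := fun y => Iff.rfl
  have hcH : c ∈ H := (hmem c).2 ⟨1, by simp [Γ.one_mem]⟩
  have hΓH : Γ ≤ H := fun y hy => (hmem y).2 ⟨0, by simpa using hy⟩
  have hHi : H.index ∣ Γ.index := Subgroup.index_dvd_of_le hΓH
  have hH0 : H.index ≠ 0 := fun h => hfin (Nat.eq_zero_of_zero_dvd (h ▸ hHi))
  have : Finite (N ⧸ H) := Subgroup.index_ne_zero_iff_finite.1 hH0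
  have : Fintype (N ⧸ H) := Fintype.ofFinite _
  have hcard : Fintype.card (N ⧸ H) = H.index := by
    rw [Subgroup.index_eq_card, Nat.card_eq_fintype_card]
  refine ⟨Fintype.card (N ⧸ H), ?_, ?_, ?_⟩
  · rw [hcard]
    exact Nat.pos_of_ne_zero hH0
  · rw [hcard]
    exact Nat.le_of_dvd (Nat.pos_of_ne_zero hfin) hHi
  intro p
  have h0 : ∀ y, y ∉ H → lam c Γ M p y = 0 := by
    intro y hy
    exact dif_neg (fun h => hy ((hmem y).2 h))
  have h1 : lam c Γ M p 1 = 1 := lam_one hM hΓ p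
  have hm : ∀ y z, y ∈ H → z ∈ H → lam c Γ M p (y * z) = lam c Γ M p y * lam c Γ M p z := by
    rintro y z ⟨k, hk⟩ ⟨l, hl⟩
    exact lam_mul hM hΓ hc p hk hl
  let θ : N →* Matrix (N ⧸ H) (N ⧸ H) ℂ :=
    THEM.ind H (lam c Γ M p) h0 h1 hm
  have hθ : ∀ g u v, θ g u v = lam c Γ M p ((u.out)⁻¹ * g * v.out) := fun g u v => rfl
  have hf : ∀ y, star (lam c Γ M p y) = lam c Γ M p y⁻¹ := by
    intro y
    by_cases hy : y ∈ H
    · obtain ⟨k, hk⟩ := hy
      rw [lam_inv hM hΓ hc p hk]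
      rfl
    · rw [h0 y hy, h0 y⁻¹ (fun h => hy (by simpa using H.inv_mem h)), star_zero]
  have hstar : ∀ g, star (θ g) = θ g⁻¹ := by
    intro g
    ext u v
    have e1 : (star (θ g)) u v = star (lam c Γ M p ((v.out)⁻¹ * g * u.out)) := rfl
    rw [e1, hf, hθ]
    congr 1
    group
  have hθc : θ c = ex (p / M) • (1 : Matrix (N ⧸ H) (N ⧸ H) ℂ) := by
    ext u v
    rw [hθ, Matrix.smul_apply, smul_eq_mul]
    have e1 : (u.out)⁻¹ * c * v.out = c * ((u.out)⁻¹ * v.out) := by rw [hc, mul_assoc]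
    by_cases huv : u = v
    · subst huv
      rw [e1, inv_mul_cancel, mul_one, Matrix.one_apply_eq, mul_one,
        lam_eq hM hΓ p (k := 1) (by simp [Γ.one_mem])]
      congr 1
      simp
    · rw [Matrix.one_apply_ne huv, mul_zero]
      apply h0
      rw [e1, H.mul_mem_cancel_left hcH]
      exact fun h => huv ((out_mem H u v).1 h)
  let e := Fintype.equivFin (N ⧸ H)
  let R : N →* Matrix (Fin (Fintype.card (N ⧸ H))) (Fin (Fintype.card (N ⧸ H))) ℂ :=
    ((Matrix.reindexAlgEquiv ℂ ℂ e : Matrix (N ⧸ H) (N ⧸ H) ℂ →* _)).comp θ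
  have hR : ∀ g, R g = Matrix.reindex e e (θ g) := fun g => rfl
  have hRs : ∀ g, star (R g) = R g⁻¹ := by
    intro g
    rw [hR, hR, ← hstar]
    rfl
  have hU : ∀ g, R g ∈ Matrix.unitaryGroup (Fin (Fintype.card (N ⧸ H))) ℂ := by
    intro g
    rw [Matrix.mem_unitaryGroup_iff, hRs, ← map_mul, mul_inv_cancel, map_one]
  refine ⟨R.codRestrict _ hU, ?_⟩
  show R c = _
  rw [hR, hθc]
  ext i j
  simp [Matrix.one_apply]

end Pool.Agent.Lib.MP8a3537.TW
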