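import Pool.Agent.Lib.MP_8a3537_gt.TW.Spec
import Pool.Agent.Lib.MP_8a3537_gt.SG.HGA

/-! # LGB: spectral gap near the trivial character of the central element -/

set_option autoImplicit false

namespace Pool.Agent.Lib.MP8a3537.TW.LGBM

open Pool.Agent.Lib.MP8a3537.SG
open Pool.Agent.Lib.MP8a3537.SG.HGAM
open scoped BigOperators ComplexOrder Matrix.Norms.L2Operator Kronecker

variable {G : Type} [Group G] {κ : Type} [Fintype κ] [DecidableEq κ]
variable {ι : Type} [Fintype ι] [DecidableEq ι]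

omit [Fintype ι] [DecidableEq ι] in
lemma twist_add' (ρ : G →* Matrix.unitaryGroup κ ℂ) (x y : Matrix ι ι (CG G)) :
    twist ρ (x + y) = twist ρ x + twist ρ y := by
  ext p q
  change (repA ρ ((x + y) p.1 q.1)) p.2 q.2 = (repA ρ (x p.1 q.1)) p.2 q.2 + (repA ρ (y p.1 q.1)) p.2 q.2
  rw [Matrix.add_apply, map_add, Matrix.add_apply]

lemma repA_single (ρ : G →* Matrix.unitaryGroup κ ℂ) (z : G) :
    repA ρ (MonoidAlgebra.single z (1 : ℂ)) = ((ρ z : Matrix.unitaryGroup κ ℂ) : Matrix κ κ ℂ) := by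
  unfold repA
  rw [MonoidAlgebra.lift_single, one_smul]
  rfl

lemma twist_scalar (ρ : G →* Matrix.unitaryGroup κ ℂ) (z : G) (t : ℂ)
    (h : ((ρ z : Matrix.unitaryGroup κ ℂ) : Matrix κ κ ℂ) = t • 1) :
    twist ρ (Matrix.scalar ι (MonoidAlgebra.single z (1 : ℂ) - 1)) = (t - 1) • 1 := by
  ext p q
  change (repA ρ ((Matrix.scalar ι (MonoidAlgebra.single z (1 : ℂ) - 1)) p.1 q.1)) p.2 q.2 = _
  obtain ⟨i, u⟩ := p
  obtain ⟨j, v⟩ := q
  simp only [Matrix.scalar_apply]
  rcases eq_or_ne i j with rfl | hij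
  · rw [Matrix.diagonal_apply_eq, map_sub, map_one, repA_single, h]
    simp only [Matrix.sub_apply, Matrix.smul_apply, Matrix.one_apply, Prod.mk.injEq, true_and, smul_eq_mul]
    split_ifs <;> ring
  · rw [Matrix.diagonal_apply_ne _ hij, map_zero]
    simp only [Matrix.zero_apply, Matrix.smul_apply, Matrix.one_apply, Prod.mk.injEq, smul_eq_mul]
    rw [if_neg (fun h => hij h.1), mul_zero]

lemma ex_sub_one (θ : ℝ) : ‖ex θ - 1‖ ≤ 2 * Real.pi * |θ| := by
  unfold ex
  have h := Real.norm_exp_I_mul_ofReal_sub_one_le (x := 2 * Real.pi * θ)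
  have e : Complex.exp (2 * Real.pi * θ * Complex.I) = Complex.exp (Complex.I * ((2 * Real.pi * θ : ℝ) : ℂ)) := by
    congr 1
    push_cast
    ring
  rw [e]
  refine h.trans (le_of_eq ?_)
  rw [Real.norm_eq_abs, abs_mul, abs_of_pos Real.two_pi_pos]

end Pool.Agent.Lib.MP8a3537.TW.LGBM

namespace Pool.Agent.Lib.MP8a3537.TW

open Pool.Agent.Lib.MP8a3537.SG

open scoped Matrix.Norms.L2Operator in
open Pool.Agent.Lib.MP8a3537.SG.HGAM LGBM in
theorem specLGB : SpecLGB := by
  intro Γ _ z ι _ _ y y' x' hy hyx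
  have h0 := nrm_nonneg y
  have h0' := nrm_nonneg y'
  have h0x := nrm_nonneg x'
  have hpi := Real.pi_pos
  refine ⟨1 / (4 * Real.pi * (1 + nrm x')), 1 / (1 + nrm y), by positivity, by positivity, ?_⟩
  intro b hb hb0
  have hb1 : b * nrm y ≤ 1 := by
    rw [le_div_iff₀ (by linarith)] at hb0
    nlinarith
  have hb2 : b ≤ 1 := by
    rw [le_div_iff₀ (by linarith)] at hb0
    nlinarith
  refine ⟨b / (2 * (1 + nrm y')), by positivity, ?_, ?_⟩
  · rw [div_le_one (by positivity)]
    nlinarith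
  intro θ hθ κ _ _ σ hσ
  refine ⟨?_, ?_⟩
  · rw [twist_smul]
    have hH := twist_herm σ y hy
    unfold Matrix.IsHermitian at hH ⊢
    rw [Matrix.conjTranspose_smul, hH]
    congr 1
    exact Complex.conj_ofReal b
  · intro μ v hv hμ
    rw [twist_smul] at hμ
    set V : EuclideanSpace ℂ (ι × κ) := WithLp.toLp 2 v with hV
    have hv' : 0 < ‖V‖ := by
      rw [norm_pos_iff]
      intro h0
      apply hv
      have := congrArg WithLp.ofLp h0
      exact this
    constructor
    · have hmul : twist σ y' * twist σ y = 1 + (ex θ - 1) • twist σ x' := by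
        rw [← twist_mul, hyx, twist_add', twist_one, twist_mul, twist_scalar σ z (ex θ) hσ, Matrix.smul_mul,
          Matrix.one_mul]
      have e1 : (twist σ y').mulVec (((b : ℂ) • twist σ y).mulVec v)
          = (b : ℂ) • v + (b : ℂ) • (((ex θ - 1) • twist σ x').mulVec v) := by
        rw [Matrix.mulVec_mulVec, mul_smul_comm, hmul, Matrix.smul_mulVec, Matrix.add_mulVec,
          Matrix.one_mulVec, smul_add]
      rw [hμ, Matrix.mulVec_smul, ← Matrix.smul_mulVec] at e1
      -- `b v = μ y' v - b (ex θ - 1) x' v`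
      have e2 : ((μ : ℂ) • twist σ y' - ((b : ℂ) * (ex θ - 1)) • twist σ x').mulVec v = (b : ℂ) • v := by
        rw [Matrix.sub_mulVec, e1, mul_smul, Matrix.smul_mulVec (b : ℂ)]
        abel
      have hn : ‖((μ : ℂ) • twist σ y' - ((b : ℂ) * (ex θ - 1)) • twist σ x')‖
          ≤ |μ| * nrm y' + b * (2 * Real.pi * |θ|) * nrm x' := by
        refine (norm_sub_le _ _).trans (add_le_add ?_ ?_)
        · rw [norm_smul, Complex.norm_real, Real.norm_eq_abs]
          exact mul_le_mul_of_nonneg_left (twist_norm σ y') (abs_nonneg _)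
        · rw [norm_smul, norm_mul, Complex.norm_real, Real.norm_eq_abs, abs_of_pos hb]
          exact mul_le_mul (mul_le_mul_of_nonneg_left (ex_sub_one θ) hb.le) (twist_norm σ x')
            (norm_nonneg _) (by positivity)
      have e3 := eig_bound _ _ _ _ _ hn e2
      rw [Complex.norm_real, Real.norm_eq_abs, abs_of_pos hb] at e3
      have e4 : b ≤ |μ| * nrm y' + b * (2 * Real.pi * |θ|) * nrm x' := le_of_mul_le_mul_right e3 hv'
      have e5 : (2 * Real.pi * |θ|) * nrm x' ≤ 1 / 2 := by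
        rw [lt_div_iff₀ (by positivity)] at hθ
        have h1 : 0 ≤ |θ| := abs_nonneg θ
        nlinarith [mul_nonneg (mul_nonneg hpi.le h1) h0x, mul_nonneg hpi.le h1]
      have e6 : b * (2 * Real.pi * |θ|) * nrm x' ≤ b / 2 := by
        have := mul_le_mul_of_nonneg_left e5 hb.le
        linarith
      rw [div_le_iff₀ (by positivity)]
      have := abs_nonneg μ
      nlinarith
    · have hn : ‖((b : ℂ) • twist σ y)‖ ≤ 1 := by
        rw [norm_smul, Complex.norm_real, Real.norm_eq_abs, abs_of_pos hb]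
        calc b * ‖twist σ y‖ ≤ b * nrm y := mul_le_mul_of_nonneg_left (twist_norm σ y) hb.le
          _ ≤ 1 := hb1
      have e2 := eig_bound _ _ _ _ _ hn hμ
      rw [Complex.norm_real, Real.norm_eq_abs] at e2
      exact le_of_mul_le_mul_right e2 hv'

end Pool.Agent.Lib.MP8a3537.TW
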