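import Pool.Agent.Lib.MP_8a3537_gt.TW.BDA

/-! # MGP: a spectral gap from an approximate inverse -/

set_option linter.unusedVariables false

namespace Pool.Agent.Lib.MP8a3537.TW.MGPM

open Pool.Agent.Lib.MP8a3537.SG
open Pool.Agent.Lib.MP8a3537.TW.BDAM
open scoped BigOperators Pointwise ComplexOrder Matrix

variable {κ : Type} [Fintype κ]

lemma nv_pos {v : κ → ℂ} (hv : v ≠ 0) : 0 < nv v := by
  rw [nv, norm_pos_iff]
  intro h
  apply hv
  have := congrArg (WithLp.ofLp) h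
  simpa using this

omit [Fintype κ] in
lemma herm_smul (Y : Matrix κ κ ℂ) (b : ℝ) (h : Y.IsHermitian) : ((b : ℂ) • Y).IsHermitian := by
  rw [Matrix.IsHermitian, Matrix.conjTranspose_smul, h.eq]
  congr 1
  simp

lemma gap [DecidableEq κ] (Y Y' W : Matrix κ κ ℂ) (t : ℂ) (b β β' β'' : ℝ) (h1 : Y' * Y = 1 + t • W)
    (hY : Bd Y β) (hY' : Bd Y' β') (hW : Bd W β'') (hβ : 0 ≤ β) (hβ' : 0 < β') (hβ'' : 0 ≤ β'')
    (ht : ‖t‖ * β'' ≤ 1 / 2) (hb : 0 < b) (hbβ : b * β ≤ 1) (μ : ℝ) (v : κ → ℂ) (hv : v ≠ 0)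
    (hμ : ((b : ℂ) • Y).mulVec v = (μ : ℂ) • v) : b / (2 * β') ≤ |μ| ∧ |μ| ≤ 1 := by
  rw [bd_iff _ _ hβ] at hY
  rw [bd_iff _ _ hβ'.le] at hY'
  rw [bd_iff _ _ hβ''] at hW
  have hvp := nv_pos hv
  have h2 : nv v ≤ 2 * β' * nv (Y.mulVec v) := by
    have h3 : v = Y'.mulVec (Y.mulVec v) + (-t) • W.mulVec v := by
      rw [Matrix.mulVec_mulVec, h1, Matrix.add_mulVec, Matrix.one_mulVec, Matrix.smul_mulVec, neg_smul]
      abel
    have h4 : nv v ≤ nv (Y'.mulVec (Y.mulVec v)) + nv ((-t) • W.mulVec v) := by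
      conv_lhs => rw [h3]
      exact nv_add _ _
    have h5 := hY' (Y.mulVec v)
    have h6 : nv ((-t) • W.mulVec v) ≤ nv v / 2 := by
      rw [nv_smul, norm_neg]
      calc ‖t‖ * nv (W.mulVec v) ≤ ‖t‖ * (β'' * nv v) := mul_le_mul_of_nonneg_left (hW v) (norm_nonneg _)
        _ = (‖t‖ * β'') * nv v := by ring
        _ ≤ (1 / 2) * nv v := mul_le_mul_of_nonneg_right ht hvp.le
        _ = nv v / 2 := by ring
    linarith
  have h7 : b * nv (Y.mulVec v) = |μ| * nv v := by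
    have h8 := congrArg nv hμ
    rw [Matrix.smul_mulVec, nv_smul, nv_smul, Complex.norm_real, Complex.norm_real, Real.norm_eq_abs,
      Real.norm_eq_abs, abs_of_pos hb] at h8
    exact h8
  constructor
  · rw [div_le_iff₀ (by positivity)]
    have h9 : b * nv v ≤ (|μ| * (2 * β')) * nv v := by
      calc b * nv v ≤ b * (2 * β' * nv (Y.mulVec v)) := mul_le_mul_of_nonneg_left h2 hb.le
        _ = 2 * β' * (b * nv (Y.mulVec v)) := by ring
        _ = 2 * β' * (|μ| * nv v) := by rw [h7]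
        _ = _ := by ring
    exact le_of_mul_le_mul_right h9 hvp
  · have h10 : |μ| * nv v ≤ 1 * nv v := by
      rw [← h7]
      calc b * nv (Y.mulVec v) ≤ b * (β * nv v) := mul_le_mul_of_nonneg_left (hY v) hb.le
        _ = (b * β) * nv v := by ring
        _ ≤ 1 * nv v := mul_le_mul_of_nonneg_right hbβ hvp.le
    exact le_of_mul_le_mul_right h10 hvp

end Pool.Agent.Lib.MP8a3537.TW.MGPM

namespace Pool.Agent.Lib.MP8a3537.TW

open Pool.Agent.Lib.MP8a3537.SG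
open scoped BigOperators Pointwise ComplexOrder Matrix

theorem specMGP : SpecMGP := by
  constructor
  · intro κ _ _ Y Y' W t b β β' β'' hH h1 hY hY' hW hβ hβ' hβ'' ht hb hbβ
    exact ⟨MGPM.herm_smul Y b hH, fun μ v hv hμ => MGPM.gap Y Y' W t b β β' β'' h1 hY hY' hW hβ hβ' hβ'' ht hb hbβ
      μ v hv hμ⟩
  · intro κ _ _ A e he hA h
    rw [Matrix.isUnit_iff_isUnit_det, isUnit_iff_ne_zero]
    intro h0
    obtain ⟨v, hv, hAv⟩ := Matrix.exists_mulVec_eq_zero_iff.2 h0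
    have := (h 0 v hv (by simpa using hAv)).1
    simp at this
    linarith

end Pool.Agent.Lib.MP8a3537.TW
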