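import Pool.Agent.Lib.MP_8a3537_gt.TW.Spec

/-!
# NDR: polynomial distortion and residual finiteness along a central element of a finitely generated
torsion-free nilpotent group
-/

set_option linter.unusedVariables false

namespace Pool.Agent.Lib.MP8a3537.TW

open Pool.Agent.Lib.MP8a3537.SG

theorem specNDR (hTOR : SpecTOR) (hSEP : SpecSEP) (hCEF : SpecCEF) (hDIS : SpecDIS) (hRES : SpecRES) :
    SpecNDR := by
  intro N iN c hfg hnil htf hcen hc
  obtain ⟨h, hT⟩ := hTOR N hfg hnil htf
  obtain ⟨d, f, hf, hne⟩ := hSEP h N hT c hc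
  obtain ⟨h1, e, hpol, he, hmul⟩ := hCEF N c hcen d f hf hne
  exact ⟨hDIS N c d h1 e hpol he hmul, hRES N c d h1 e hfg hpol he hmul⟩

end Pool.Agent.Lib.MP8a3537.TW
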