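import Pool.Agent.Lib.MP_8a3537_gt.TW.Spec

/-!
# Module NRT of the rows TW (MP_8a3537_gt): traces of powers determine the norm
-/

set_option linter.unusedVariables false

namespace Pool.Agent.Lib.MP8a3537.TW

open Pool.Agent.Lib.MP8a3537.SG
open Filter Topology
open scoped BigOperators Pointwise ComplexOrder Matrix

namespace NRTM

lemma trace_pow {κ : Type} [Fintype κ] [DecidableEq κ] (P : Matrix κ κ ℂ) (hP : P.IsHermitian) (l : ℕ) :
    (P ^ l).trace = ∑ i, ((hP.eigenvalues i : ℂ)) ^ l := by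
  have h1 : P ^ l = Unitary.conjStarAlgAut ℂ _ hP.eigenvectorUnitary
      ((Matrix.diagonal (RCLike.ofReal ∘ hP.eigenvalues) : Matrix κ κ ℂ) ^ l) := by
    rw [map_pow, ← hP.spectral_theorem]
  rw [h1, Unitary.conjStarAlgAut_apply, Matrix.trace_mul_cycle, Unitary.coe_star_mul_self, one_mul, Matrix.diagonal_pow,
    Matrix.trace_diagonal]
  rfl

lemma sum_sq {κ : Type} [Fintype κ] [DecidableEq κ] (A : Matrix κ κ ℂ) (v : κ → ℂ) :
    star v ⬝ᵥ ((Aᴴ * A).mulVec v) = ((∑ i, ‖(A.mulVec v) i‖ ^ 2 : ℝ) : ℂ) := by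
  rw [← Matrix.mulVec_mulVec, Matrix.dotProduct_mulVec, ← Matrix.star_mulVec]
  unfold dotProduct
  push_cast
  refine Finset.sum_congr rfl fun i _ => ?_
  rw [Pi.star_apply, Complex.star_def, mul_comm, Complex.mul_conj, Complex.normSq_eq_norm_sq]
  push_cast
  rfl

lemma sum_sq_one {κ : Type} [Fintype κ] [DecidableEq κ] (v : κ → ℂ) :
    star v ⬝ᵥ v = ((∑ i, ‖v i‖ ^ 2 : ℝ) : ℂ) := by
  unfold dotProduct
  push_cast
  refine Finset.sum_congr rfl fun i _ => ?_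
  rw [Pi.star_apply, Complex.star_def, mul_comm, Complex.mul_conj, Complex.normSq_eq_norm_sq]
  push_cast
  rfl

lemma herm {κ : Type} [Fintype κ] [DecidableEq κ] (A : Matrix κ κ ℂ) : (Aᴴ * A).IsHermitian :=
  Matrix.isHermitian_conjTranspose_mul_self A

lemma ev_nonneg {κ : Type} [Fintype κ] [DecidableEq κ] (A : Matrix κ κ ℂ) (i : κ) :
    0 ≤ (herm A).eigenvalues i :=
  (Matrix.posSemidef_conjTranspose_mul_self A).eigenvalues_nonneg i

lemma ev_le {κ : Type} [Fintype κ] [DecidableEq κ] (A : Matrix κ κ ℂ) (β : ℝ) (h : Bd A β) (i : κ) :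
    (herm A).eigenvalues i ≤ β ^ 2 := by
  have h1 := h (⇑((herm A).eigenvectorBasis i))
  have h2 := (herm A).mulVec_eigenvectorBasis i
  have h3 := sum_sq A (⇑((herm A).eigenvectorBasis i))
  rw [h2] at h3
  have h4 := sum_sq_one (⇑((herm A).eigenvectorBasis i))
  have h5 : ∑ j, ‖(⇑((herm A).eigenvectorBasis i) : κ → ℂ) j‖ ^ 2 = 1 := by
    have h6 := (herm A).eigenvectorBasis.orthonormal.1 i
    have h7 := EuclideanSpace.norm_sq_eq ((herm A).eigenvectorBasis i)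
    rw [h6] at h7
    rw [← h7]
    norm_num
  have h8 : star (⇑((herm A).eigenvectorBasis i) : κ → ℂ) ⬝ᵥ
      ((herm A).eigenvalues i • (⇑((herm A).eigenvectorBasis i) : κ → ℂ)) =
      (((herm A).eigenvalues i : ℝ) : ℂ) * ((∑ j, ‖(⇑((herm A).eigenvectorBasis i) : κ → ℂ) j‖ ^ 2 : ℝ) : ℂ) := by
    rw [dotProduct_smul, h4]
    simp
  rw [h8, h5] at h3
  rw [h5] at h1
  have h9 : (herm A).eigenvalues i = ∑ j, ‖(A.mulVec (⇑((herm A).eigenvectorBasis i))) j‖ ^ 2 := by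
    have := h3
    rw [Complex.ofReal_one, mul_one] at this
    exact_mod_cast this
  rw [h9]
  linarith

lemma bd_of {κ : Type} [Fintype κ] [DecidableEq κ] (A : Matrix κ κ ℂ) (β : ℝ) (h : ∀ i, (herm A).eigenvalues i ≤ β ^ 2) :
    Bd A β := by
  intro v
  have h1 : (((β ^ 2 : ℝ) : ℂ) • (1 : Matrix κ κ ℂ) - Aᴴ * A).PosSemidef := by
    have h2 : ((β ^ 2 : ℝ) : ℂ) • (1 : Matrix κ κ ℂ) - Aᴴ * A = Unitary.conjStarAlgAut ℂ _ (herm A).eigenvectorUnitary
        (((β ^ 2 : ℝ) : ℂ) • (1 : Matrix κ κ ℂ) - Matrix.diagonal (RCLike.ofReal ∘ (herm A).eigenvalues)) := by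
      rw [map_sub, map_smul, map_one, ← (herm A).spectral_theorem]
    rw [h2, Unitary.conjStarAlgAut_apply]
    have h3 : (((β ^ 2 : ℝ) : ℂ) • (1 : Matrix κ κ ℂ) - Matrix.diagonal (RCLike.ofReal ∘ (herm A).eigenvalues)) =
        Matrix.diagonal (fun i => (((β ^ 2 - (herm A).eigenvalues i : ℝ)) : ℂ)) := by
      ext i j
      by_cases hij : i = j
      · subst hij
        simp
      · simp [hij]
    rw [h3]
    refine Matrix.PosSemidef.mul_mul_conjTranspose_same (Matrix.posSemidef_diagonal_iff.2 fun i => ?_) _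
    exact_mod_cast sub_nonneg.2 (h i)
  have h4 := h1.dotProduct_mulVec_nonneg v
  rw [Matrix.sub_mulVec, dotProduct_sub, Matrix.smul_mulVec, Matrix.one_mulVec, dotProduct_smul, sum_sq, sum_sq_one] at h4
  have h5 : (0 : ℂ) ≤ ((β ^ 2 * (∑ i, ‖v i‖ ^ 2) - ∑ i, ‖(A.mulVec v) i‖ ^ 2 : ℝ) : ℂ) := by
    have h6 : ((β ^ 2 * (∑ i, ‖v i‖ ^ 2) - ∑ i, ‖(A.mulVec v) i‖ ^ 2 : ℝ) : ℂ) =
        ((β ^ 2 : ℝ) : ℂ) • ((∑ i, ‖v i‖ ^ 2 : ℝ) : ℂ) - ((∑ i, ‖(A.mulVec v) i‖ ^ 2 : ℝ) : ℂ) := by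
      rw [Complex.ofReal_sub, Complex.ofReal_mul, smul_eq_mul]
    rw [h6]
    exact h4
  have h7 := Complex.zero_le_real.1 h5
  linarith

/-- exponential growth -/
lemma growth (lam b c : ℝ) (hb : 0 ≤ b) (hc : 0 ≤ c) (hl : b < lam) : ∃ l : ℕ, c * b ^ l < lam ^ l := by
  have hlam : 0 < lam := lt_of_le_of_lt hb hl
  have h1 : b / lam < 1 := (div_lt_one hlam).2 hl
  have h0 : 0 ≤ b / lam := div_nonneg hb hlam.le
  obtain ⟨l, hl2⟩ := exists_pow_lt_of_lt_one (show (0 : ℝ) < 1 / (c + 1) by positivity) h1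
  refine ⟨l, ?_⟩
  rw [div_pow, div_lt_div_iff₀ (by positivity) (by positivity)] at hl2
  have h2 : 0 ≤ b ^ l := pow_nonneg hb l
  nlinarith

end NRTM

open NRTM in
theorem specNRT : SpecNRT := by
  intro κ κ0 _ _ _ _ A B k β hβ htr hB
  refine bd_of A β fun i => ?_
  by_contra hlt
  push Not at hlt
  obtain ⟨l, hl⟩ := growth ((herm A).eigenvalues i) (β ^ 2) ((k : ℝ) * Fintype.card κ0) (by positivity) (by positivity) hlt
  have h1 := htr l
  rw [trace_pow _ (herm A), trace_pow _ (herm B)] at h1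
  have h2 : ∑ i, ((herm A).eigenvalues i) ^ l = (k : ℝ) * ∑ i, ((herm B).eigenvalues i) ^ l := by
    exact_mod_cast h1
  have h3 : ((herm A).eigenvalues i) ^ l ≤ ∑ i, ((herm A).eigenvalues i) ^ l :=
    Finset.single_le_sum (f := fun i => ((herm A).eigenvalues i) ^ l) (fun j _ => pow_nonneg (ev_nonneg A j) l) (Finset.mem_univ i)
  have h4 : ∑ i, ((herm B).eigenvalues i) ^ l ≤ Fintype.card κ0 * (β ^ 2) ^ l := by
    have h5 : ∑ i, ((herm B).eigenvalues i) ^ l ≤ ∑ _i : κ0, (β ^ 2) ^ l :=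
      Finset.sum_le_sum fun j _ => pow_le_pow_left₀ (ev_nonneg B j) (ev_le B β hB j) l
    simpa using h5
  have h6 : (k : ℝ) * ∑ i, ((herm B).eigenvalues i) ^ l ≤ k * (Fintype.card κ0 * (β ^ 2) ^ l) :=
    mul_le_mul_of_nonneg_left h4 (by positivity)
  nlinarith

end Pool.Agent.Lib.MP8a3537.TW
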