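import Pool.Agent.Lib.MP_8a3537_gt.TW.Spec

/-!
# TRK: traces over `H <z>`
-/

set_option linter.unusedVariables false

namespace Pool.Agent.Lib.MP8a3537.TW

open Pool.Agent.Lib.MP8a3537.SG
open scoped BigOperators Pointwise ComplexOrder Matrix

theorem ex_mul_int (θ : ℝ) (k : ℤ) : ex (θ * k) = ex θ ^ k := by
  unfold ex
  rw [← Complex.exp_int_mul]
  congr 1
  push_cast
  ring

theorem ex_ne (θ : ℝ) : ex θ ≠ 0 := Complex.exp_ne_zero _

theorem psi_zpow {R E B : Type} [Ring R] [Group E] [Ring B] [Algebra ℂ B] (ψ : MonoidAlgebra R E →+* B)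
    (z : E) (c : ℂ) (hc : c ≠ 0) (h : ψ (MonoidAlgebra.single z 1) = c • (1 : B)) (k : ℤ) :
    ψ (MonoidAlgebra.single (z ^ k) 1) = c ^ k • (1 : B) := by
  have hinv : ψ (MonoidAlgebra.single z⁻¹ 1) = c⁻¹ • (1 : B) := by
    have h1 : ψ (MonoidAlgebra.single z 1) * ψ (MonoidAlgebra.single z⁻¹ 1) = 1 := by
      rw [← map_mul, MonoidAlgebra.single_mul_single, mul_inv_cancel, mul_one]
      exact map_one ψ
    rw [h, smul_one_mul] at h1
    calc ψ (MonoidAlgebra.single z⁻¹ 1) = c⁻¹ • (c • ψ (MonoidAlgebra.single z⁻¹ 1)) := by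
          rw [smul_smul, inv_mul_cancel₀ hc, one_smul]
      _ = c⁻¹ • (1 : B) := by rw [h1]
  induction k using Int.induction_on with
  | zero =>
    rw [zpow_zero, zpow_zero, one_smul]
    exact map_one ψ
  | succ n ih =>
    rw [zpow_add_one, zpow_add_one₀ hc]
    have : (MonoidAlgebra.single (z ^ (n : ℤ) * z) (1 : R) : MonoidAlgebra R E) =
        MonoidAlgebra.single (z ^ (n : ℤ)) 1 * MonoidAlgebra.single z 1 := by
      rw [MonoidAlgebra.single_mul_single, mul_one]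
    rw [this, map_mul, ih, h, smul_one_mul, smul_smul]
  | pred n ih =>
    rw [zpow_sub_one, zpow_sub_one₀ hc]
    have : (MonoidAlgebra.single (z ^ (-(n : ℤ)) * z⁻¹) (1 : R) : MonoidAlgebra R E) =
        MonoidAlgebra.single (z ^ (-(n : ℤ))) 1 * MonoidAlgebra.single z⁻¹ 1 := by
      rw [MonoidAlgebra.single_mul_single, mul_one]
    rw [this, map_mul, ih, hinv, smul_one_mul, smul_smul]

theorem psi_split {R E B : Type} [Ring R] [Group E] [Ring B] [Algebra ℂ B] (ψ : MonoidAlgebra R E →+* B)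
    (z : E) (c : ℂ) (hc : c ≠ 0) (h : ψ (MonoidAlgebra.single z 1) = c • (1 : B)) (k : ℤ) (g : E) (r : R) :
    ψ (MonoidAlgebra.single g r) = c ^ k • ψ (MonoidAlgebra.single (g * (z ^ k)⁻¹) r) := by
  have h1 : (MonoidAlgebra.single g r : MonoidAlgebra R E) =
      MonoidAlgebra.single (g * (z ^ k)⁻¹) r * MonoidAlgebra.single (z ^ k) 1 := by
    rw [MonoidAlgebra.single_mul_single, mul_one, inv_mul_cancel_right]
  rw [h1, map_mul, psi_zpow ψ z c hc h k, mul_smul_comm, mul_one]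

theorem mem_K_iff {E : Type} [Group E] (H K : Subgroup E) (z : E) (hN : H.Normal)
    (hK : K = H ⊔ Subgroup.zpowers z) (g : E) : g ∈ K ↔ ∃ k : ℤ, g * (z ^ k)⁻¹ ∈ H := by
  rw [hK]
  constructor
  · intro hg
    rw [← SetLike.mem_coe, Subgroup.normal_mul] at hg
    obtain ⟨a, ha, b, hb, rfl⟩ := hg
    obtain ⟨k, rfl⟩ := Subgroup.mem_zpowers_iff.1 hb
    exact ⟨k, by simpa using ha⟩
  · rintro ⟨k, hk⟩
    have h1 : g = (g * (z ^ k)⁻¹) * z ^ k := by group
    rw [h1]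
    exact Subgroup.mul_mem_sup hk (Subgroup.zpow_mem_zpowers z k)

theorem chiH_of {E : Type} [Group E] (H : Subgroup E) (z : E) (θ : ℝ) (hz : ∀ k : ℤ, z ^ k ∈ H → k = 0)
    (hc : ∀ g, g * z = z * g) (g : E) (k : ℤ) (hk : g * (z ^ k)⁻¹ ∈ H) : chiH H z θ g = ex θ ^ k := by
  have h : ∃ k : ℤ, g * (z ^ k)⁻¹ ∈ H := ⟨k, hk⟩
  unfold chiH
  rw [dif_pos h]
  have h2 := h.choose_spec
  have h3 : h.choose = k := by
    have h4 : (g * (z ^ k)⁻¹)⁻¹ * (g * (z ^ h.choose)⁻¹) ∈ H := H.mul_mem (H.inv_mem hk) h2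
    have h5 : (g * (z ^ k)⁻¹)⁻¹ * (g * (z ^ h.choose)⁻¹) = z ^ (k - h.choose) := by
      rw [zpow_sub]
      group
    rw [h5] at h4
    have := hz _ h4
    omega
  rw [h3]
  exact ex_mul_int θ k

theorem chiH_out {E : Type} [Group E] (H : Subgroup E) (z : E) (θ : ℝ) (g : E)
    (h : ¬ ∃ k : ℤ, g * (z ^ k)⁻¹ ∈ H) : chiH H z θ g = 0 := by
  unfold chiH
  rw [dif_neg h]

theorem specTRK : SpecTRK := by
  intro R E ι κ0 _ _ _ _ _ _ H K z Φ0 θ hN hz hK hinf h0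
  have h0' : Φ0 (MonoidAlgebra.single z 1) = (1 : ℂ) • (1 : Matrix κ0 κ0 ℂ) := by rw [h0, one_smul]
  have hΦ0 : ∀ (k : ℤ) (g : E) (r : R), Φ0 (MonoidAlgebra.single g r) = Φ0 (MonoidAlgebra.single (g * (z ^ k)⁻¹) r) := by
    intro k g r
    rw [psi_split Φ0 z 1 one_ne_zero h0' k g r, one_zpow, one_smul]
  constructor
  · intro κ _ _ Φ n hΦ htr x
    unfold trW
    rw [Finset.mul_sum]
    refine Finset.sum_congr rfl fun i _ => ?_
    rw [Finset.mul_sum]
    refine Finset.sum_congr rfl fun g _ => ?_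
    by_cases hg : g ∈ K
    · obtain ⟨k, hk⟩ := (mem_K_iff H K z hN hK g).1 hg
      rw [chiH_of H z θ hinf hz g k hk, hΦ0 k g, psi_split Φ z (ex θ) (ex_ne θ) hΦ k g, Matrix.trace_smul,
        htr _ hk]
      unfold ind
      rw [if_pos hg, smul_eq_mul]
      ring
    · have h1 : ¬ ∃ k : ℤ, g * (z ^ k)⁻¹ ∈ H := fun h => hg ((mem_K_iff H K z hN hK g).2 h)
      rw [chiH_out H z θ g h1]
      unfold ind
      rw [if_neg hg]
      ring
  · intro B _ _ ψ ω hψ htr hout x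
    unfold trW
    refine Finset.sum_congr rfl fun i _ => ?_
    have h1 : x i i = ∑ g ∈ (x i i).coeff.support, MonoidAlgebra.single g ((x i i).coeff g) := by
      exact (MonoidAlgebra.sum_coeff_single (x i i)).symm
    conv_lhs => rw [h1]
    rw [map_sum, map_sum]
    refine Finset.sum_congr rfl fun g _ => ?_
    by_cases hg : g ∈ K
    · obtain ⟨k, hk⟩ := (mem_K_iff H K z hN hK g).1 hg
      rw [chiH_of H z θ hinf hz g k hk, hΦ0 k g, psi_split ψ z (ex θ) (ex_ne θ) hψ k g, map_smul,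
        htr _ hk, smul_eq_mul]
    · have h2 : ¬ ∃ k : ℤ, g * (z ^ k)⁻¹ ∈ H := fun h => hg ((mem_K_iff H K z hN hK g).2 h)
      rw [chiH_out H z θ g h2, hout g hg, zero_mul]

end Pool.Agent.Lib.MP8a3537.TW
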