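import Pool.Agent.Lib.MP_8a3537_gt.TW.Spec

set_option autoImplicit false

namespace Pool.Agent.Lib.MP8a3537.TW

open Pool.Agent.Lib.MP8a3537.SG
open scoped BigOperators Pointwise ComplexOrder Matrix

namespace TRZ

theorem chiH_eq {E : Type} [Group E] (H : Subgroup E) (z : E) (hz : ∀ k : ℤ, z ^ k ∈ H → k = 0)
    (θ : ℝ) (g : E) (k : ℤ) (hk : g * (z ^ k)⁻¹ ∈ H) : chiH H z θ g = ex (θ * k) := by
  unfold chiH
  have hex : ∃ k : ℤ, g * (z ^ k)⁻¹ ∈ H := ⟨k, hk⟩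
  rw [dif_pos hex]
  have h1 := hex.choose_spec
  have h2 : z ^ (hex.choose - k) ∈ H := by
    have h3 := H.mul_mem (H.inv_mem h1) hk
    have h4 : (g * (z ^ hex.choose)⁻¹)⁻¹ * (g * (z ^ k)⁻¹) = z ^ (hex.choose - k) := by
      rw [zpow_sub]; group
    rwa [h4] at h3
  have h5 : hex.choose = k := by have := hz _ h2; omega
  rw [h5]

theorem chiH_neg {E : Type} [Group E] (H : Subgroup E) (z : E) (θ : ℝ) (g : E)
    (h : ¬ ∃ k : ℤ, g * (z ^ k)⁻¹ ∈ H) : chiH H z θ g = 0 := by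
  unfold chiH
  rw [dif_neg h]

/-- the functional `y ↦ sum of w(g) y(g)` -/
noncomputable def L {Γ : Type} [Group Γ] (w : Γ → ℂ) : CG Γ →+ ℂ where
  toFun y := y.coeff.sum fun g c => w g * c
  map_zero' := by simp
  map_add' x y := by
    rw [MonoidAlgebra.coeff_add]
    exact Finsupp.sum_add_index' (fun _ => mul_zero _) fun _ _ _ => mul_add _ _ _

theorem L_single {Γ : Type} [Group Γ] (w : Γ → ℂ) (g : Γ) (c : ℂ) :
    L w (MonoidAlgebra.single g c) = w g * c := by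
  change (MonoidAlgebra.single g c).coeff.sum (fun g c => w g * c) = _
  rw [MonoidAlgebra.coeff_single, Finsupp.sum_single_index (mul_zero _)]

end TRZ

theorem specTRZ : SpecTRZ := by
  intro R E Γ ι κ _ _ _ _ _ _ _ Φ π Ξ z hΞ hz θ x
  have hz' : ∀ k : ℤ, (π z) ^ k ∈ (⊥ : Subgroup Γ) → k = 0 := by
    intro k hk
    refine hz k ?_
    rw [MonoidHom.mem_ker, map_zpow]
    exact Subgroup.mem_bot.1 hk
  have hw : ∀ g : E, chiH ⊥ (π z) θ (π g) = chiH π.ker z θ g := by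
    intro g
    by_cases h : ∃ k : ℤ, g * (z ^ k)⁻¹ ∈ π.ker
    · obtain ⟨k, hk⟩ := h
      rw [TRZ.chiH_eq _ z hz θ g k hk]
      refine TRZ.chiH_eq _ (π z) hz' θ (π g) k ?_
      rw [Subgroup.mem_bot, ← map_zpow, ← map_inv, ← map_mul]
      exact hk
    · rw [TRZ.chiH_neg _ z θ g h]
      refine TRZ.chiH_neg _ (π z) θ (π g) ?_
      rintro ⟨k, hk⟩
      refine h ⟨k, ?_⟩
      rw [Subgroup.mem_bot, ← map_zpow, ← map_inv, ← map_mul] at hk
      exact hk
  have key : ∀ y : MonoidAlgebra R E, ∑ a : κ, TRZ.L (chiH ⊥ (π z) θ) (Ξ y a a) =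
      y.coeff.sum fun g r => chiH π.ker z θ g * (Φ (MonoidAlgebra.single g r)).trace := by
    intro y
    have hy : Ξ y = y.coeff.sum fun g r => Ξ (MonoidAlgebra.single g r) := by
      conv_lhs => rw [← MonoidAlgebra.sum_coeff_single y]
      rw [Finsupp.sum, map_sum]
      rfl
    rw [hy]
    simp only [Finsupp.sum, Matrix.sum_apply, map_sum]
    rw [Finset.sum_comm]
    refine Finset.sum_congr rfl fun g _ => ?_
    rw [Matrix.trace, Finset.mul_sum]
    refine Finset.sum_congr rfl fun a _ => ?_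
    rw [hΞ g _ a a, TRZ.L_single, hw, Matrix.diag_apply]
  have h1 : tauZ (π z) θ (psh Ξ x) = ∑ p : ι × κ, TRZ.L (chiH ⊥ (π z) θ) (Ξ (x p.1 p.1) p.2 p.2) := by
    rfl
  rw [h1, Fintype.sum_prod_type]
  unfold trW
  refine Finset.sum_congr rfl fun i _ => ?_
  exact key (x i i)

end Pool.Agent.Lib.MP8a3537.TW
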