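import Pool.Agent.Lib.MP_8a3537_gt.SG.All
import Pool.Agent.Lib.MP_8a3537_gt.TW.CLQ
import Pool.Agent.Lib.MP_8a3537_gt.TW.XIX
import Pool.Agent.Lib.MP_8a3537_gt.TW.TRZ
import Pool.Agent.Lib.MP_8a3537_gt.TW.MOM
import Pool.Agent.Lib.MP_8a3537_gt.TW.MGP
import Pool.Agent.Lib.MP_8a3537_gt.TW.BDA
import Pool.Agent.Lib.MP_8a3537_gt.TW.COR
import Pool.Agent.Lib.MP_8a3537_gt.TW.RED
import Pool.Agent.Lib.MP_8a3537_gt.TW.NDR
import Pool.Agent.Lib.MP_8a3537_gt.TW.NQU
import Pool.Agent.Lib.MP_8a3537_gt.TW.KER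
import Pool.Agent.Lib.MP_8a3537_gt.TW.HRX
import Pool.Agent.Lib.MP_8a3537_gt.TW.BDX
import Pool.Agent.Lib.MP_8a3537_gt.TW.TWI
import Pool.Agent.Lib.MP_8a3537_gt.TW.EST
import Pool.Agent.Lib.MP_8a3537_gt.TW.REA
import Pool.Agent.Lib.MP_8a3537_gt.TW.REB
import Pool.Agent.Lib.MP_8a3537_gt.TW.LGB
import Pool.Agent.Lib.MP_8a3537_gt.TW.LIM
import Pool.Agent.Lib.MP_8a3537_gt.TW.CSM
import Pool.Agent.Lib.MP_8a3537_gt.TW.COE
import Pool.Agent.Lib.MP_8a3537_gt.TW.NRT
import Pool.Agent.Lib.MP_8a3537_gt.TW.PSM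
import Pool.Agent.Lib.MP_8a3537_gt.TW.CSA
import Pool.Agent.Lib.MP_8a3537_gt.TW.TRK
import Pool.Agent.Lib.MP_8a3537_gt.TW.NIT
import Pool.Agent.Lib.MP_8a3537_gt.TW.GRD
import Pool.Agent.Lib.MP_8a3537_gt.TW.TWG
import Pool.Agent.Lib.MP_8a3537_gt.TW.EXI
import Pool.Agent.Lib.MP_8a3537_gt.TW.Final

/-!
# Assembly of the rows TW of MP_8a3537_gt
-/

namespace Pool.Agent.Lib.MP8a3537.TW

open Pool.Agent.Lib.MP8a3537.SG

theorem all_NDR : SpecNDR :=
  specNDR (specTOR specROO specKNC specCEX) (specSEP specTKZ specTFG (specEXT specPWM (specUNI specPWM)))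
    (specCEF specPWM) (specDIS specPWM) (specRES specPWM (specGEN specPWM))

theorem all_NQU : SpecNQU := specNQU all_NDR specGRD

theorem all_CSM : SpecCSM := specCSM specCSA

theorem all_COE : SpecCOE := specCOE specNIT specOPX

theorem all_COR : SpecCOR := specCOR specCLQ all_NQU all_COE specLGB specEST

theorem all_LIM : SpecLIM :=
  specLIM (all_PGR specDIF (specCEF specPWM)) specHGA specRFG specSGS specPUS specGPH specSCA

theorem all_REA : SpecREA := specREA specXIX specPSM specHRX specMOM all_LIM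

theorem all_REB : SpecREB := specREB specXIX specPSM specHRX specMOM all_LIM all_CSM

theorem all_BDX : SpecBDX := specBDX specBDA

theorem all_TWI : SpecTWI :=
  specTWI specXIX specPSM specHRX specTRZ specTRK specMOM all_BDX specBDA specNRT specMGP all_CSM all_COR

theorem all_TWG : SpecTWG := specTWG all_TWI specKER specRED

end Pool.Agent.Lib.MP8a3537.TW
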