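import Pool.Agent.Lib.MP_8a3537_gt.SG.SpecN

/-!
# Definitions for the theorem on relative and twisted signatures (MP_8a3537_gt, rows TW)

Paper proof: /team-store/MP_8a3537_gt_TWISTED.md.  Definitions of the rows SG are used (SG/Defs.lean).
-/

set_option linter.unusedVariables false

namespace Pool.Agent.Lib.MP8a3537.TW

open Pool.Agent.Lib.MP8a3537.SG
open scoped BigOperators Pointwise ComplexOrder Matrix

section
variable {R E : Type} [Ring R] [StarRing R] [Group E] {ι κ : Type}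

/-- a unital homomorphism `R[E] -> A` compatible with the involutions
(`(r g)^* = star r g^-1` on `R[E]`) -/
def StarHom {A : Type} [Ring A] [StarRing A] (Φ : MonoidAlgebra R E →+* A) : Prop :=
  ∀ (g : E) (r : R), star (Φ (MonoidAlgebra.single g r)) = Φ (MonoidAlgebra.single g⁻¹ (star r))

/-- `ε`-hermitian matrices over `R[E]` -/
def EpsHerm (ε : ℤ) (h : Matrix ι ι (MonoidAlgebra R E)) : Prop :=
  ∀ i j g, (h j i).coeff g = ε • star ((h i j).coeff g⁻¹)

/-- the image of a matrix over `R[E]` under a representation on `C^κ` -/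
def blk (Φ : MonoidAlgebra R E → Matrix κ κ ℂ) (h : Matrix ι ι (MonoidAlgebra R E)) :
    Matrix (ι × κ) (ι × κ) ℂ :=
  Matrix.of fun p q => Φ (h p.1 q.1) p.2 q.2

/-- `ε = 1, c = 1` or `ε = -1, c = i`: `c` times an `ε`-hermitian complex matrix is hermitian -/
def Unit01 (ε : ℤ) (c : ℂ) : Prop := (ε = 1 ∧ c = 1) ∨ (ε = -1 ∧ c = Complex.I)

/-- the same for matrices over the group ring of a quotient: `Ξ : R[E] -> M_κ(C[G])` -/
def psh {G : Type} [Group G] (Ξ : MonoidAlgebra R E → Matrix κ κ (CG G)) (h : Matrix ι ι (MonoidAlgebra R E)) :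
    Matrix (ι × κ) (ι × κ) (CG G) :=
  Matrix.of fun p q => Ξ (h p.1 q.1) p.2 q.2

/-- `Ξ(r g) = Φ(r g) (x) π(g)` -/
def IsXi {G : Type} [Group G] [Fintype κ] [DecidableEq κ] (Φ : MonoidAlgebra R E →+* Matrix κ κ ℂ) (π : E →* G)
    (Ξ : MonoidAlgebra R E →+* Matrix κ κ (CG G)) : Prop :=
  ∀ (g : E) (r : R) (i j : κ), Ξ (MonoidAlgebra.single g r) i j = MonoidAlgebra.single (π g) (Φ (MonoidAlgebra.single g r) i j)

end

/-- `S` is the sign of the selfadjoint matrix `X` over a C*-algebra: `S^* = S`, `S^2 = 1`, `S X = X S` is of the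
form `T^* T` -/
structure IsSgn {B ι : Type} [Ring B] [StarRing B] [Fintype ι] [DecidableEq ι] (X S : Matrix ι ι B) : Prop where
  self : Sᴴ = S
  sq : S * S = 1
  comm : S * X = X * S
  pos : ∃ T : Matrix ι ι B, S * X = Tᴴ * T

/-- the polynomials `s_j`: `it a j = aeval a (qj j)` -/
noncomputable def qj : ℕ → Polynomial ℂ
  | 0 => Polynomial.X
  | j + 1 => Polynomial.C (3 / 2) * qj j - Polynomial.C (1 / 2) * (qj j) ^ 3

/-- the value `sum_l (qj j)_l t^l m_l` for a sequence of moments `m` -/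
noncomputable def momJ (m : ℕ → ℂ) (t : ℂ) (j : ℕ) : ℂ :=
  ∑ l ∈ Finset.range (3 ^ j + 1), (qj j).coeff l * t ^ l * m l

open Classical in
/-- `sum over i and g in K of tr Φ(x_ii(g) g) w(g)` -/
noncomputable def trW {R E ι κ : Type} [Ring R] [Group E] [Fintype ι] [Fintype κ] (Φ : MonoidAlgebra R E → Matrix κ κ ℂ)
    (w : E → ℂ) (x : Matrix ι ι (MonoidAlgebra R E)) : ℂ :=
  ∑ i, ∑ g ∈ (x i i).coeff.support, w g * (Φ (MonoidAlgebra.single g ((x i i).coeff g))).trace

open Classical in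
/-- indicator function of a subgroup -/
noncomputable def ind {E : Type} [Group E] (K : Subgroup E) (g : E) : ℂ := if g ∈ K then 1 else 0

open Classical in
/-- `g z^k -> e(kθ)` on `H <z>` (`g` in `H`), zero outside `H <z>` -/
noncomputable def chiH {E : Type} [Group E] (H : Subgroup E) (z : E) (θ : ℝ) (g : E) : ℂ :=
  if h : ∃ k : ℤ, g * (z ^ k)⁻¹ ∈ H then ex (θ * h.choose) else 0

/-- the twisted trace `tau_θ(x) = sum_k tr x(z^k) e(kθ)` on matrices over `C[Γ]` -/
noncomputable def tauZ {Γ : Type} [Group Γ] {ι : Type} [Fintype ι] (z : Γ) (θ : ℝ) (x : Matrix ι ι (CG Γ)) : ℂ :=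
  ∑ i, ∑ g ∈ (x i i).coeff.support, chiH ⊥ z θ g * (x i i).coeff g

/-- `β` bounds the operator norm of `A` (with respect to the `ℓ²` norm) -/
def Bd {κ : Type} [Fintype κ] (A : Matrix κ κ ℂ) (β : ℝ) : Prop :=
  ∀ v : κ → ℂ, ∑ i, ‖(A.mulVec v) i‖ ^ 2 ≤ β ^ 2 * ∑ i, ‖v i‖ ^ 2

/-- `h` is invertible modulo `z - 1` (`z` central): explicit data -/
structure InvZ {R E ι : Type} [Ring R] [Group E] [Fintype ι] [DecidableEq ι] (z : E) (h h' x x' : Matrix ι ι (MonoidAlgebra R E)) :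
    Prop where
  right : h * h' = 1 + Matrix.scalar ι (MonoidAlgebra.single z 1 - 1) * x
  left : h' * h = 1 + Matrix.scalar ι (MonoidAlgebra.single z 1 - 1) * x'

end Pool.Agent.Lib.MP8a3537.TW
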