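import Pool.Agent.Lib.MP_8a3537_gt.TW.Defs

/-!
# Specs of the theorem on relative and twisted signatures (MP_8a3537_gt, rows TW)

Paper: /team-store/MP_8a3537_gt_TWISTED.md.  Every proof is in the docstring.  One module = one file
Pool/Agent/Lib/MP_8a3537_gt/TW/XXX.lean, theorem specXXX (hYYY : SpecYYY) ... : SpecXXX.
The landed theorems of the rows SG (`specSCA`, `specCHO`, `specTRI`, `specSPE`, `specREI`, `specPUS`, `specGPH`, `specAUG`, `specSUP`, `specHGA`,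
`specRFG`, `specSGS`, `specTEN`, `specTHE`, `specOPX`, `all_PGR specDIF (specCEF specPWM) : SpecPGR`, ...) may be used everywhere:
import Pool.Agent.Lib.MP_8a3537_gt.SG.All (they then need not appear as hypotheses).
-/

set_option linter.unusedVariables false

namespace Pool.Agent.Lib.MP8a3537.TW

open Pool.Agent.Lib.MP8a3537.SG
open Filter Topology
open scoped BigOperators Pointwise ComplexOrder Matrix

/-! ## Block S: scalars -/

/-- **WIN** [120 lines].  `(fwdDiff 1)^[R+1] v p` times `I` is an integer of absolute value `< 1` for `p`, `p + R + 1` in the window `|·| < w` (all the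
points `p, ..., p+R+1` lie in the window), so it is `0`.  Let `p0` be the least integer of the window.  Newton's formula (fwdDiff: `shift_eq_sum_fwdDiff_iter`)
`v (p0 + t) = sum_{i <= t} choose t i * (fwdDiff 1)^[i] v p0`; for `R+1 <= i <= t` with `p0 + t` in the window `(fwdDiff 1)^[i] v p0 = (fwdDiff 1)^[i-R-1] ((fwdDiff 1)^[R+1] v) p0 = 0`.  So on the
window `v` is the polynomial `sum_{i <= R} (choose (X - p0) i) * d_i` with `d_i = (fwdDiff 1)^[i] v p0` rational (`I v` is an integer on the window; if `i > ` number of steps put `d_i = 0`). -/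
def SpecWIN : Prop := ∀ (R I : ℕ) (w : ℝ) (v : ℤ → ℝ), 0 < w → 0 < I →
  (∀ p : ℤ, |(p : ℝ)| < w → ∃ z : ℤ, (I : ℝ) * v p = z) →
  (∀ p : ℤ, |(p : ℝ)| < w → |((p : ℝ) + R + 1)| < w → (I : ℝ) * |(fwdDiff (1 : ℤ))^[R + 1] v p| < 1) →
  ∃ q : Polynomial ℚ, q.natDegree ≤ R ∧ ∀ p : ℤ, |(p : ℝ)| < w → v p = ((q.eval (p : ℚ) : ℚ) : ℝ)

/-- **CLQ** [250 lines, uses WIN and SCA CHO TRI of SG], section 2 of the paper without groups.  (1) For `M >= M0` (CHO) and its `j`: `(fwdDiff 1)^[R+1] v_M =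
(fwdDiff 1)^[R+1] (v_M - F) + (fwdDiff 1)^[R+1] F` on the window `|p| < δ M`; the first part is at most `2^(R+1) n del e j` (sum of binomials), the second by TRI (1) with `B = n` (`n <= 2n`,
`K_j <= C (3^j)^r`); so `I_M |..| < 1` and WIN gives `q_M` with `v_M(p) = q_M(p)`, `Q_M(X) = q_M(M X)`.  (2) `v_(Mt)(pt) = v_M(p)`: both are within `n del e j -> 0` of `F (T j) (K j) M p =
F (T j) (K j) (M t) (p t)`.  (3) take `M* >= M0` with `δ M* > R + 1`: `Q_(M* t)` and `Q_(M*)` agree at the at least `R+1` points `p/M*`, so are equal; `Q = Q_(M*)`; for arbitrary `M`, `v_M(p) = v_(M M*)(p M*) = Q(p/M)`.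
(4) so `|sum_k T_j k e(kθ) - Q(θ)| <= n del e j` for rational `θ` in `(-δ, δ)`; both sides are continuous and the rationals are dense. -/
def SpecCLQ : Prop := ∀ (e n C δ : ℝ) (r R : ℕ) (T : ℕ → ℤ → ℂ) (K : ℕ → ℕ) (I : ℕ → ℕ) (v : ℕ → ℤ → ℝ),
  0 < e → e ≤ 1 → 0 ≤ n → 0 ≤ C → 0 < δ → (∀ j, (K j : ℝ) ≤ C * ((3 : ℝ) ^ j) ^ r) → (∀ j k, ‖T j k‖ ≤ n) →
  (∀ M : ℕ, 0 < M → 0 < I M ∧ (I M : ℝ) ≤ C * (M : ℝ) ^ R) →
  (∀ M : ℕ, 0 < M → ∀ p : ℤ, |(p : ℝ)| < δ * M → (∃ z : ℤ, (I M : ℝ) * v M p = z) ∧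
    ∀ j, ‖F (T j) (K j) M p - (v M p : ℂ)‖ ≤ n * del e j) →
  ∃ Q : Polynomial ℚ, (∀ M : ℕ, 0 < M → ∀ p : ℤ, |(p : ℝ)| < δ * M → v M p = Polynomial.aeval ((p : ℝ) / M) Q) ∧
    ∀ j (θ : ℝ), |θ| < δ →
      ‖(∑ k ∈ Finset.Icc (-(K j : ℤ)) (K j), T j k * ex (θ * k)) - ((Polynomial.aeval θ Q : ℝ) : ℂ)‖ ≤ n * del e j

/-- **MOM** [60 lines].  `it (t • a) j = aeval (t • a) (qj j)` by induction, `natDegree (qj j) <= 3^j`; expand and apply `L`. -/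
def SpecMOM : Prop := ∀ (A : Type) [Ring A] [Algebra ℂ A] (a : A) (t : ℂ) (L : A →ₗ[ℂ] ℂ) (j : ℕ),
  L (it (t • a) j) = momJ (fun l => L (a ^ l)) t j

/-- **MGP** [120 lines].  Matrix lemma.  `Y' Y = 1 + t W`, `|t| β'' <= 1/2`: `‖v‖ <= ‖Y' Y v‖ + |t| ‖W v‖ <= β' ‖Y v‖ + ‖v‖/2`, so `‖v‖ <= 2 β' ‖Y v‖`.  If `(b • Y) v = μ v`, `v ≠ 0`, then `|μ| ‖v‖ = b ‖Y v‖` lies between `b/(2β') ‖v‖`
and `b β ‖v‖ <= ‖v‖`.  Second part: the gap makes `A` injective, so a unit. -/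
def SpecMGP : Prop := (∀ (κ : Type) [Fintype κ] [DecidableEq κ] (Y Y' W : Matrix κ κ ℂ) (t : ℂ) (b β β' β'' : ℝ),
    Y.IsHermitian → Y' * Y = 1 + t • W → Bd Y β → Bd Y' β' → Bd W β'' → 0 ≤ β → 0 < β' → 0 ≤ β'' → ‖t‖ * β'' ≤ 1 / 2 → 0 < b → b * β ≤ 1 →
    ((b : ℂ) • Y).IsHermitian ∧ ∀ (μ : ℝ) (v : κ → ℂ), v ≠ 0 → ((b : ℂ) • Y).mulVec v = (μ : ℂ) • v → b / (2 * β') ≤ |μ| ∧ |μ| ≤ 1) ∧
  (∀ (κ : Type) [Fintype κ] [DecidableEq κ] (A : Matrix κ κ ℂ) (e : ℝ), 0 < e → A.IsHermitian →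
    (∀ (μ : ℝ) (v : κ → ℂ), v ≠ 0 → A.mulVec v = (μ : ℂ) • v → e ≤ |μ| ∧ |μ| ≤ 1) → IsUnit A)

/-- **BDA** [120 lines].  Rules for `Bd` (it says that the `ℓ²` operator norm is at most `|β|`): every matrix has a bound `β >= 1` (for example `1 +` the Frobenius norm); sums, products, unitary matrices, monotonicity, Kronecker product with a
unitary matrix: `(A ⊗ U) v`: apply `1 ⊗ U` (preserves the norm) and `A ⊗ 1` (acts on each slice); reindexing. -/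
def SpecBDA : Prop :=
  (∀ (κ : Type) [Fintype κ] [DecidableEq κ] (A : Matrix κ κ ℂ), ∃ β : ℝ, 1 ≤ β ∧ Bd A β) ∧
  (∀ (κ : Type) [Fintype κ] [DecidableEq κ] (A B : Matrix κ κ ℂ) (α β : ℝ), 0 ≤ α → 0 ≤ β → Bd A α → Bd B β →
    Bd (A + B) (α + β) ∧ Bd (A * B) (α * β)) ∧
  (∀ (κ : Type) [Fintype κ] [DecidableEq κ] (U : Matrix.unitaryGroup κ ℂ), Bd (U : Matrix κ κ ℂ) 1) ∧
  (∀ (κ : Type) [Fintype κ] [DecidableEq κ] (A : Matrix κ κ ℂ) (α β : ℝ), 0 ≤ α → α ≤ β → Bd A α → Bd A β) ∧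
  (∀ (κ l : Type) [Fintype κ] [DecidableEq κ] [Fintype l] [DecidableEq l] (A : Matrix κ κ ℂ) (U : Matrix.unitaryGroup l ℂ) (α : ℝ),
    Bd A α → Bd (Matrix.kroneckerMap (fun a b => a * b) A (U : Matrix l l ℂ)) α) ∧
  (∀ (κ l : Type) [Fintype κ] [DecidableEq κ] [Fintype l] [DecidableEq l] (f : κ ≃ l) (A : Matrix κ κ ℂ) (α : ℝ),
    Bd A α → Bd (Matrix.reindex f f A) α)

/-- **NRT** [120 lines].  Traces of powers determine the norm.  `P = AᴴA`, `P0 = BᴴB` are positive semidefinite with `tr P^l = k tr P0^l` for all `l`; if `β² < λ` for an eigenvalue `λ` of `P`, then `λ^l <= tr P^l = k tr P0^l <= k (card κ0) β^(2l)`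
(all eigenvalues of `P0` are `<= β²` by `Bd B β`), impossible for large `l`.  So all eigenvalues of `P` are `<= β²`, that is `Bd A β`. -/
def SpecNRT : Prop := ∀ (κ κ0 : Type) [Fintype κ] [DecidableEq κ] [Fintype κ0] [DecidableEq κ0] (A : Matrix κ κ ℂ) (B : Matrix κ0 κ0 ℂ) (k : ℕ) (β : ℝ),
  0 ≤ β → (∀ l : ℕ, ((Aᴴ * A) ^ l).trace = k * ((Bᴴ * B) ^ l).trace) → Bd B β → Bd A β

/-! ## Block X: the map `Ξ` -/

/-- **XIX** [80 lines].  `Ξ` is the ring homomorphism with `Ξ (single g r) = (Φ (single g r)).map (single (π g))`; e.g. `MonoidAlgebra.liftNCRingHom` with `r ↦ (Φ (single 1 r)).map (single 1)` and `g ↦ (Φ (single g 1)).map (single (π g))`,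
which commute; `Φ (single g r) = Φ (single 1 r) Φ (single g 1)`. -/
def SpecXIX : Prop := ∀ (R E G κ : Type) [Ring R] [Group E] [Group G] [Fintype κ] [DecidableEq κ] (Φ : MonoidAlgebra R E →+* Matrix κ κ ℂ) (π : E →* G),
  ∃ Ξ : MonoidAlgebra R E →+* Matrix κ κ (CG G), IsXi Φ π Ξ

/-- **PSM** [120 lines].  `psh Ξ` is a ring homomorphism `M_ι(R[E]) -> M_(ι×κ)(C[G])` (matrices of matrices), also `blk Φ`; last two claims: `Ξ (single z 1) = ` scalar matrix `single (π z) t` if `Φ (single z 1) = t • 1`, so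
`psh Ξ (scalar (single z 1 - 1) * x) = scalar (single (π z) t - 1) * psh Ξ x`. -/
def SpecPSM : Prop := ∀ (R E G ι κ : Type) [Ring R] [Group E] [Group G] [Fintype ι] [DecidableEq ι] [Fintype κ] [DecidableEq κ]
  (Φ : MonoidAlgebra R E →+* Matrix κ κ ℂ) (π : E →* G) (Ξ : MonoidAlgebra R E →+* Matrix κ κ (CG G)), IsXi Φ π Ξ →
  (∃ Ψ : Matrix ι ι (MonoidAlgebra R E) →+* Matrix (ι × κ) (ι × κ) (CG G), ∀ x, Ψ x = psh Ξ x) ∧
  (∃ Ψ : Matrix ι ι (MonoidAlgebra R E) →+* Matrix (ι × κ) (ι × κ) ℂ, ∀ x, Ψ x = blk Φ x) ∧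
  (∀ (z : E) (t : ℂ) (x : Matrix ι ι (MonoidAlgebra R E)), Φ (MonoidAlgebra.single z 1) = t • (1 : Matrix κ κ ℂ) →
    psh Ξ (Matrix.scalar ι (MonoidAlgebra.single z 1 - 1) * x) =
      Matrix.scalar (ι × κ) (MonoidAlgebra.single (π z) t - 1) * psh Ξ x)

/-- **HRX** [100 lines].  `(c • psh Ξ h)` is hermitian over `C[G]` and `c • blk Φ h` is hermitian: the entry of `psh Ξ h` at `(i,a),(j,b)` has coefficient `sum over g with π g = s of Φ(single g (h_ij(g))) a b` at `s`; use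
`star (Φ (single g r)) = Φ (single g⁻¹ (star r))`, `EpsHerm`, and `conj c * ε = c`.  Third claim: augmentation.  Fourth claim: the trace. -/
def SpecHRX : Prop := ∀ (R E G ι κ : Type) [Ring R] [StarRing R] [Group E] [Group G] [Fintype ι] [DecidableEq ι] [Fintype κ] [DecidableEq κ]
  (Φ : MonoidAlgebra R E →+* Matrix κ κ ℂ) (π : E →* G) (Ξ : MonoidAlgebra R E →+* Matrix κ κ (CG G)), IsXi Φ π Ξ → StarHom Φ →
  (∀ (ε : ℤ) (c : ℂ) (h : Matrix ι ι (MonoidAlgebra R E)), Unit01 ε c → EpsHerm ε h → IsHerm (c • psh Ξ h) ∧ (c • blk Φ h).IsHermitian) ∧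
  (∀ x : Matrix ι ι (MonoidAlgebra R E), augM (psh Ξ x) = blk Φ x ∧ tau (psh Ξ x) = trW Φ (ind π.ker) x)

/-- **TRZ** [120 lines].  `π : E → Γ` with kernel `H`, `z` of infinite order modulo `H`: `chiH ⊥ (π z) θ (π g) = chiH H z θ g` (the exponent is unique), and the coefficient of `psh Ξ x` at `π(z)^k` is the sum of the `Φ(single g ..)` over the `g` with `π g = π(z)^k`. -/
def SpecTRZ : Prop := ∀ (R E Γ ι κ : Type) [Ring R] [Group E] [Group Γ] [Fintype ι] [DecidableEq ι] [Fintype κ] [DecidableEq κ]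
  (Φ : MonoidAlgebra R E →+* Matrix κ κ ℂ) (π : E →* Γ) (Ξ : MonoidAlgebra R E →+* Matrix κ κ (CG Γ)) (z : E), IsXi Φ π Ξ →
  (∀ k : ℤ, z ^ k ∈ π.ker → k = 0) → ∀ (θ : ℝ) (x : Matrix ι ι (MonoidAlgebra R E)), tauZ (π z) θ (psh Ξ x) = trW Φ (chiH π.ker z θ) x

/-- **TRK** [100 lines].  For `g = g' z^m`, `g' ∈ H`: `Φ (single g r) = ex θ ^ m • Φ (single g' r)` (`Φ(single z 1) = ex θ • 1`), `Φ0 (single g r) = Φ0 (single g' r)`.  So `tr Φ (single g r) = k ex(θ m) tr Φ0 (single g r)` for `g ∈ K = H <z>`, `chiH` is `ex(θ m)`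
there and `0` outside `K`.  The same computation for `ω ∘ π`. -/
def SpecTRK : Prop := ∀ (R E ι κ0 : Type) [Ring R] [Group E] [Fintype ι] [DecidableEq ι] [Fintype κ0] [DecidableEq κ0] (H K : Subgroup E) (z : E)
  (Φ0 : MonoidAlgebra R E →+* Matrix κ0 κ0 ℂ) (θ : ℝ), H.Normal → (∀ g, g * z = z * g) → K = H ⊔ Subgroup.zpowers z → (∀ k : ℤ, z ^ k ∈ H → k = 0) →
  Φ0 (MonoidAlgebra.single z 1) = 1 →
  (∀ (κ : Type) [Fintype κ] [DecidableEq κ] (Φ : MonoidAlgebra R E →+* Matrix κ κ ℂ) (k : ℕ), Φ (MonoidAlgebra.single z 1) = ex θ • (1 : Matrix κ κ ℂ) →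
    (∀ g ∈ H, ∀ r : R, (Φ (MonoidAlgebra.single g r)).trace = k * (Φ0 (MonoidAlgebra.single g r)).trace) →
    ∀ x : Matrix ι ι (MonoidAlgebra R E), trW Φ (ind K) x = k * trW Φ0 (chiH H z θ) x) ∧
  (∀ (B : Type) [Ring B] [Algebra ℂ B] (ψ : MonoidAlgebra R E →+* B) (ω : B →ₗ[ℂ] ℂ), ψ (MonoidAlgebra.single z 1) = ex θ • (1 : B) →
    (∀ g ∈ H, ∀ r : R, ω (ψ (MonoidAlgebra.single g r)) = (Φ0 (MonoidAlgebra.single g r)).trace) → (∀ g ∉ K, ∀ r : R, ω (ψ (MonoidAlgebra.single g r)) = 0) →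
    ∀ x : Matrix ι ι (MonoidAlgebra R E), ∑ i, ω (ψ (x i i)) = trW Φ0 (chiH H z θ) x)

/-- **BDX** [150 lines, uses BDA].  `twist ρ (psh Ξ u)` is (up to the reindexing `(ι×κ)×l`) the block matrix `sum over i,j,g of E_ij ⊗ Φ(single g (u_ij(g))) ⊗ ρ(π g)`; `Φ(single g r) = Φ(single 1 r) Φ(single g 1)`, `Φ (single g 1)` is unitary because `Φ` is a
`StarHom`, so each summand has the bound `β (u_ij g)`. -/
def SpecBDX : Prop := ∀ (R E G ι κ : Type) [Ring R] [StarRing R] [Group E] [Group G] [Fintype ι] [DecidableEq ι] [Fintype κ] [DecidableEq κ]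
  (Φ : MonoidAlgebra R E →+* Matrix κ κ ℂ) (π : E →* G) (Ξ : MonoidAlgebra R E →+* Matrix κ κ (CG G)) (β : R → ℝ), IsXi Φ π Ξ → StarHom Φ →
  (∀ r, 0 ≤ β r ∧ Bd (Φ (MonoidAlgebra.single 1 r)) (β r)) →
  ∀ (u : Matrix ι ι (MonoidAlgebra R E)) (l : Type) [Fintype l] [DecidableEq l] (ρ : G →* Matrix.unitaryGroup l ℂ),
    Bd (twist ρ (psh Ξ u)) (∑ i, ∑ j, ∑ g ∈ (u i j).coeff.support, β ((u i j).coeff g))

/-! ## Block C: C*-algebras -/

/-- **NIT** [80 lines].  Functional calculus: the spectrum of `a` lies in `[-1,1]`, and `|s_j(x)| <= 1` there (`it a j = cfc (fun x => sj x j) a`); or by induction: `‖(3a - a³)/2‖ <= 1` for selfadjoint `a` with `‖a‖ <= 1`. -/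
def SpecNIT : Prop := ∀ (A : Type) [CStarAlgebra A] (a : A), IsSelfAdjoint a → ‖a‖ ≤ 1 → ∀ j, IsSelfAdjoint (it a j) ∧ ‖it a j‖ ≤ 1

/-- **CSA** [200 lines, uses SCA].  Existence: `s = cfc sign a` (continuous on the spectrum, which does not contain `0`), `s a = |a|` is positive, so of the form `t^* t`.  Convergence: `b0 = 1/(‖a‖+1)`.  Given `s`: `x = s a` is positive (`star t * t`), commutes with `s`, `x² = a²`
is invertible, `b x` has spectrum in `[e,1]`; `it (b a) j = s it (b x) j` (odd polynomial, `s² = 1`, `s` commutes with `x`), `it (b x) j -> 1` (cfc with `sj`, SCA: `|sj y j - 1| <= del e j` for `y` in `[e,1]`).  Compare SG/SGN.lean and SG/SGE.lean. -/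
def SpecCSA : Prop := ∀ (A : Type) [CStarAlgebra A] (a : A), IsSelfAdjoint a → IsUnit a →
  (∃ s : A, star s = s ∧ s * s = 1 ∧ s * a = a * s ∧ ∃ t, s * a = star t * t) ∧
  ∃ b0 : ℝ, 0 < b0 ∧ ∀ b : ℝ, 0 < b → b ≤ b0 → ∀ s : A, (star s = s ∧ s * s = 1 ∧ s * a = a * s ∧ ∃ t, s * a = star t * t) →
    Tendsto (fun j => it ((b : ℂ) • a) j) atTop (𝓝 s)

/-- **CSM** [120 lines, uses CSA].  Apply CSA to the C*-algebra `CStarMatrix ι ι B`; `X ↦ ω (X i i)` is continuous there (entries are bounded by the norm). -/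
def SpecCSM : Prop := ∀ (B : Type) [CStarAlgebra B] (ι : Type) [Fintype ι] [DecidableEq ι] (X : Matrix ι ι B), Xᴴ = X → IsUnit X →
  (∃ S, IsSgn X S) ∧ ∃ b0 : ℝ, 0 < b0 ∧ ∀ b : ℝ, 0 < b → b ≤ b0 → ∀ S, IsSgn X S → ∀ ω : B →L[ℂ] ℂ,
    Tendsto (fun j => ∑ i, ω ((it ((b : ℂ) • X) j) i i)) atTop (𝓝 (∑ i, ω (S i i)))

/-! ## Block G: groups -/

/-- **LIM** [120 lines, uses SG: PGR HGA RFG SGS PUS GPH SCA].  RFG: `y` comes from `y0` over a finitely generated RTFN subgroup `G0`, `tau` and `augM` agree; HGA: `Gap (b0 • y0) e0`; for `0 < b <= b0`: `Gap (b • y0) (e0 b/b0)` (scale the eigenvalues);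
`P G0` (all_PGR): `‖tau (it (b • y0) j) - sgn (augM (b • y0))‖ <= n del (e0 b/b0) j -> 0` (SCA), `sgn (b • augM y0) = sgn (augM y0)` (SGS). -/
def SpecLIM : Prop := ∀ (G : Type) [Group G], RTFN G → ∀ (ι : Type) [Fintype ι] [DecidableEq ι] (y : Matrix ι ι (CG G)), IsHerm y → IsUnit y →
  ∃ b0 : ℝ, 0 < b0 ∧ ∀ b : ℝ, 0 < b → b ≤ b0 → Tendsto (fun j => tau (it ((b : ℂ) • y) j)) atTop (𝓝 (((sgn (augM y) : ℤ) : ℂ)))

/-- **GRD** [200 lines; compare SG/THE.lean].  `Γ' = <c> Γ`, `I = [N : Γ']`; `χ(c^k γ) = ex(pk/M)` is a well defined homomorphism `Γ' -> U(1)` (if `c^k γ = c^l γ'` then `c^(k-l) ∈ Γ`, so `M | k - l`).  The representation induced from `χ`: on `N ⧸ Γ'` with representatives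
`t_u`, the monomial unitary matrix `ρ(g)_(uv) = χ(t_u⁻¹ g t_v)` if `t_u⁻¹ g t_v ∈ Γ'`, else `0`; `ρ(c) = ex(p/M) • 1` because `c` is central.  (From THE: `aug` of the entries of `Θ_p` also works if `Θ_p(of c)` is known to be scalar.) -/
def SpecGRD : Prop := ∀ (N : Type) [Group N] (c : N) (Γ : Subgroup N) (M : ℕ), (∀ g, g * c = c * g) → Γ.Normal → Γ.index ≠ 0 → 0 < M →
  (∀ k : ℤ, c ^ k ∈ Γ → (M : ℤ) ∣ k) →
  ∃ I : ℕ, 0 < I ∧ I ≤ Γ.index ∧ ∀ p : ℤ, ∃ ρ : N →* Matrix.unitaryGroup (Fin I) ℂ, ((ρ c : Matrix.unitaryGroup (Fin I) ℂ) : Matrix (Fin I) (Fin I) ℂ) = ex (p / M) • 1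

/-- **NDR** [80 lines, uses SG: TOR SEP CEF DIS RES PWM].  A finitely generated torsion-free nilpotent group is TFN (TOR); SEP for `g = c`, CEF, DIS, RES. -/
def SpecNDR : Prop := ∀ (N : Type) [Group N] (c : N), Group.FG N → Group.IsNilpotent N → (∀ x : N, ∀ n : ℕ, 0 < n → x ^ n = 1 → x = 1) →
  (∀ g, g * c = c * g) → c ≠ 1 → D2 N c ∧ R2 N c

/-- **NQU** [100 lines, uses NDR GRD].  `Γ` finitely generated RTFN, `z ≠ 1` central: a normal `L` with `z ∉ L`, `N = Γ/L` torsion-free nilpotent and finitely generated, `c` = image of `z`.  `D2 N c` gives `D2 Γ z` (images of products), `R2 N c` and GRD give the representations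
(composed with `Γ → N`). -/
def SpecNQU : Prop := ∀ (Γ : Type) [Group Γ] (z : Γ), Group.FG Γ → RTFN Γ → (∀ g, g * z = z * g) → z ≠ 1 → D2 Γ z ∧
  ∃ (C : ℝ) (r : ℕ) (I : ℕ → ℕ), 0 ≤ C ∧ ∀ M : ℕ, 0 < M → 0 < I M ∧ (I M : ℝ) ≤ C * (M : ℝ) ^ r ∧
    ∀ p : ℤ, ∃ ρ : Γ →* Matrix.unitaryGroup (Fin (I M)) ℂ, ((ρ z : Matrix.unitaryGroup (Fin (I M)) ℂ) : Matrix (Fin (I M)) (Fin (I M)) ℂ) = ex (p / M) • 1

/-- **COE** [120 lines, uses NIT and SG: OPX].  `A = Op y` selfadjoint on `ℓ²`, `b0 = 1/(‖A‖+1)`, `‖it (b A) j‖ <= 1` (NIT), and `(it (b y) j i i).coeff g` is the coordinate `(i, g)` of `(Op (it (b y) j)) (bv (i, 1))`, so of norm at most `1`. -/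
def SpecCOE : Prop := ∀ (Γ : Type) [Group Γ] (ι : Type) [Fintype ι] [DecidableEq ι] (y : Matrix ι ι (CG Γ)), IsHerm y →
  ∃ b0 : ℝ, 0 < b0 ∧ ∀ b : ℝ, 0 < b → b ≤ b0 → ∀ j i g, ‖((it ((b : ℂ) • y) j) i i).coeff g‖ ≤ 1

/-- hermitian with gap in all finite dimensional unitary representations in which `z` is `e(θ)` -/
def LGap {Γ : Type} [Group Γ] {ι : Type} [Fintype ι] [DecidableEq ι] (z : Γ) (θ : ℝ) (y : Matrix ι ι (CG Γ)) (e : ℝ) : Prop :=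
  ∀ (κ : Type) [Fintype κ] [DecidableEq κ] (σ : Γ →* Matrix.unitaryGroup κ ℂ),
    ((σ z : Matrix.unitaryGroup κ ℂ) : Matrix κ κ ℂ) = ex θ • 1 → (twist σ y).IsHermitian ∧
    ∀ (μ : ℝ) (v : ι × κ → ℂ), v ≠ 0 → (twist σ y).mulVec v = (μ : ℂ) • v → e ≤ |μ| ∧ |μ| ≤ 1

/-- **LGB** [120 lines, uses MGP BDA].  `twist σ y` is hermitian (as in SG/HGA), `twist σ` is multiplicative, so `twist σ y' * twist σ y = 1 + (ex θ - 1) • twist σ x'`; each `twist σ u` has the bound `1 + sum of the norms of all coefficients of u` (as in SG/HGA, or BDX with `R = ℂ`);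
`‖ex θ - 1‖ <= 2π|θ|`; MGP. -/
def SpecLGB : Prop := ∀ (Γ : Type) [Group Γ] (z : Γ) (ι : Type) [Fintype ι] [DecidableEq ι] (y y' x' : Matrix ι ι (CG Γ)), IsHerm y →
  y' * y = 1 + Matrix.scalar ι (MonoidAlgebra.single z 1 - 1) * x' →
  ∃ (δ b0 : ℝ), 0 < δ ∧ 0 < b0 ∧ ∀ b : ℝ, 0 < b → b ≤ b0 → ∃ e : ℝ, 0 < e ∧ e ≤ 1 ∧ ∀ θ : ℝ, |θ| < δ → LGap z θ ((b : ℂ) • y) e

/-- **EST** [150 lines, uses XIX PSM HRX TRZ-like computation and SG: PUS GPH].  `Φ = repA σ`, `Ξ` for `π : Γ → G`: `psh Ξ y` has `Gap` with `e` over `G`: for a finite dimensional unitary `ρ` of `G`, `twist ρ (psh Ξ y)` is `twist (σ ⊗ ρ π) y` reindexed and `(σ ⊗ ρπ)(z) = ex θ • 1`.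
`P G`: `‖tau (it (psh Ξ y) j) - sgn (augM (psh Ξ y))‖ <= card(ι × κ) del e j`; `it (psh Ξ y) j = psh Ξ (it y j)`, `augM (psh Ξ y) = twist σ y`, `tau (psh Ξ x) = card κ * tauZ z θ x` (`tr σ(z^k) = card κ ex(θ k)`). -/
def SpecEST : Prop := ∀ (Γ G : Type) [Group Γ] [Group G] (π : Γ →* G) (z : Γ), CExt Γ G π z → P G → ∀ (ι κ : Type) [Fintype ι] [DecidableEq ι] [Fintype κ] [DecidableEq κ]
  (y : Matrix ι ι (CG Γ)) (e θ : ℝ) (σ : Γ →* Matrix.unitaryGroup κ ℂ), 0 < e → e ≤ 1 → ((σ z : Matrix.unitaryGroup κ ℂ) : Matrix κ κ ℂ) = ex θ • 1 → LGap z θ y e →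
  ∀ j, ‖(Fintype.card κ : ℂ) * tauZ z θ (it y j) - ((sgn (twist σ y) : ℤ) : ℂ)‖ ≤ Fintype.card ι * Fintype.card κ * del e j

/-- **COR** [300 lines, uses CLQ NQU COE LGB EST and SG: PGR SUP SGS REI], section 2.3 of the paper.  `δ`, `b0` from LGB, `b0` also at most the one of COE.  `b ≤ b0`: `a = b • y`, `e` from LGB, `n = card ι`; `T_j k = sum_i (it a j i i).coeff (z^k)`, `|T_j k| <= n` (COE); `S` = union of the supports and `1`;
SUP and `D2 Γ z` (NQU): `T_j k = 0` unless `|k| <= C (3^j)^r`; `K_j` = floor.  So `tauZ z θ (it a j) = sum_{|k| <= K_j} T_j k ex(θ k)`.  `I M`, `σ_p` from NQU, `v M p = sgn (twist σ_p a) / I M` for `|p/M| < δ` (a choice of `σ_p`; `sgn (b • A) = sgn A`, so `v M p` does not depend on `b`): EST gives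
`‖F (T j) (K j) M p - v M p‖ <= n del e j`.  CLQ gives `Q`; it satisfies `Q(p/M) = v M p`, so it does not depend on `b` (a polynomial with infinitely many given values).  Limit: `del e j -> 0`.  `Q(0)`: EST for the trivial one dimensional representation, `θ = 0`. -/
def SpecCOR : Prop := ∀ (Γ G : Type) [Group Γ] [Group G] (π : Γ →* G) (z : Γ), CExt Γ G π z → Group.FG Γ → RTFN Γ → RTFN G →
  ∀ (ι : Type) [Fintype ι] [DecidableEq ι] (y y' x' : Matrix ι ι (CG Γ)), IsHerm y → y' * y = 1 + Matrix.scalar ι (MonoidAlgebra.single z 1 - 1) * x' →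
  ∃ (δ b0 : ℝ) (Q : Polynomial ℚ), 0 < δ ∧ 0 < b0 ∧
    (∀ b : ℝ, 0 < b → b ≤ b0 → ∀ θ : ℝ, |θ| < δ → Tendsto (fun j => tauZ z θ (it ((b : ℂ) • y) j)) atTop (𝓝 (((Polynomial.aeval θ Q : ℝ) : ℂ)))) ∧
    Q.eval 0 = (sgn (augM y) : ℤ)

/-- **KER** [120 lines].  `π : E → E ⧸ Z`, `Z = <z>`, `z` central: the kernel of `R[E] → R[E ⧸ Z]` is `(z - 1) R[E]` (an element of the kernel is a sum of elements `r (g z^k - g)`, and `z^k - 1` is a multiple of `z - 1`); lift the inverse of the image of `h` to `h'`, then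
`h h' - 1` and `h' h - 1` have entries in the kernel. -/
def SpecKER : Prop := ∀ (R E : Type) [Ring R] [Group E] (z : E) (Z : Subgroup E) [Z.Normal], Z = Subgroup.zpowers z → (∀ g, g * z = z * g) →
  ∀ (ι : Type) [Fintype ι] [DecidableEq ι] (h : Matrix ι ι (MonoidAlgebra R E)),
  IsUnit (h.map (MonoidAlgebra.mapDomainRingHom R (QuotientGroup.mk' Z))) → ∃ h' x x', InvZ z h h' x x'

/-- **RED** [120 lines].  `E0` = subgroup generated by `z` and the supports of all the entries; elements of `R[E]` supported in `E0` come from `R[E0]`; `R[E0] → R[E]` is injective.  Third claim: RTFN passes to groups with an injective homomorphism to an RTFN group. -/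
def SpecRED : Prop :=
  (∀ (R E : Type) [Ring R] [Group E] (z : E) (ι : Type) [Fintype ι] (n : ℕ) (hs : Fin n → Matrix ι ι (MonoidAlgebra R E)),
    ∃ E0 : Subgroup E, Group.FG E0 ∧ z ∈ E0 ∧ ∃ hs0 : Fin n → Matrix ι ι (MonoidAlgebra R E0),
      ∀ i, (hs0 i).map (MonoidAlgebra.mapDomainRingHom R E0.subtype) = hs i) ∧
  (∀ (R E : Type) [Ring R] [Group E] (E0 : Subgroup E), Function.Injective (MonoidAlgebra.mapDomainRingHom R E0.subtype)) ∧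
  (∀ (G G' : Type) [Group G] [Group G'] (f : G →* G'), Function.Injective f → RTFN G' → RTFN G)

/-! ## Block F: the theorems -/

/-- **REA** [150 lines, uses XIX PSM HRX MOM LIM and SG: SGS], Theorem 1 (a).  `Ξ_i` for `Φ_i`, `π : E → E ⧸ H`, `y_i = c • psh Ξ_i h` hermitian (HRX) and invertible (PSM), `augM y_i = c • blk Φ_i h`.  LIM for both with a common `b`.  By MOM with `L = tau`, `a = psh Ξ_i h`, `t = b c`:
`tau (it (b • y_i) j) = momJ (fun l => trW Φ_i (ind H) (h^l)) (b c) j`, and `k1 trW Φ1 = k2 trW Φ2` on `ind H`. -/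
def SpecREA : Prop := ∀ (R E : Type) [Ring R] [StarRing R] [Group E] (H : Subgroup E) [H.Normal], RTFN (E ⧸ H) →
  ∀ (ι : Type) [Fintype ι] [DecidableEq ι] (h : Matrix ι ι (MonoidAlgebra R E)) (ε : ℤ) (c : ℂ), Unit01 ε c → EpsHerm ε h → IsUnit h →
  ∀ (κ₁ κ₂ : Type) [Fintype κ₁] [DecidableEq κ₁] [Fintype κ₂] [DecidableEq κ₂] (Φ₁ : MonoidAlgebra R E →+* Matrix κ₁ κ₁ ℂ)
    (Φ₂ : MonoidAlgebra R E →+* Matrix κ₂ κ₂ ℂ) (k₁ k₂ : ℕ), StarHom Φ₁ → StarHom Φ₂ →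
  (∀ g ∈ H, ∀ r : R, k₁ * (Φ₁ (MonoidAlgebra.single g r)).trace = k₂ * (Φ₂ (MonoidAlgebra.single g r)).trace) →
  k₁ * sgn (c • blk Φ₁ h) = k₂ * sgn (c • blk Φ₂ h)

/-- **REB** [150 lines, uses XIX PSM HRX MOM LIM CSM], Theorem 1 (b).  `X = c • h.map ψ` is hermitian and invertible in `M_ι(B)`; CSM; for small `b` both sequences `sum_i ω((it (b X) j)_ii)` and `tau (it (b • y) j)` (`y = c • psh Ξ h`) are the same `momJ` (MOM). -/
def SpecREB : Prop := ∀ (R E : Type) [Ring R] [StarRing R] [Group E] (H : Subgroup E) [H.Normal], RTFN (E ⧸ H) →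
  ∀ (ι : Type) [Fintype ι] [DecidableEq ι] (h : Matrix ι ι (MonoidAlgebra R E)) (ε : ℤ) (c : ℂ), Unit01 ε c → EpsHerm ε h → IsUnit h →
  ∀ (κ : Type) [Fintype κ] [DecidableEq κ] (Φ : MonoidAlgebra R E →+* Matrix κ κ ℂ) (B : Type) [CStarAlgebra B] (ψ : MonoidAlgebra R E →+* B) (ω : B →L[ℂ] ℂ),
  StarHom Φ → StarHom ψ → (∀ g ∈ H, ∀ r : R, ω (ψ (MonoidAlgebra.single g r)) = (Φ (MonoidAlgebra.single g r)).trace) →
  (∀ g ∉ H, ∀ r : R, ω (ψ (MonoidAlgebra.single g r)) = 0) →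
  (∃ S, IsSgn (c • h.map ψ) S) ∧ ∀ S, IsSgn (c • h.map ψ) S → ∑ i, ω (S i i) = ((sgn (c • blk Φ h) : ℤ) : ℂ)

/-- the conclusion of Theorem 2 for given data -/
def Concl {R E : Type} [Ring R] [StarRing R] [Group E] (H K : Subgroup E) (z : E) {ι κ0 : Type} [Fintype ι] [DecidableEq ι] [Fintype κ0] [DecidableEq κ0]
    (h : Matrix ι ι (MonoidAlgebra R E)) (c : ℂ) (Φ0 : MonoidAlgebra R E →+* Matrix κ0 κ0 ℂ) (δ : ℝ) (Q : Polynomial ℚ) : Prop :=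
  (∀ (κ : Type) [Fintype κ] [DecidableEq κ] (Φ : MonoidAlgebra R E →+* Matrix κ κ ℂ) (k : ℕ) (θ : ℝ), StarHom Φ → |θ| < δ →
    Φ (MonoidAlgebra.single z 1) = ex θ • (1 : Matrix κ κ ℂ) →
    (∀ g ∈ H, ∀ r : R, (Φ (MonoidAlgebra.single g r)).trace = k * (Φ0 (MonoidAlgebra.single g r)).trace) →
    IsUnit (blk Φ h) ∧ ((sgn (c • blk Φ h) : ℤ) : ℝ) = k * Polynomial.aeval θ Q) ∧
  (∀ (B : Type) [CStarAlgebra B] (ψ : MonoidAlgebra R E →+* B) (ω : B →L[ℂ] ℂ) (θ : ℝ), StarHom ψ → |θ| < δ →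
    ψ (MonoidAlgebra.single z 1) = ex θ • (1 : B) →
    (∀ g ∈ H, ∀ r : R, ω (ψ (MonoidAlgebra.single g r)) = (Φ0 (MonoidAlgebra.single g r)).trace) → (∀ g ∉ K, ∀ r : R, ω (ψ (MonoidAlgebra.single g r)) = 0) →
    IsUnit (h.map ψ) → (∃ S, IsSgn (c • h.map ψ) S) ∧ ∀ S, IsSgn (c • h.map ψ) S → ∑ i, ω (S i i) = ((Polynomial.aeval θ Q : ℝ) : ℂ))

/-- **TWI** [300 lines, uses XIX PSM HRX TRZ TRK MOM BDX BDA NRT MGP CSM COR and SG: PGR SGS PUS SCA], Theorem 2 for finitely generated `E`.  `Γ = E ⧸ H`, `G = E ⧸ K`, `π : Γ → G`, CExt (`z` has infinite order modulo `H`: `E/H` is torsion-free because it is RTFN, and `z ∉ H`).  `Ξ0 : R[E] → M_κ0(C[Γ])` for `Φ0`,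
`y0 = c • psh Ξ0 h`, `y0' = c⁻¹ • psh Ξ0 h'`, `y0' y0 = 1 + (z-1) psh Ξ0 x'`: COR gives `δ, b0, Q`, `Q(0) = sgn (c • blk Φ0 h)`.  Shrink `δ` (see below).  By MOM and TRZ: `tauZ z θ (it (b • y0) j) = momJ (fun l => trW Φ0 (chiH H z θ) (h^l)) (b c) j -> Q(θ)`.
(a) `Φ, k, θ`: for all `r`, `Φ(single 1 r)` has the same bound `β r` as `Φ0 (single 1 r)` (NRT with `A = Φ (single 1 r)`, `B = Φ0 (single 1 r)`, `AᴴA = Φ (single 1 (star r * r))`).  `Ξ` for `Φ` and `E → G`, `y = c • psh Ξ h`, `psh Ξ h' * psh Ξ h = 1 + (ex θ - 1) • psh Ξ x'` (PSM: `π z = 1`): for every finite dimensional unitary `ρ` of `G`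
the bounds of BDX do not depend on `Φ` and `ρ`; `δ` so small that `2πδ` times the bound of `x'` is `<= 1/2`: MGP gives `Gap (b • y) e`, in particular (trivial `ρ`) `blk Φ h` is invertible.  `P G` (all_PGR; `G` is finitely generated): `‖tau (it (b • y) j) - sgn (augM (b • y))‖ <= .. del e j -> 0`, `tau (it (b • y) j) = momJ (fun l => trW Φ (ind K) (h^l)) (b c) j
= k momJ (fun l => trW Φ0 (chiH H z θ) (h^l)) (b c) j` (TRK) `-> k Q(θ)`; `sgn (b • A) = sgn A`.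
(b) CSM, MOM and TRK in the same way. -/
def SpecTWI : Prop := ∀ (R E : Type) [Ring R] [StarRing R] [Group E] (H K : Subgroup E) [H.Normal] [K.Normal] (z : E), Group.FG E → RTFN (E ⧸ H) → RTFN (E ⧸ K) →
  (∀ g, g * z = z * g) → K = H ⊔ Subgroup.zpowers z → z ∉ H →
  ∀ (ι : Type) [Fintype ι] [DecidableEq ι] (h h' x x' : Matrix ι ι (MonoidAlgebra R E)) (ε : ℤ) (c : ℂ), Unit01 ε c → EpsHerm ε h → InvZ z h h' x x' →
  ∀ (κ0 : Type) [Fintype κ0] [DecidableEq κ0] (Φ0 : MonoidAlgebra R E →+* Matrix κ0 κ0 ℂ), StarHom Φ0 → Φ0 (MonoidAlgebra.single z 1) = 1 →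
  ∃ (δ : ℝ) (Q : Polynomial ℚ), 0 < δ ∧ Q.eval 0 = (sgn (c • blk Φ0 h) : ℤ) ∧ Concl H K z h c Φ0 δ Q

/-- **TWG** [150 lines, uses TWI KER RED], Theorem 2 in general.  KER, then RED for `h, h', x, x'` and `z`; `H0 = H.subgroupOf E0`, `K0 = K.subgroupOf E0 = H0 ⊔ <z>`; `E0 ⧸ H0 → E ⧸ H` and `E0 ⧸ K0 → E ⧸ K` are injective; all representations are composed with `R[E0] → R[E]`. -/
def SpecTWG : Prop := ∀ (R E : Type) [Ring R] [StarRing R] [Group E] (H K Z : Subgroup E) [H.Normal] [K.Normal] [Z.Normal] (z : E), RTFN (E ⧸ H) → RTFN (E ⧸ K) →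
  (∀ g, g * z = z * g) → K = H ⊔ Subgroup.zpowers z → Z = Subgroup.zpowers z → z ∉ H →
  ∀ (ι : Type) [Fintype ι] [DecidableEq ι] (h : Matrix ι ι (MonoidAlgebra R E)) (ε : ℤ) (c : ℂ), Unit01 ε c → EpsHerm ε h →
  IsUnit (h.map (MonoidAlgebra.mapDomainRingHom R (QuotientGroup.mk' Z))) →
  ∀ (κ0 : Type) [Fintype κ0] [DecidableEq κ0] (Φ0 : MonoidAlgebra R E →+* Matrix κ0 κ0 ℂ), StarHom Φ0 → Φ0 (MonoidAlgebra.single z 1) = 1 →
  ∃ (δ : ℝ) (Q : Polynomial ℚ), 0 < δ ∧ Q.eval 0 = (sgn (c • blk Φ0 h) : ℤ) ∧ Concl H K z h c Φ0 δ Q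

end Pool.Agent.Lib.MP8a3537.TW
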