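import Pool.Agent.Lib.MP_8a3537_gt.TW.Spec

set_option linter.unusedVariables false

namespace Pool.Agent.Lib.MP8a3537.TW

open Polynomial

/-- the difference of order `n` of `I v` is an integer if the values in the window are integral -/
lemma win_int (I : ℕ) (w : ℝ) (v : ℤ → ℝ)
    (hv : ∀ p : ℤ, |(p : ℝ)| < w → ∃ z : ℤ, (I : ℝ) * v p = z) (n : ℕ) (p : ℤ)
    (h1 : |(p : ℝ)| < w) (h2 : |(p : ℝ) + n| < w) :
    ∃ z : ℤ, (I : ℝ) * (fwdDiff (1 : ℤ))^[n] v p = z := by
  have hwin : ∀ k ∈ Finset.range (n + 1), |((p + k : ℤ) : ℝ)| < w := by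
    intro k hk
    have hk' : (k : ℝ) ≤ n := by
      exact_mod_cast Nat.lt_succ_iff.mp (Finset.mem_range.mp hk)
    rw [abs_lt] at *
    push_cast
    have : (0 : ℝ) ≤ k := Nat.cast_nonneg k
    constructor <;> linarith [h1.1, h1.2, h2.1, h2.2]
  choose! z hz using hv
  refine ⟨∑ k ∈ Finset.range (n + 1), ((-1 : ℤ) ^ (n - k) * n.choose k) * z (p + k), ?_⟩
  rw [fwdDiff_iter_eq_sum_shift, Finset.mul_sum]
  push_cast
  refine Finset.sum_congr rfl fun k hk => ?_
  have h := hz _ (hwin k hk)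
  have e : p + k • (1 : ℤ) = p + k := by simp
  rw [e, zsmul_eq_mul, ← h]
  push_cast
  ring

theorem specWIN : SpecWIN := by
  intro R I w v hw hI hint hsmall
  have hIR : (0 : ℝ) < I := by exact_mod_cast hI
  -- the window is `[-m, m]`
  obtain ⟨m, hm⟩ : ∃ m : ℕ, ∀ p : ℤ, |(p : ℝ)| < w ↔ |p| ≤ m := by
    refine ⟨⌈w⌉₊ - 1, fun p => ?_⟩
    have hc : 0 < ⌈w⌉₊ := Nat.ceil_pos.mpr hw
    have h1 : |(p : ℝ)| = (p.natAbs : ℝ) := by
      rw [← Int.cast_abs, Int.abs_eq_natAbs]
      simp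
    have h2 : |p| = (p.natAbs : ℤ) := Int.abs_eq_natAbs p
    rw [h1, h2, ← Nat.lt_ceil]
    constructor
    · intro h
      have : p.natAbs ≤ ⌈w⌉₊ - 1 := by omega
      exact_mod_cast this
    · intro h
      have : p.natAbs ≤ ⌈w⌉₊ - 1 := by exact_mod_cast h
      omega
  set p0 : ℤ := -(m : ℤ) with hp0
  have hwin : ∀ t : ℕ, t ≤ 2 * m → |((p0 + t : ℤ) : ℝ)| < w := by
    intro t ht
    rw [hm, abs_le]
    constructor <;> omega
  -- the difference of order `R + 1` vanishes inside the window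
  have hzero : ∀ t : ℕ, t + R + 1 ≤ 2 * m → (fwdDiff (1 : ℤ))^[R + 1] v (p0 + t) = 0 := by
    intro t ht
    have h1 := hwin t (by omega)
    have h2 : |((p0 + t : ℤ) : ℝ) + (R + 1 : ℕ)| < w := by
      have := hwin (t + R + 1) ht
      have e : (((p0 + (t + R + 1 : ℕ) : ℤ)) : ℝ) = ((p0 + t : ℤ) : ℝ) + (R + 1 : ℕ) := by
        push_cast; ring
      rwa [e] at this
    obtain ⟨z, hz⟩ := win_int I w v hint (R + 1) (p0 + t) h1 h2
    have h3 := hsmall (p0 + t) h1 (by
      have e : ((p0 + t : ℤ) : ℝ) + R + 1 = ((p0 + t : ℤ) : ℝ) + (R + 1 : ℕ) := by push_cast; ring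
      rw [e]; exact h2)
    have h4 : |(z : ℝ)| < 1 := by
      rw [← hz, abs_mul, abs_of_pos hIR]; exact h3
    have h5 : z = 0 := by
      have : |z| < 1 := by exact_mod_cast h4
      exact Int.abs_lt_one_iff.mp this
    rw [h5] at hz
    have := mul_eq_zero.mp (hz.trans (by simp))
    rcases this with h | h
    · exact absurd h hIR.ne'
    · exact h
  have hzero' : ∀ i : ℕ, R + 1 ≤ i → i ≤ 2 * m → (fwdDiff (1 : ℤ))^[i] v p0 = 0 := by
    intro i hi him
    obtain ⟨j, rfl⟩ := Nat.exists_eq_add_of_le hi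
    rw [Nat.add_comm, Function.iterate_add_apply, fwdDiff_iter_eq_sum_shift]
    refine Finset.sum_eq_zero fun k hk => ?_
    have hk' := Nat.lt_succ_iff.mp (Finset.mem_range.mp hk)
    have e : p0 + k • (1 : ℤ) = p0 + k := by simp
    rw [e, hzero k (by omega), smul_zero]
  -- rational differences at the left end point
  have hrat : ∀ i : ℕ, ∃ d : ℚ, i ≤ 2 * m → (fwdDiff (1 : ℤ))^[i] v p0 = (d : ℝ) := by
    intro i
    by_cases hi : i ≤ 2 * m
    · obtain ⟨z, hz⟩ := win_int I w v hint i p0 (by simpa using hwin 0 (Nat.zero_le _)) (by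
        have := hwin i hi
        push_cast at this
        exact this)
      refine ⟨(z : ℚ) / I, fun _ => ?_⟩
      push_cast
      rw [eq_div_iff hIR.ne', ← hz]
      ring
    · exact ⟨0, fun h => absurd h hi⟩
  choose d hd using hrat
  refine ⟨∑ i ∈ Finset.range (R + 1), Polynomial.C (d i / (i.factorial : ℚ)) *
    (descPochhammer ℚ i).comp (X - C ((p0 : ℤ) : ℚ)), ?_, ?_⟩
  · refine Polynomial.natDegree_sum_le_of_forall_le _ _ fun i hi => ?_
    refine (Polynomial.natDegree_C_mul_le _ _).trans ?_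
    rw [Polynomial.natDegree_comp, Polynomial.natDegree_X_sub_C, mul_one, descPochhammer_natDegree]
    exact Nat.lt_succ_iff.mp (Finset.mem_range.mp hi)
  · intro p hp
    have hp' := (hm p).mp hp
    rw [abs_le] at hp'
    obtain ⟨t, ht⟩ : ∃ t : ℕ, p = p0 + t := ⟨(p - p0).toNat, by omega⟩
    have ht2 : t ≤ 2 * m := by omega
    subst ht
    have hN := shift_eq_sum_fwdDiff_iter (1 : ℤ) v t p0
    have e : p0 + t • (1 : ℤ) = p0 + t := by simp
    rw [e] at hN
    rw [hN, Polynomial.eval_finsetSum]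
    have key : ∀ i : ℕ, (Polynomial.C (d i / (i.factorial : ℚ)) *
        (descPochhammer ℚ i).comp (X - C ((p0 : ℤ) : ℚ))).eval (((p0 + t : ℤ)) : ℚ) = d i * (t.choose i : ℚ) := by
      intro i
      rw [Polynomial.eval_mul, Polynomial.eval_C, Polynomial.eval_comp, Polynomial.eval_sub,
        Polynomial.eval_X, Polynomial.eval_C]
      have e2 : (((p0 + t : ℤ)) : ℚ) - ((p0 : ℤ) : ℚ) = (t : ℚ) := by push_cast; ring
      rw [e2, descPochhammer_eval_eq_descFactorial, Nat.descFactorial_eq_factorial_mul_choose]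
      have : (i.factorial : ℚ) ≠ 0 := by exact_mod_cast i.factorial_ne_zero
      push_cast
      field_simp
    simp only [key]
    push_cast
    -- both sums equal the sum over `range (R + t + 2)`
    have hL : ∑ k ∈ Finset.range (t + 1), t.choose k • (fwdDiff (1 : ℤ))^[k] v p0
        = ∑ k ∈ Finset.range (t + 1 + (R + 1)), (if k ≤ R then (d k : ℝ) * (t.choose k : ℝ) else 0) := by
      rw [Finset.sum_range_add (fun k => if k ≤ R then (d k : ℝ) * (t.choose k : ℝ) else 0) (t + 1) (R + 1)]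
      have h0 : ∑ x ∈ Finset.range (R + 1), (if t + 1 + x ≤ R then (d (t + 1 + x) : ℝ) * (t.choose (t + 1 + x) : ℝ) else 0) = 0 := by
        refine Finset.sum_eq_zero fun x _ => ?_
        rw [Nat.choose_eq_zero_of_lt (by omega)]
        simp
      rw [h0, add_zero]
      refine Finset.sum_congr rfl fun k hk => ?_
      have hk' := Nat.lt_succ_iff.mp (Finset.mem_range.mp hk)
      by_cases hkR : k ≤ R
      · rw [if_pos hkR, hd k (by omega), nsmul_eq_mul]; ring
      · rw [if_neg hkR, hzero' k (by omega) (by omega), smul_zero]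
    have hR : ∑ k ∈ Finset.range (R + 1), (d k : ℝ) * (t.choose k : ℝ)
        = ∑ k ∈ Finset.range (t + 1 + (R + 1)), (if k ≤ R then (d k : ℝ) * (t.choose k : ℝ) else 0) := by
      rw [add_comm (t + 1) (R + 1), Finset.sum_range_add (fun k => if k ≤ R then (d k : ℝ) * (t.choose k : ℝ) else 0) (R + 1) (t + 1)]
      have h0 : ∑ x ∈ Finset.range (t + 1), (if R + 1 + x ≤ R then (d (R + 1 + x) : ℝ) * (t.choose (R + 1 + x) : ℝ) else 0) = 0 := by
        refine Finset.sum_eq_zero fun x _ => ?_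
        rw [if_neg (by omega)]
      rw [h0, add_zero]
      refine Finset.sum_congr rfl fun k hk => ?_
      rw [if_pos (Nat.lt_succ_iff.mp (Finset.mem_range.mp hk))]
    rw [hL, hR]

end Pool.Agent.Lib.MP8a3537.TW
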